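import Pool.Agent.GO3.I.Main

/-! # Cl: the inserted configuration is in the class `(n, -1)`

PROOF. See the header of `Main.lean`, second part: `Z` only depends on `aa` (a function of `A`) and, where `psi (aa n r) ≠ 0`, on the values
of `w` and `h` on the circle of radius `r`. -/

open MeasureTheory Filter Topology Set
open scoped ContDiff Real

noncomputable section

namespace GO3.I

private theorem norm_pt' {r : ℝ} (hr : 0 ≤ r) (χ : ℝ) : ‖pt r χ‖ = r := by
  unfold pt
  rw [norm_mul, Complex.norm_exp_ofReal_mul_I, mul_one, Complex.norm_real,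
    Real.norm_of_nonneg hr]

/-- near the origin the cut-off vanishes -/
theorem psi_zero (n : ℕ) (hn : 2 ≤ n) (c : Cf) (hR : c.Rad) :
    ∃ r0 : ℝ, 0 < r0 ∧ ∀ r, 0 ≤ r → r ≤ r0 → psi (c.aa n r) = 0 := by
  obtain ⟨G, hG, hA⟩ := hR
  obtain ⟨M, hM⟩ := (isCompact_closedBall (0 : ℂ) 1).exists_bound_of_continuousOn
    (f := G) hG.continuous.continuousOn
  have hM0 : 0 ≤ M := (norm_nonneg _).trans (hM 0 (by simp))
  have hal : 0 < al n := by
    unfold al
    have : (0 : ℝ) < n := by exact_mod_cast (by omega : 0 < n)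
    positivity
  refine ⟨1 / (M + 1), by positivity, ?_⟩
  intro r hr hr1
  have hr2 : r ≤ 1 := hr1.trans (by
    rw [div_le_one (by positivity)]
    linarith)
  have hMr : M * r ^ 2 ≤ 1 := by
    have h1 : r * (M + 1) ≤ 1 := by
      rwa [le_div_iff₀ (by positivity)] at hr1
    nlinarith [mul_nonneg hM0 hr, mul_nonneg (mul_nonneg hM0 hr) (sub_nonneg.2 hr2)]
  have hb : ∀ χ, ‖c.b r χ‖ ≤ M * r ^ 2 := by
    intro χ
    have hn1 : ‖pt r χ‖ = r := norm_pt' hr χ
    have h1 : c.b r χ = G (pt r χ) * r ^ 2 := by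
      unfold Cf.b ip
      have hr2' : r ^ 2 = (pt r χ).re * (pt r χ).re + (pt r χ).im * (pt r χ).im := by
        rw [← Complex.normSq_apply, Complex.normSq_eq_norm_sq, hn1]
      rw [hA, hr2']
      simp only [Complex.mul_re, Complex.mul_im, Complex.I_re, Complex.I_im, Complex.ofReal_re,
        Complex.ofReal_im, zero_mul, one_mul, mul_zero, zero_sub, sub_zero, zero_add]
      ring
    rw [h1, norm_mul, Real.norm_of_nonneg (sq_nonneg r)]
    refine mul_le_mul_of_nonneg_right (hM _ ?_) (sq_nonneg r)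
    rw [mem_closedBall_zero_iff, hn1]
    exact hr2
  have hB : c.B r (al n) ≤ M * r ^ 2 * al n := by
    have h1 := intervalIntegral.norm_integral_le_of_norm_le_const
      (a := (0 : ℝ)) (b := al n) (f := fun t => c.b r t) (C := M * r ^ 2) (fun x _ => hb x)
    rw [sub_zero, abs_of_pos hal] at h1
    exact (le_abs_self _).trans h1
  have hbeta : c.beta n r ≤ 1 := by
    unfold Cf.beta
    rw [div_le_one hal]
    nlinarith
  have haa : c.aa n r ≤ 0 := by
    unfold Cf.aa
    exact mul_nonpos_of_nonneg_of_nonpos hal.le (by linarith)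
  unfold psi
  have hpi : 0 < π := Real.pi_pos
  have h1 : |c.aa n r - π| = π - c.aa n r := by
    rw [abs_of_nonpos (by linarith)]
    ring
  have h2 : 8 ≤ (8 / π) * |c.aa n r - π| := by
    rw [h1, div_mul_eq_mul_div, le_div_iff₀ hpi]
    linarith
  rw [max_eq_left]
  exact (min_le_right _ _).trans (by linarith)

/-- two configurations with the same potential that agree for `r0 ≤ ‖z‖` have the same curve `Z` -/
theorem Z_same (n : ℕ) (c c' : Cf) (r0 : ℝ) (hA : c'.A = c.A)
    (hpsi : ∀ r, 0 ≤ r → r ≤ r0 → psi (c.aa n r) = 0)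
    (hout : ∀ z : ℂ, r0 ≤ ‖z‖ → c'.w z = c.w z ∧ c'.h z = c.h z) (r : ℝ) (hr : 0 ≤ r) :
    c'.Z n r = c.Z n r := by
  have hb : c'.b = c.b := by
    funext r χ
    unfold Cf.b
    rw [hA]
  have hB : c'.B = c.B := by
    funext r χ
    unfold Cf.B
    rw [hb]
  have haa : c'.aa n r = c.aa n r := by
    unfold Cf.aa Cf.beta
    rw [hB]
  rcases le_total r r0 with h | h
  · unfold Cf.Z
    rw [haa, hpsi r hr h]
    simp
  · have hw : ∀ χ, c'.w (pt r χ) = c.w (pt r χ) := fun χ =>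
      (hout _ (by rw [norm_pt' hr χ]; exact h)).1
    have hh : ∀ χ, c'.h (pt r χ) = c.h (pt r χ) := fun χ =>
      (hout _ (by rw [norm_pt' hr χ]; exact h)).2
    have hcc : c'.cc n r = c.cc n r := by
      unfold Cf.cc
      simp only [hh]
    have hV : c'.V n r = c.V n r := by
      unfold Cf.V
      simp only [hw, hB]
    unfold Cf.Z
    rw [haa, hcc, hV]

theorem ins_class (n : ℕ) (hn : 2 ≤ n) (c : Cf) (hc : c.Cls n 1) (hR : c.Rad)
    (hF : 0 < c.F 0) : ∃ c' : Cf, c'.Cls n (-1) ∧ c'.Rad ∧ c'.E < c.E + 4 * π := by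
  obtain ⟨r0, hr0, hpsi⟩ := psi_zero n hn c hR
  obtain ⟨c', h1, h2, h3, h4, h5⟩ := insertion n hn c hc.1 hR hc.2.2 hF r0 hr0
  refine ⟨c', ⟨h1, ?_, h3⟩, ?_, h5⟩
  · obtain ⟨T, hT1, hT2, hT3, hT4⟩ := hc.2.1
    refine ⟨T, hT1, hT2, ?_, hT4⟩
    intro r hr
    rw [Z_same n c c' r0 h2 hpsi h4 r hr]
    exact hT3 r hr
  · obtain ⟨G, hG, hGA⟩ := hR
    exact ⟨G, hG, fun z => by rw [h2]; exact hGA z⟩

end GO3.I
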