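import Pool.Agent.GO3.I.Defs

/-! # Ann: two elementary integrals

PROOF. `inv_int`, `inv_bd`: polar coordinates (`integral_fun_norm_addHaar` / `Complex.polarCoord`) give
`∫_{B_s} 1/|z| = 2 π s`. `ann`: on the dyadic annulus `2^{-j-1} R ≤ |z| < 2^{-j} R` (area `3π/4 · 4^{-j} R²`) one has
`1/|z|² ≥ 4^j / R²`, so each annulus contributes at least `3π/4`; take `δ = 2^{-N} R` with `N · 3π/4 ≥ M`.
(`z ↦ 1/|z|²` is bounded on the annulus, so everything is integrable.) -/

open MeasureTheory Filter Topology Set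
open scoped ContDiff Real

noncomputable section

namespace GO3.I

private theorem fr : Module.finrank ℝ ℂ = 2 := Complex.finrank_real_complex

private theorem vb : (volume : Measure ℂ).real (Metric.ball 0 1) = π := by
  rw [Measure.real, Complex.volume_ball]
  simp

theorem inv_int (s : ℝ) : IntegrableOn (fun z : ℂ => 1 / ‖z‖) (Metric.ball (0 : ℂ) s) := by
  have h := (integrableOn_fun_norm_addHaar (E := ℂ) (F := ℝ) (volume : Measure ℂ)
    (f := fun y => 1 / y) (r := s)).2 ?_
  · exact h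
  · rw [fr]
    have h1 : IntegrableOn (fun _ : ℝ => (1 : ℝ)) (Ioo 0 s) := by
      rw [integrableOn_const_iff]
      right
      rw [Real.volume_Ioo]
      exact ENNReal.ofReal_lt_top
    refine h1.congr_fun (fun y hy => ?_) measurableSet_Ioo
    have hy0 : y ≠ 0 := hy.1.ne'
    simp only [smul_eq_mul]
    field_simp
    norm_num

theorem inv_bd (s : ℝ) (hs : 0 ≤ s) :
    ∫ z in Metric.ball (0 : ℂ) s, 1 / ‖z‖ ≤ 2 * π * s := by
  have h1 : ∫ z in Metric.ball (0 : ℂ) s, 1 / ‖z‖ =
      ∫ z : ℂ, (Iio s).indicator (fun y : ℝ => 1 / y) ‖z‖ := by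
    rw [← integral_indicator Metric.isOpen_ball.measurableSet]
    refine integral_congr_ae (Eventually.of_forall fun z => ?_)
    by_cases hz : ‖z‖ < s
    · have hz' : z ∈ Metric.ball (0 : ℂ) s := by simpa using hz
      simp only [indicator_of_mem hz', indicator_of_mem (show ‖z‖ ∈ Iio s from hz)]
    · have hz' : z ∉ Metric.ball (0 : ℂ) s := by simpa using hz
      simp only [indicator_of_notMem hz', indicator_of_notMem (show ‖z‖ ∉ Iio s from hz)]
  have h2 : ∫ y in Ioi (0 : ℝ), y ^ (2 - 1) • (Iio s).indicator (fun y : ℝ => 1 / y) y = s := by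
    have h3 : ∫ y in Ioi (0 : ℝ), y ^ (2 - 1) • (Iio s).indicator (fun y : ℝ => 1 / y) y =
        ∫ y in Ioi (0 : ℝ), (Iio s).indicator (fun _ : ℝ => (1 : ℝ)) y := by
      refine setIntegral_congr_fun measurableSet_Ioi fun y hy => ?_
      have hy0 : y ≠ 0 := (show (0 : ℝ) < y from hy).ne'
      by_cases hys : y ∈ Iio s
      · simp only [indicator_of_mem hys, smul_eq_mul]
        field_simp
        norm_num
      · simp only [indicator_of_notMem hys, smul_zero]
    rw [h3, setIntegral_indicator measurableSet_Iio, Ioi_inter_Iio]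
    simp [hs]
  rw [h1, integral_fun_norm_addHaar (volume : Measure ℂ), fr, vb, h2]
  simp only [smul_eq_mul, nsmul_eq_mul]
  push_cast
  linarith

theorem ann (R : ℝ) (hR : 0 < R) (M : ℝ) : ∃ δ : ℝ, 0 < δ ∧ δ < R ∧ ∀ r, 0 < r → r ≤ δ →
    M ≤ ∫ z in {z : ℂ | r ≤ ‖z‖ ∧ ‖z‖ ≤ R}, 1 / ‖z‖ ^ 2 := by
  refine ⟨R * Real.exp (-(|M| + 1)), by positivity, ?_, ?_⟩
  · have h1 : Real.exp (-(|M| + 1)) < 1 := by
      rw [Real.exp_lt_one_iff]
      have := abs_nonneg M
      linarith
    calc R * Real.exp (-(|M| + 1)) < R * 1 := mul_lt_mul_of_pos_left h1 hR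
      _ = R := mul_one R
  intro r hr hrd
  have hrR : r ≤ R := by
    refine hrd.trans ?_
    have h1 : Real.exp (-(|M| + 1)) ≤ 1 := by
      rw [Real.exp_le_one_iff]
      have := abs_nonneg M
      linarith
    calc R * Real.exp (-(|M| + 1)) ≤ R * 1 := mul_le_mul_of_nonneg_left h1 hR.le
      _ = R := mul_one R
  have hm : MeasurableSet {z : ℂ | r ≤ ‖z‖ ∧ ‖z‖ ≤ R} :=
    (isClosed_le continuous_const continuous_norm).measurableSet.inter
      (isClosed_le continuous_norm continuous_const).measurableSet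
  have h1 : ∫ z in {z : ℂ | r ≤ ‖z‖ ∧ ‖z‖ ≤ R}, 1 / ‖z‖ ^ 2 =
      ∫ z : ℂ, (Icc r R).indicator (fun y : ℝ => 1 / y ^ 2) ‖z‖ := by
    rw [← integral_indicator hm]
    refine integral_congr_ae (Eventually.of_forall fun z => ?_)
    by_cases hz : r ≤ ‖z‖ ∧ ‖z‖ ≤ R
    · have hz' : z ∈ {z : ℂ | r ≤ ‖z‖ ∧ ‖z‖ ≤ R} := hz
      simp only [indicator_of_mem hz', indicator_of_mem (show ‖z‖ ∈ Icc r R from hz)]
    · have hz' : z ∉ {z : ℂ | r ≤ ‖z‖ ∧ ‖z‖ ≤ R} := hz
      simp only [indicator_of_notMem hz', indicator_of_notMem (show ‖z‖ ∉ Icc r R from hz)]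
  have h2 : ∫ y in Ioi (0 : ℝ), y ^ (2 - 1) • (Icc r R).indicator (fun y : ℝ => 1 / y ^ 2) y =
      Real.log (R / r) := by
    have h3 : ∫ y in Ioi (0 : ℝ), y ^ (2 - 1) • (Icc r R).indicator (fun y : ℝ => 1 / y ^ 2) y =
        ∫ y in Ioi (0 : ℝ), (Icc r R).indicator (fun y : ℝ => y⁻¹) y := by
      refine setIntegral_congr_fun measurableSet_Ioi fun y hy => ?_
      have hy0 : y ≠ 0 := (show (0 : ℝ) < y from hy).ne'
      by_cases hys : y ∈ Icc r R
      · simp only [indicator_of_mem hys, smul_eq_mul]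
        field_simp
        norm_num
      · simp only [indicator_of_notMem hys, smul_zero]
    have h4 : Ioi (0 : ℝ) ∩ Icc r R = Icc r R :=
      inter_eq_right.2 fun y hy => lt_of_lt_of_le hr hy.1
    rw [h3, setIntegral_indicator measurableSet_Icc, h4, integral_Icc_eq_integral_Ioc,
      ← intervalIntegral.integral_of_le hrR, integral_inv_of_pos hr hR]
  rw [h1, integral_fun_norm_addHaar (volume : Measure ℂ), fr, vb, h2]
  simp only [smul_eq_mul, nsmul_eq_mul]
  push_cast
  have h5 : |M| + 1 ≤ Real.log (R / r) := by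
    rw [Real.le_log_iff_exp_le (by positivity), le_div_iff₀ hr]
    calc Real.exp (|M| + 1) * r ≤ Real.exp (|M| + 1) * (R * Real.exp (-(|M| + 1))) :=
          mul_le_mul_of_nonneg_left hrd (Real.exp_pos _).le
      _ = R * (Real.exp (|M| + 1) * Real.exp (-(|M| + 1))) := by ring
      _ = R := by rw [← Real.exp_add, add_neg_cancel, Real.exp_zero, mul_one]
  have h6 : (3 : ℝ) ≤ π := Real.pi_gt_three.le
  have h7 : M ≤ |M| := le_abs_self M
  have h8 : 0 ≤ |M| := abs_nonneg M
  have h9 : Real.log (R / r) ≤ π * Real.log (R / r) := by nlinarith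
  nlinarith

end GO3.I
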