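import Pool.Agent.GO3.I.Defs

/-! # CutEx: existence of the cut-off and `∫ Xi'(|z|²) = -π`

PROOF. `Xi t = Real.smoothTransition (2 - 4 t / s²)` (`= 1` for `t ≤ s²/4`, `= 0` for `t ≥ s²/2`). For the
integral use polar coordinates (`integral_fun_norm_addHaar` or `Complex.integral_comp_polarCoord_symm`):
`∫_ℂ Xi'(|z|²) = 2π ∫_0^∞ Xi'(r²) r dr = π ∫_0^∞ Xi'(t) dt = π (Xi(∞) - Xi 0) = -π`; `Xi'(|z|²) = 0` for `|z| ≥ s`.
`cut_integral_gen` is the same computation for a general `C¹` function that is constant for large `t`. -/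

open MeasureTheory Filter Topology Set
open scoped ContDiff Real

noncomputable section

namespace GO3.I

theorem cut_ex (s : ℝ) (hs : 0 < s) : ∃ Xi : ℝ → ℝ, Cut Xi s := by
  have hs2 : 0 < s ^ 2 := by positivity
  refine ⟨fun t => Real.smoothTransition (2 - 4 * t / s ^ 2), ?_, ?_, ?_, ?_⟩
  · have h1 : ContDiff ℝ ∞ Real.smoothTransition := Real.smoothTransition.contDiff
    refine h1.comp ?_
    exact contDiff_const.sub ((contDiff_const.mul contDiff_id).div_const _)
  · intro a b hab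
    refine Real.smoothTransition.monotone ?_
    have : 4 * a / s ^ 2 ≤ 4 * b / s ^ 2 := by
      rw [div_le_div_iff_of_pos_right hs2]
      linarith
    linarith
  · intro t ht
    refine Real.smoothTransition.one_of_one_le ?_
    have : 4 * t / s ^ 2 ≤ 1 := by
      rw [div_le_one hs2]
      linarith
    linarith
  · intro t ht
    refine Real.smoothTransition.zero_of_nonpos ?_
    have : 2 ≤ 4 * t / s ^ 2 := by
      rw [le_div_iff₀ hs2]
      linarith
    linarith

theorem cut_nonneg {Xi : ℝ → ℝ} {s : ℝ} (hs : 0 < s) (h : Cut Xi s) (t : ℝ) : 0 ≤ Xi t := by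
  have _ := hs
  have h1 := h.anti (le_max_left t (s ^ 2 / 2))
  rw [h.zero _ (le_max_right t (s ^ 2 / 2))] at h1
  exact h1

theorem cut_le_one {Xi : ℝ → ℝ} {s : ℝ} (hs : 0 < s) (h : Cut Xi s) (t : ℝ) : Xi t ≤ 1 := by
  have _ := hs
  have h1 := h.anti (min_le_left t (s ^ 2 / 4))
  rw [h.one _ (min_le_right t (s ^ 2 / 4))] at h1
  exact h1

theorem cut_deriv_nonpos {Xi : ℝ → ℝ} {s : ℝ} (h : Cut Xi s) (t : ℝ) : deriv Xi t ≤ 0 :=
  h.anti.deriv_nonpos

theorem cut_deriv_zero {Xi : ℝ → ℝ} {s : ℝ} (h : Cut Xi s) (t : ℝ)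
    (ht : t < s ^ 2 / 4 ∨ s ^ 2 / 2 < t) : deriv Xi t = 0 := by
  rcases ht with ht | ht
  · have h1 : Xi =ᶠ[𝓝 t] fun _ => (1 : ℝ) := by
      filter_upwards [Iio_mem_nhds ht] with x hx
      exact h.one x (le_of_lt hx)
    rw [h1.deriv_eq]
    simp
  · have h1 : Xi =ᶠ[𝓝 t] fun _ => (0 : ℝ) := by
      filter_upwards [Ioi_mem_nhds ht] with x hx
      exact h.zero x (le_of_lt hx)
    rw [h1.deriv_eq]
    simp

/-- `∫_ℂ f'(|z|²) dz = π (f(∞) - f(0))` -/
theorem cut_integral_gen (f : ℝ → ℝ) (hf : ContDiff ℝ 1 f) (R : ℝ) (hR : 0 ≤ R) (L : ℝ)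
    (h : ∀ t, R ≤ t → f t = L) : ∫ z : ℂ, deriv f (‖z‖ ^ 2) = π * (L - f 0) := by
  have hd0 : ∀ t, R < t → deriv f t = 0 := by
    intro t ht
    have h1 : f =ᶠ[𝓝 t] fun _ => L := by
      filter_upwards [Ioi_mem_nhds ht] with x hx
      exact h x (le_of_lt hx)
    rw [h1.deriv_eq]
    simp
  have hdc : Continuous (deriv f) := hf.continuous_deriv le_rfl
  have hdiff : Differentiable ℝ f := hf.differentiable (by simp)
  set B : ℝ := Real.sqrt R + 1 with hB
  have hB0 : 0 ≤ B := by positivity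
  have hlarge : ∀ y : ℝ, B < y → R < y ^ 2 := by
    intro y hy
    have h1 : Real.sqrt R < y := by linarith
    have h2 : 0 ≤ Real.sqrt R := Real.sqrt_nonneg R
    calc R = Real.sqrt R ^ 2 := (Real.sq_sqrt hR).symm
      _ < y ^ 2 := by nlinarith
  have key : ∫ y in Ioi (0 : ℝ), 2 * y * deriv f (y ^ 2) = L - f 0 := by
    have h1 := integral_Ioi_of_hasDerivAt_of_tendsto (f := fun y : ℝ => f (y ^ 2))
      (f' := fun y => 2 * y * deriv f (y ^ 2)) (a := 0) (m := L) ?_ ?_ ?_ ?_
    · rw [h1]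
      norm_num
    · exact (hdiff.continuous.comp (continuous_pow 2)).continuousWithinAt
    · intro y _
      have h2 : HasDerivAt f (deriv f (y ^ 2)) (y ^ 2) := (hdiff _).hasDerivAt
      have h3 : HasDerivAt (fun y : ℝ => y ^ 2) (2 * y) y := by
        have := hasDerivAt_pow 2 y
        simpa using this
      have h4 := HasDerivAt.comp (h₂ := f) (h := fun y : ℝ => y ^ 2) y h2 h3
      rw [mul_comm] at h4
      exact h4
    · have e : Ioi (0 : ℝ) = Ioc 0 B ∪ Ioi B := (Ioc_union_Ioi_eq_Ioi hB0).symm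
      rw [e]
      have hc : Continuous fun y : ℝ => 2 * y * deriv f (y ^ 2) :=
        (continuous_const.mul continuous_id).mul (hdc.comp (continuous_pow 2))
      refine IntegrableOn.union (hc.integrableOn_Ioc) ?_
      refine IntegrableOn.congr_fun (f := fun _ => (0 : ℝ)) integrableOn_zero ?_ measurableSet_Ioi
      intro y hy
      change (0 : ℝ) = 2 * y * deriv f (y ^ 2)
      rw [hd0 _ (hlarge y hy), mul_zero]
    · refine tendsto_const_nhds.congr' ?_
      filter_upwards [eventually_gt_atTop B] with y hy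
      exact (h _ (hlarge y hy).le).symm
  have hv : (volume : Measure ℂ).real (Metric.ball 0 1) = π := by
    rw [Measure.real, Complex.volume_ball]
    simp
  rw [integral_fun_norm_addHaar volume (fun r : ℝ => deriv f (r ^ 2)), hv,
    Complex.finrank_real_complex]
  have h5 : ∫ y in Ioi (0 : ℝ), y ^ (2 - 1) • deriv f (y ^ 2) =
      2⁻¹ * ∫ y in Ioi (0 : ℝ), 2 * y * deriv f (y ^ 2) := by
    rw [← integral_const_mul]
    refine integral_congr_ae (Eventually.of_forall fun y => ?_)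
    simp only [Nat.add_one_sub_one, pow_one, smul_eq_mul]
    ring
  rw [h5, key]
  simp only [smul_eq_mul, nsmul_eq_mul, Nat.cast_ofNat]
  ring

theorem cut_integral {Xi : ℝ → ℝ} {s : ℝ} (hs : 0 < s) (h : Cut Xi s) :
    ∫ z in Metric.ball (0 : ℂ) s, deriv Xi (‖z‖ ^ 2) = -π := by
  rw [setIntegral_eq_integral_of_forall_compl_eq_zero]
  · rw [cut_integral_gen Xi (h.sm.of_le (by simp)) (s ^ 2 / 2) (by positivity) 0 h.zero,
      h.one 0 (by positivity)]
    ring
  · intro z hz
    rw [Metric.mem_ball, dist_zero_right, not_lt] at hz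
    refine cut_deriv_zero h _ (Or.inr ?_)
    have : s ^ 2 ≤ ‖z‖ ^ 2 := by gcongr
    have hs2 : 0 < s ^ 2 := by positivity
    linarith

end GO3.I
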