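import Pool.Agent.GO3.I.Pw
import Pool.Agent.GO3.I.Ann
import Pool.Agent.GO3.I.CutEx

/-! # Ca1: the insertion gains energy if `al ≠ 0`

PROOF. `ε = sign al`, `l = ε lam`, `lam > 0`, `r = ‖z‖`, `x = Xi(r²) ∈ [0,1]`, `x' = Xi'(r²) ≤ 0`, `t = l x / star z`,
`k = x' - G x/2`. Choose `s ≤ s0` with `C s ≤ |al|/2`, `|al| s + C s² ≤ 1/8` and
`12 |al| C π s² + (2C+4) 2 π s ≤ 2 π |al|`. For `‖z‖ < s`, `z ≠ 0`:
* `Re (conj u · t) = (x lam / r²) ε Re (conj u z) ≥ (x lam/r²)(|al| r² - C r³) ≥ 0`, so `‖u‖ ≤ ‖u+t‖` and `dd_one` applies;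
* `|al|/2 ≤ ε Re a ≤ 3|al|/2`, so
  `16 g l k Re a = 16 g lam (ε Re a) x' - 8 g lam (ε Re a) G x ≤ 8 |al| lam g x' + 12 |al| C lam`; where `x' ≠ 0` one has
  `r ≥ s/2`, `‖u+t‖ ≤ |al| s + C s² + 2 lam/s ≤ 1/4` if `lam ≤ s/16`, so `g ≥ 1/2` (`gf_half`) and
  `8|al| lam g x' ≤ 4 |al| lam x'`;
* `|k| ≤ M` (`M` depends on `Xi`, `C`), `‖t‖ ≤ lam / r`.
Hence `DD z ≤ 4|al| lam Xi'(r²) + 12 |al| C lam + 8 lam² M² + (2C+4) lam / r`, and by `cut_integral`, `inv_bd`
`∫ DD ≤ lam (-4 π |al| + 12 |al| C π s² + (2C+4) 2π s) + 8 lam² M² π s² ≤ -2 π |al| lam + 8 M² π s² lam² < 0` for small `lam`. -/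

open MeasureTheory Filter Topology Set
open scoped ContDiff Real

noncomputable section

namespace GO3.I

theorem case1_pt (a u z : ℂ) (F G x x' al σ lam C M s : ℝ) (hσ : σ = 1 ∨ σ = -1) (hα : 0 < σ * al)
    (hC : 1 ≤ C) (hl : 0 < lam) (hs : 0 < s) (hz : z ≠ 0) (hzs : ‖z‖ < s)
    (h2 : C * s ≤ σ * al / 2) (h3 : σ * al * s + C * s ^ 2 ≤ 1 / 8) (hls : lam ≤ s / 16)
    (hu : ‖u - (al : ℂ) * z‖ ≤ C * ‖z‖ ^ 2) (ha : ‖a - (al : ℂ)‖ ≤ C * ‖z‖)
    (hF : |F| ≤ C) (hG : |G| ≤ C) (hx0 : 0 ≤ x) (hx1 : x ≤ 1) (hx' : x' ≤ 0)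
    (hxs : x' ≠ 0 → s / 2 ≤ ‖z‖) (hk : |x' - G * x / 2| ≤ M) :
    dd a u F (x' - G * x / 2) (σ * lam) ((((σ * lam) * x : ℝ) : ℂ) / star z) ≤
      4 * (σ * al) * lam * x' + 12 * (σ * al) * C * lam + 8 * lam ^ 2 * M ^ 2
        + (2 * C + 4) * lam * (1 / ‖z‖) := by
  set r := ‖z‖ with hr
  have hr0 : 0 < r := norm_pos_iff.mpr hz
  have hσ2 : σ ^ 2 = 1 := by rcases hσ with h | h <;> simp [h]
  have hσa : |σ| = 1 := by rcases hσ with h | h <;> simp [h]
  set α := σ * al with hαd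
  set t : ℂ := (((σ * lam) * x : ℝ) : ℂ) / star z with ht
  have htn : ‖t‖ = lam * x / r := by
    rw [ht, norm_div, norm_star, Complex.norm_real, Real.norm_eq_abs, abs_mul, abs_mul, hσa,
      abs_of_pos hl, abs_of_nonneg hx0, one_mul]
  have htle : ‖t‖ ≤ lam * (1 / r) := by
    rw [htn, mul_one_div]
    exact div_le_div_of_nonneg_right (by nlinarith) hr0.le
  -- `t = σ lam x z / r²`
  have hzz : star z * z = ((r ^ 2 : ℝ) : ℂ) := by
    rw [hr, ← Complex.normSq_eq_norm_sq]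
    rw [mul_comm]
    exact Complex.mul_conj z
  have hsz : star z ≠ 0 := star_ne_zero.mpr hz
  have ht2 : t = (((σ * lam * x) / r ^ 2 : ℝ) : ℂ) * z := by
    rw [ht, div_eq_iff hsz, mul_assoc ((((σ * lam * x) / r ^ 2 : ℝ) : ℂ)) z (star z),
      mul_comm z (star z), hzz, ← Complex.ofReal_mul]
    congr 1
    field_simp
  -- the sign
  have hur : |(star (u - (al : ℂ) * z) * z).re| ≤ C * r ^ 3 := by
    calc |(star (u - (al : ℂ) * z) * z).re| ≤ ‖star (u - (al : ℂ) * z) * z‖ := Complex.abs_re_le_norm _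
      _ = ‖u - (al : ℂ) * z‖ * r := by rw [norm_mul, norm_star]
      _ ≤ C * r ^ 2 * r := mul_le_mul_of_nonneg_right hu hr0.le
      _ = C * r ^ 3 := by ring
  have hre : (star u * z).re = al * r ^ 2 + (star (u - (al : ℂ) * z) * z).re := by
    have e : star u * z = (al : ℂ) * (star z * z) + star (u - (al : ℂ) * z) * z := by
      rw [star_sub, star_mul']
      have : star (al : ℂ) = (al : ℂ) := Complex.conj_ofReal al
      rw [this]
      ring
    rw [e, hzz, Complex.add_re, ← Complex.ofReal_mul, Complex.ofReal_re]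
  have hsre : 0 ≤ σ * (star u * z).re := by
    rw [hre, mul_add]
    have h4 : |σ * (star (u - (al : ℂ) * z) * z).re| ≤ C * r ^ 3 := by
      rw [abs_mul, hσa, one_mul]; exact hur
    have h5 := (abs_le.mp h4).1
    have h6 : C * r ≤ α / 2 := le_trans (mul_le_mul_of_nonneg_left hzs.le (by linarith)) h2
    have h7 : C * r ^ 3 ≤ α * r ^ 2 := by nlinarith [sq_nonneg r]
    have h8 : σ * (al * r ^ 2) = α * r ^ 2 := by rw [hαd]; ring
    rw [h8]; linarith
  have hut : 0 ≤ (star u * t).re := by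
    rw [ht2]
    have e : star u * ((((σ * lam * x) / r ^ 2 : ℝ) : ℂ) * z) =
      (((σ * lam * x) / r ^ 2 : ℝ) : ℂ) * (star u * z) := by ring
    rw [e, Complex.re_ofReal_mul]
    have : σ * lam * x / r ^ 2 * (star u * z).re = (lam * x / r ^ 2) * (σ * (star u * z).re) := by ring
    rw [this]
    exact mul_nonneg (div_nonneg (mul_nonneg hl.le hx0) (sq_nonneg r)) hsre
  have hnorm : ‖u‖ ≤ ‖u + t‖ := by
    have h1 : ‖u + t‖ ^ 2 = ‖u‖ ^ 2 + 2 * (star u * t).re + ‖t‖ ^ 2 := by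
      rw [← Complex.normSq_eq_norm_sq, ← Complex.normSq_eq_norm_sq, ← Complex.normSq_eq_norm_sq,
        Complex.normSq_apply, Complex.normSq_apply, Complex.normSq_apply]
      simp only [Complex.add_re, Complex.add_im, Complex.mul_re, Complex.star_def, Complex.conj_re,
        Complex.conj_im]
      ring
    exact le_of_sq_le_sq (by nlinarith [sq_nonneg ‖t‖]) (norm_nonneg _)
  have hone := dd_one a u t F (x' - G * x / 2) (σ * lam) hnorm
  have hg0 := gf_nonneg (u + t)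
  have hg1 := gf_le_one (u + t)
  set g := gf (u + t) with hg
  -- `ρ = σ Re a`
  have hρ : |σ * a.re - α| ≤ α / 2 := by
    have h1 : |a.re - al| ≤ C * r := by
      have := Complex.abs_re_le_norm (a - (al : ℂ))
      rw [Complex.sub_re, Complex.ofReal_re] at this
      exact le_trans this ha
    have h2' : σ * a.re - α = σ * (a.re - al) := by rw [hαd]; ring
    rw [h2', abs_mul, hσa, one_mul]
    exact le_trans h1 (le_trans (mul_le_mul_of_nonneg_left hzs.le (by linarith)) h2)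
  have hρ1 := (abs_le.mp hρ).1
  have hρ2 := (abs_le.mp hρ).2
  set ρ := σ * a.re with hρd
  have hun : ‖u‖ ≤ α * r + C * r ^ 2 := by
    have h1 : u = (u - (al : ℂ) * z) + (al : ℂ) * z := by ring
    have h2' : ‖(al : ℂ) * z‖ = α * r := by
      rw [norm_mul, Complex.norm_real, Real.norm_eq_abs]
      have : |al| = α := by
        rw [hαd]
        have e : |σ * al| = |al| := by rw [abs_mul, hσa, one_mul]
        rw [← e]
        exact abs_of_pos hα
      rw [this]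
    calc ‖u‖ = ‖(u - (al : ℂ) * z) + (al : ℂ) * z‖ := by rw [← h1]
      _ ≤ ‖u - (al : ℂ) * z‖ + ‖(al : ℂ) * z‖ := norm_add_le _ _
      _ ≤ C * r ^ 2 + α * r := by rw [h2']; linarith
      _ = α * r + C * r ^ 2 := by ring
  have hA : g * ρ * x' ≤ α / 4 * x' := by
    by_cases h0 : x' = 0
    · rw [h0]; simp
    · have hrs := hxs h0
      have hq : ‖u + t‖ ≤ 1 / 4 := by
        have h1 : ‖t‖ ≤ 1 / 8 := by
          refine le_trans htle ?_
          rw [mul_one_div, div_le_iff₀ hr0]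
          nlinarith
        have h2' : ‖u‖ ≤ 1 / 8 := by
          refine le_trans hun (le_trans ?_ h3)
          have : r ^ 2 ≤ s ^ 2 := by nlinarith
          nlinarith
        exact le_trans (norm_add_le _ _) (by linarith)
      have hg2 := gf_half hq
      rw [← hg] at hg2
      have h5 : α / 4 ≤ g * ρ := by nlinarith
      nlinarith
  have hB : -(g * ρ * (G * x)) ≤ 3 / 2 * α * C := by
    have h1 : |g * ρ * (G * x)| ≤ 1 * (3 / 2 * α) * (C * 1) := by
      rw [abs_mul (g * ρ), abs_mul g ρ, abs_mul G x]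
      have e1 : |g| ≤ 1 := by rw [abs_of_nonneg hg0]; exact hg1
      have e2 : |ρ| ≤ 3 / 2 * α := by rw [abs_le]; constructor <;> linarith
      have e3 : |x| ≤ 1 := by rw [abs_of_nonneg hx0]; exact hx1
      have := abs_nonneg g
      have := abs_nonneg ρ
      have := abs_nonneg G
      have := abs_nonneg x
      exact mul_le_mul (mul_le_mul e1 e2 (abs_nonneg _) (by norm_num))
        (mul_le_mul hG e3 (abs_nonneg _) (by linarith)) (by positivity) (by positivity)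
    have := (abs_le.mp h1).1
    linarith
  have hK : (x' - G * x / 2) ^ 2 ≤ M ^ 2 := by
    rw [← sq_abs]
    exact pow_le_pow_left₀ (abs_nonneg _) hk 2
  have e1 : 16 * g * (σ * lam * (x' - G * x / 2) * a.re) =
      lam * (16 * (g * ρ * x') + 8 * -(g * ρ * (G * x))) := by rw [hρd]; ring
  have e2 : 8 * (σ * lam) ^ 2 * (x' - G * x / 2) ^ 2 = 8 * lam ^ 2 * (x' - G * x / 2) ^ 2 := by
    rw [mul_pow, hσ2, one_mul]
  have e3 : (2 * |F| + 4) * ‖t‖ ≤ (2 * C + 4) * (lam * (1 / r)) :=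
    mul_le_mul (by linarith) htle (norm_nonneg _) (by linarith)
  rw [e1, e2] at hone
  have e4 : lam * (16 * (g * ρ * x') + 8 * -(g * ρ * (G * x))) ≤
      lam * (16 * (α / 4 * x') + 8 * (3 / 2 * α * C)) :=
    mul_le_mul_of_nonneg_left (by linarith) hl.le
  have e5 : 8 * lam ^ 2 * (x' - G * x / 2) ^ 2 ≤ 8 * lam ^ 2 * M ^ 2 :=
    mul_le_mul_of_nonneg_left hK (by positivity)
  calc dd a u F (x' - G * x / 2) (σ * lam) t
      ≤ lam * (16 * (g * ρ * x') + 8 * -(g * ρ * (G * x))) + 8 * lam ^ 2 * (x' - G * x / 2) ^ 2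
        + (2 * |F| + 4) * ‖t‖ := hone
    _ ≤ lam * (16 * (α / 4 * x') + 8 * (3 / 2 * α * C)) + 8 * lam ^ 2 * M ^ 2
        + (2 * C + 4) * (lam * (1 / r)) := by linarith
    _ = 4 * α * lam * x' + 12 * α * C * lam + 8 * lam ^ 2 * M ^ 2 + (2 * C + 4) * lam * (1 / r) := by
        ring

theorem case1 (a u : ℂ → ℂ) (F G : ℂ → ℝ) (al s0 C : ℝ) (hal : al ≠ 0) (hs0 : 0 < s0)
    (hs1 : s0 ≤ 1) (hC : 1 ≤ C)
    (hu : ∀ z : ℂ, ‖z‖ ≤ s0 → ‖u z - (al : ℂ) * z‖ ≤ C * ‖z‖ ^ 2)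
    (ha : ∀ z : ℂ, ‖z‖ ≤ s0 → ‖a z - (al : ℂ)‖ ≤ C * ‖z‖)
    (hF : ∀ z : ℂ, ‖z‖ ≤ s0 → |F z| ≤ C) (hG : ∀ z : ℂ, ‖z‖ ≤ s0 → |G z| ≤ C) :
    ∃ s, 0 < s ∧ s ≤ s0 ∧ ∀ Xi : ℝ → ℝ, Cut Xi s →
      (∀ l, IntegrableOn (DD a u F G Xi l) (Metric.ball (0 : ℂ) s)) →
      ∃ l, l ≠ 0 ∧ ∫ z in Metric.ball (0 : ℂ) s, DD a u F G Xi l z < 0 := by
  obtain ⟨σ, hσ, hα⟩ : ∃ σ : ℝ, (σ = 1 ∨ σ = -1) ∧ 0 < σ * al := by
    rcases lt_or_gt_of_ne hal with h | h
    · exact ⟨-1, Or.inr rfl, by linarith⟩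
    · exact ⟨1, Or.inl rfl, by linarith⟩
  set α := σ * al with hαd
  have hpi := Real.pi_pos
  obtain ⟨s, hs, hss0, h2, h3, h4⟩ : ∃ s, 0 < s ∧ s ≤ s0 ∧ C * s ≤ α / 2 ∧
      α * s + C * s ^ 2 ≤ 1 / 8 ∧ 6 * α * C * s ^ 2 + (2 * C + 4) * s ≤ α := by
    have p1 : 0 < α / (2 * C) := by positivity
    have p2 : 0 < 1 / (8 * (α + C)) := by positivity
    have p3 : 0 < α / (6 * α * C + 2 * C + 4) := by positivity
    refine ⟨min s0 (min (α / (2 * C)) (min (1 / (8 * (α + C))) (α / (6 * α * C + 2 * C + 4)))),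
      lt_min hs0 (lt_min p1 (lt_min p2 p3)), min_le_left _ _, ?_, ?_, ?_⟩
    all_goals
      set s := min s0 (min (α / (2 * C)) (min (1 / (8 * (α + C))) (α / (6 * α * C + 2 * C + 4)))) with hsd
      have hs : 0 < s := lt_min hs0 (lt_min p1 (lt_min p2 p3))
      have q0 : s ≤ s0 := min_le_left _ _
      have q1 : s ≤ α / (2 * C) := le_trans (min_le_right _ _) (min_le_left _ _)
      have q2 : s ≤ 1 / (8 * (α + C)) :=
        le_trans (min_le_right _ _) (le_trans (min_le_right _ _) (min_le_left _ _))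
      have q3 : s ≤ α / (6 * α * C + 2 * C + 4) :=
        le_trans (min_le_right _ _) (le_trans (min_le_right _ _) (min_le_right _ _))
      have hsone : s ≤ 1 := le_trans q0 hs1
      have hss : s ^ 2 ≤ s := by nlinarith
    · rw [le_div_iff₀ (by positivity)] at q1; linarith
    · rw [le_div_iff₀ (by positivity)] at q2; nlinarith
    · rw [le_div_iff₀ (by positivity)] at q3
      have : 6 * α * C * s ^ 2 ≤ 6 * α * C * s := mul_le_mul_of_nonneg_left hss (by positivity)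
      linarith
  refine ⟨s, hs, hss0, fun Xi hXi hint => ?_⟩
  have hdc : Continuous (deriv Xi) := hXi.sm.continuous_deriv (by simp)
  obtain ⟨M1, hM1⟩ : ∃ M1, ∀ t ∈ Icc (0 : ℝ) (s ^ 2), |deriv Xi t| ≤ M1 := by
    obtain ⟨M1, hM1⟩ := (isCompact_Icc (a := (0 : ℝ)) (b := s ^ 2)).exists_bound_of_continuousOn
      hdc.continuousOn
    exact ⟨M1, fun t ht => by simpa [Real.norm_eq_abs] using hM1 t ht⟩
  set M := M1 + C with hM
  have hden : 0 < 4 * M ^ 2 * s ^ 2 + 1 := by positivity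
  obtain ⟨lam, hl, hls, hlM⟩ : ∃ lam, 0 < lam ∧ lam ≤ s / 16 ∧ lam ≤ α / (4 * M ^ 2 * s ^ 2 + 1) :=
    ⟨min (s / 16) (α / (4 * M ^ 2 * s ^ 2 + 1)), lt_min (by positivity) (by positivity),
      min_le_left _ _, min_le_right _ _⟩
  refine ⟨σ * lam, ?_, ?_⟩
  · rcases hσ with h | h <;> rw [h] <;> [simpa using hl.ne'; simpa using hl.ne']
  have hball : (volume (Metric.ball (0 : ℂ) s)).toReal = π * s ^ 2 := by
    rw [Complex.volume_ball]
    simp [ENNReal.toReal_mul, ENNReal.toReal_pow, ENNReal.toReal_ofReal hs.le]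
    ring
  have hfin : volume (Metric.ball (0 : ℂ) s) ≠ ⊤ := measure_ball_lt_top.ne
  have hi1 : IntegrableOn (fun z : ℂ => deriv Xi (‖z‖ ^ 2)) (Metric.ball (0 : ℂ) s) :=
    ((hdc.comp (continuous_norm.pow 2)).continuousOn.integrableOn_compact
      (isCompact_closedBall (0 : ℂ) s)).mono_set Metric.ball_subset_closedBall
  have hi2 : IntegrableOn (fun _ : ℂ => 12 * α * C * lam + 8 * lam ^ 2 * M ^ 2)
      (Metric.ball (0 : ℂ) s) := integrableOn_const hfin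
  have hi3 := inv_int s
  have hpt : ∀ᵐ z ∂(volume.restrict (Metric.ball (0 : ℂ) s)), DD a u F G Xi (σ * lam) z ≤
      4 * α * lam * deriv Xi (‖z‖ ^ 2) + (12 * α * C * lam + 8 * lam ^ 2 * M ^ 2)
        + (2 * C + 4) * lam * (1 / ‖z‖) := by
    have h0 : ∀ᵐ z ∂(volume.restrict (Metric.ball (0 : ℂ) s)), z ≠ 0 := by
      refine ae_restrict_of_ae ?_
      exact compl_mem_ae_iff.mpr (measure_singleton (0 : ℂ))
    filter_upwards [h0, ae_restrict_mem measurableSet_ball] with z hz hzb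
    have hzs : ‖z‖ < s := by simpa using hzb
    have hz0 : ‖z‖ ≤ s0 := le_trans hzs.le hss0
    have hx0 := cut_nonneg hs hXi (‖z‖ ^ 2)
    have hx1 := cut_le_one hs hXi (‖z‖ ^ 2)
    have hk : |deriv Xi (‖z‖ ^ 2) - G z * Xi (‖z‖ ^ 2) / 2| ≤ M := by
      have h1 := hM1 (‖z‖ ^ 2) ⟨sq_nonneg _, by nlinarith [norm_nonneg z]⟩
      have h2' : |G z * Xi (‖z‖ ^ 2) / 2| ≤ C := by
        rw [abs_div, abs_mul, abs_of_nonneg hx0, abs_two]
        have := hG z hz0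
        have := abs_nonneg (G z)
        rw [div_le_iff₀ (by norm_num)]
        nlinarith
      exact le_trans (abs_sub _ _) (by rw [hM]; linarith)
    have key := case1_pt (a z) (u z) z (F z) (G z) (Xi (‖z‖ ^ 2)) (deriv Xi (‖z‖ ^ 2)) al σ lam C M s
      hσ hα hC hl hs hz hzs h2 h3 hls (hu z hz0) (ha z hz0) (hF z hz0) (hG z hz0) hx0 hx1
      (cut_deriv_nonpos hXi _) (fun hne => by
        by_contra hlt
        push Not at hlt
        apply hne
        apply cut_deriv_zero hXi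
        left
        nlinarith [norm_nonneg z]) hk
    rw [DD]
    linarith
  have hI : ∫ z in Metric.ball (0 : ℂ) s, DD a u F G Xi (σ * lam) z ≤
      ∫ z in Metric.ball (0 : ℂ) s, (4 * α * lam * deriv Xi (‖z‖ ^ 2)
        + (12 * α * C * lam + 8 * lam ^ 2 * M ^ 2) + (2 * C + 4) * lam * (1 / ‖z‖)) :=
    integral_mono_ae (hint _) (((hi1.const_mul _).add hi2).add (hi3.const_mul _)) hpt
  have hval : ∫ z in Metric.ball (0 : ℂ) s, (4 * α * lam * deriv Xi (‖z‖ ^ 2)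
        + (12 * α * C * lam + 8 * lam ^ 2 * M ^ 2) + (2 * C + 4) * lam * (1 / ‖z‖)) =
      4 * α * lam * (-π) + (12 * α * C * lam + 8 * lam ^ 2 * M ^ 2) * (π * s ^ 2)
        + (2 * C + 4) * lam * ∫ z in Metric.ball (0 : ℂ) s, 1 / ‖z‖ := by
    have e1 : ∫ z in Metric.ball (0 : ℂ) s, (4 * α * lam * deriv Xi (‖z‖ ^ 2)
        + (12 * α * C * lam + 8 * lam ^ 2 * M ^ 2) + (2 * C + 4) * lam * (1 / ‖z‖)) =
        (∫ z in Metric.ball (0 : ℂ) s, (4 * α * lam * deriv Xi (‖z‖ ^ 2)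
        + (12 * α * C * lam + 8 * lam ^ 2 * M ^ 2))) +
        ∫ z in Metric.ball (0 : ℂ) s, (2 * C + 4) * lam * (1 / ‖z‖) :=
      integral_add ((hi1.const_mul _).add hi2) (hi3.const_mul _)
    have e2 : ∫ z in Metric.ball (0 : ℂ) s, (4 * α * lam * deriv Xi (‖z‖ ^ 2)
        + (12 * α * C * lam + 8 * lam ^ 2 * M ^ 2)) =
        (∫ z in Metric.ball (0 : ℂ) s, 4 * α * lam * deriv Xi (‖z‖ ^ 2)) +
        ∫ z in Metric.ball (0 : ℂ) s, (12 * α * C * lam + 8 * lam ^ 2 * M ^ 2) :=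
      integral_add (hi1.const_mul _) hi2
    rw [e1, e2, integral_const_mul, integral_const_mul, cut_integral hs hXi, setIntegral_const,
      Measure.real, hball, smul_eq_mul]
    ring
  have hb := inv_bd s hs.le
  have hfinal : 4 * α * lam * (-π) + (12 * α * C * lam + 8 * lam ^ 2 * M ^ 2) * (π * s ^ 2)
        + (2 * C + 4) * lam * ∫ z in Metric.ball (0 : ℂ) s, 1 / ‖z‖ < 0 := by
    have h5 : (2 * C + 4) * lam * ∫ z in Metric.ball (0 : ℂ) s, 1 / ‖z‖ ≤
        (2 * C + 4) * lam * (2 * π * s) := mul_le_mul_of_nonneg_left hb (by positivity)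
    have h6 : 4 * M ^ 2 * s ^ 2 * lam < α := by
      rw [le_div_iff₀ hden] at hlM
      nlinarith
    have h7 : 2 * π * lam * (-2 * α + (6 * α * C * s ^ 2 + (2 * C + 4) * s) + 4 * M ^ 2 * s ^ 2 * lam) < 0 := by
      have : -2 * α + (6 * α * C * s ^ 2 + (2 * C + 4) * s) + 4 * M ^ 2 * s ^ 2 * lam < 0 := by linarith
      exact mul_neg_of_pos_of_neg (by positivity) this
    nlinarith
  linarith

end GO3.I
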