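import Pool.Agent.GO3.I.Pw
import Pool.Agent.GO3.I.Ann
import Pool.Agent.GO3.I.CutEx

/-! # Ca2: the insertion gains energy if `al = 0` and `F(0) > 0`

PROOF. Choose `s ≤ s0` with `C s² ≤ 1/2`. Fix `Xi`; `|k| ≤ M` on the ball. For `l > 0`, `0 < ‖z‖ < s`, `r = ‖z‖`, `t = l Xi(r²)/star z`
(`‖t‖² ≤ l²/r²`), `dd_two` with `‖a‖ ≤ C r`, `‖u‖ ≤ C r² ≤ C r`, `F ≥ F0/2` gives
`DD l z + DD (-l) z ≤ C2 l² - 2 F0 kf t + 128 (kf t)²`, `C2 = 120 C² + 16 M² + 64 M C + 24 C³ + 88 C²`.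
Let `c0 = min (F0/128) 1`. If `kf t ≤ c0` then `-2 F0 kf t + 128 (kf t)² ≤ -F0 kf t`; if `kf t > c0` then
`c0 < ‖t‖² ≤ l²/r²`, i.e. `r² < l²/c0`, and `128 (kf t)² ≤ 128`. So
`DD l + DD (-l) ≤ C2 l² + 128 · 1_{r² < l²/c0} - F0 (l²/(2 r²)) 1_{l²/c0 ≤ r² ≤ s²/4}`
(on the last set `Xi = 1`, `‖t‖² = l²/r² ≤ c0 ≤ 1`, `kf t = ‖t‖²/(1+‖t‖²) ≥ ‖t‖²/2` and `kf t ≤ c0`). Integrate over the ball:
`∫ (DD l + DD (-l)) ≤ l² (C2 π s² + 128 π/c0 - (F0/2) ∫_{l/√c0 ≤ |z| ≤ s/2} |z|^{-2})`, negative for small `l` by `ann`.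
So one of the two integrals is negative. -/

open MeasureTheory Filter Topology Set
open scoped ContDiff Real

noncomputable section

namespace GO3.I

/-- the one variable estimate: `κ = T/(1+T)` -/
private theorem ca2_kappa_out (T F0 c0 : ℝ) (hT : 0 ≤ T) (hTc : T ≤ c0) (hc1 : c0 ≤ 1)
    (hc0 : 128 * c0 ≤ F0) (hF0 : 0 < F0) :
    -(2 * F0 * (T / (1 + T))) + 128 * (T / (1 + T)) ^ 2 ≤ -(F0 * T / 2) := by
  have h1 : 0 < 1 + T := by linarith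
  obtain ⟨k, hk⟩ : ∃ k, k = T / (1 + T) := ⟨_, rfl⟩
  rw [← hk]
  have hk0 : 0 ≤ k := by rw [hk]; positivity
  have hkT : k ≤ T := by
    rw [hk, div_le_iff₀ h1]; nlinarith
  have hkT2 : T / 2 ≤ k := by
    rw [hk, le_div_iff₀ h1]; nlinarith
  have h2 : 128 * k ≤ F0 := by linarith
  have h3 : 128 * k ^ 2 ≤ F0 * k := by nlinarith
  nlinarith

private theorem ca2_kappa_in (T F0 : ℝ) (hT : 0 ≤ T) (hF0 : 0 < F0) :
    -(2 * F0 * (T / (1 + T))) + 128 * (T / (1 + T)) ^ 2 ≤ 128 := by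
  have h1 : 0 < 1 + T := by linarith
  obtain ⟨k, hk⟩ : ∃ k, k = T / (1 + T) := ⟨_, rfl⟩
  rw [← hk]
  have hk0 : 0 ≤ k := by rw [hk]; positivity
  have hk1 : k ≤ 1 := by
    rw [hk, div_le_iff₀ h1]; linarith
  nlinarith [mul_nonneg hF0.le hk0]

/-- the pointwise estimate before using `kf` -/
private theorem ca2_pt (a u t : ℂ) (F k l C M F0 r : ℝ) (hl : 0 ≤ l) (hr : 0 ≤ r) (hr1 : r ≤ 1)
    (hC : 1 ≤ C) (hu2 : C * r ^ 2 ≤ 1 / 2) (hu : ‖u‖ ≤ C * r ^ 2) (ha : ‖a‖ ≤ C * r)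
    (hF : |F| ≤ C) (hk : |k| ≤ M) (ht : r * ‖t‖ ≤ l) (hFF : F0 / 2 ≤ F) :
    dd a u F k l t + dd a u F k (-l) (-t) ≤
      (120 * C ^ 2 + 16 * M ^ 2 + 64 * M * C + 24 * C ^ 3 + 88 * C ^ 2) * l ^ 2
        + (-(2 * F0 * kf t) + 128 * kf t ^ 2) := by
  have h := dd_two a u t F k l (hu.trans hu2)
  have hC0 : 0 ≤ C := by linarith
  have hM0 : 0 ≤ M := (abs_nonneg k).trans hk
  have h1 : ‖a‖ * ‖t‖ ≤ C * l := by
    calc ‖a‖ * ‖t‖ ≤ (C * r) * ‖t‖ := mul_le_mul_of_nonneg_right ha (norm_nonneg _)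
      _ = C * (r * ‖t‖) := by ring
      _ ≤ C * l := mul_le_mul_of_nonneg_left ht hC0
  have h2 : ‖u‖ * ‖t‖ ≤ C * l := by
    calc ‖u‖ * ‖t‖ ≤ (C * r ^ 2) * ‖t‖ := mul_le_mul_of_nonneg_right hu (norm_nonneg _)
      _ = (C * r) * (r * ‖t‖) := by ring
      _ ≤ (C * r) * l := mul_le_mul_of_nonneg_left ht (by positivity)
      _ ≤ (C * 1) * l := by gcongr
      _ = C * l := by ring
  have h1n : 0 ≤ ‖a‖ * ‖t‖ := by positivity
  have h2n : 0 ≤ ‖u‖ * ‖t‖ := by positivity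
  have e1 : ‖a‖ ^ 2 * ‖t‖ ^ 2 ≤ C ^ 2 * l ^ 2 := by
    calc ‖a‖ ^ 2 * ‖t‖ ^ 2 = (‖a‖ * ‖t‖) ^ 2 := by ring
      _ ≤ (C * l) ^ 2 := by gcongr
      _ = C ^ 2 * l ^ 2 := by ring
  have e2 : ‖u‖ ^ 2 * ‖t‖ ^ 2 ≤ C ^ 2 * l ^ 2 := by
    calc ‖u‖ ^ 2 * ‖t‖ ^ 2 = (‖u‖ * ‖t‖) ^ 2 := by ring
      _ ≤ (C * l) ^ 2 := by gcongr
      _ = C ^ 2 * l ^ 2 := by ring
  have e3 : l ^ 2 * k ^ 2 ≤ l ^ 2 * M ^ 2 := by
    have : k ^ 2 ≤ M ^ 2 := by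
      rw [← sq_abs k]; gcongr
    gcongr
  have e4 : |l| * |k| * ‖a‖ * ‖t‖ ≤ M * C * l ^ 2 := by
    rw [abs_of_nonneg hl]
    calc l * |k| * ‖a‖ * ‖t‖ = l * |k| * (‖a‖ * ‖t‖) := by ring
      _ ≤ l * M * (C * l) := by gcongr
      _ = M * C * l ^ 2 := by ring
  have e5 : |F| * ‖u‖ ^ 2 * ‖t‖ ^ 2 ≤ C ^ 3 * l ^ 2 := by
    calc |F| * ‖u‖ ^ 2 * ‖t‖ ^ 2 = |F| * (‖u‖ ^ 2 * ‖t‖ ^ 2) := by ring
      _ ≤ C * (C ^ 2 * l ^ 2) := by gcongr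
      _ = C ^ 3 * l ^ 2 := by ring
  have hk0 : 0 ≤ kf t := by unfold kf; positivity
  have e6 : F0 / 2 * kf t ≤ F * kf t := mul_le_mul_of_nonneg_right hFF hk0
  nlinarith

theorem case2 (a u : ℂ → ℂ) (F G : ℂ → ℝ) (s0 C F0 : ℝ) (hF0 : 0 < F0) (hs0 : 0 < s0)
    (hs1 : s0 ≤ 1) (hC : 1 ≤ C)
    (hu : ∀ z : ℂ, ‖z‖ ≤ s0 → ‖u z‖ ≤ C * ‖z‖ ^ 2)
    (ha : ∀ z : ℂ, ‖z‖ ≤ s0 → ‖a z‖ ≤ C * ‖z‖)
    (hF : ∀ z : ℂ, ‖z‖ ≤ s0 → |F z| ≤ C) (hG : ∀ z : ℂ, ‖z‖ ≤ s0 → |G z| ≤ C)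
    (hFF : ∀ z : ℂ, ‖z‖ ≤ s0 → F0 / 2 ≤ F z) :
    ∃ s, 0 < s ∧ s ≤ s0 ∧ ∀ Xi : ℝ → ℝ, Cut Xi s →
      (∀ l, IntegrableOn (DD a u F G Xi l) (Metric.ball (0 : ℂ) s)) →
      ∃ l, l ≠ 0 ∧ ∫ z in Metric.ball (0 : ℂ) s, DD a u F G Xi l z < 0 := by
  have hC0 : 0 < C := by linarith
  obtain ⟨s, hsdef⟩ : ∃ s, s = s0 / (2 * C) := ⟨_, rfl⟩
  have hs : 0 < s := by rw [hsdef]; positivity
  have hCs1 : C * s = s0 / 2 := by rw [hsdef]; field_simp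
  have hss : s ≤ s0 := by nlinarith
  have hs1' : s ≤ 1 := hss.trans hs1
  have hCs : C * s ^ 2 ≤ 1 / 2 := by
    have : C * s ^ 2 = (C * s) * s := by ring
    rw [this, hCs1]; nlinarith
  refine ⟨s, hs, hss, fun Xi hX hint => ?_⟩
  -- the bound of `k`
  obtain ⟨M1, hM1⟩ : ∃ M1, ∀ t ∈ Icc (0 : ℝ) (s ^ 2), ‖deriv Xi t‖ ≤ M1 :=
    isCompact_Icc.exists_bound_of_continuousOn
      (hX.sm.continuous_deriv (by simp)).continuousOn
  obtain ⟨M, hMdef⟩ : ∃ M, M = M1 + C / 2 := ⟨_, rfl⟩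
  have hk : ∀ z : ℂ, ‖z‖ < s → |deriv Xi (‖z‖ ^ 2) - G z * Xi (‖z‖ ^ 2) / 2| ≤ M := by
    intro z hz
    have h1 : ‖deriv Xi (‖z‖ ^ 2)‖ ≤ M1 := hM1 _ ⟨by positivity, by gcongr⟩
    rw [Real.norm_eq_abs] at h1
    have h2 : |G z * Xi (‖z‖ ^ 2) / 2| ≤ C / 2 := by
      rw [abs_div, abs_mul, abs_of_nonneg (cut_nonneg hs hX _), abs_of_pos (two_pos : (0 : ℝ) < 2)]
      have h3 := hG z (hz.le.trans hss)
      have h4 := cut_le_one hs hX (‖z‖ ^ 2)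
      have h5 := cut_nonneg hs hX (‖z‖ ^ 2)
      have : |G z| * Xi (‖z‖ ^ 2) ≤ C * 1 := by gcongr
      linarith
    calc _ ≤ |deriv Xi (‖z‖ ^ 2)| + |G z * Xi (‖z‖ ^ 2) / 2| := abs_sub _ _
      _ ≤ M1 + C / 2 := add_le_add h1 h2
      _ = M := hMdef.symm
  obtain ⟨C2, hC2⟩ : ∃ C2, C2 = 120 * C ^ 2 + 16 * M ^ 2 + 64 * M * C + 24 * C ^ 3 + 88 * C ^ 2 :=
    ⟨_, rfl⟩
  obtain ⟨c0, hc0def⟩ : ∃ c0, c0 = min (F0 / 128) 1 := ⟨_, rfl⟩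
  have hc0 : 0 < c0 := by rw [hc0def]; positivity
  have hc1 : c0 ≤ 1 := by rw [hc0def]; exact min_le_right _ _
  have hcF : 128 * c0 ≤ F0 := by
    have : c0 ≤ F0 / 128 := by rw [hc0def]; exact min_le_left _ _
    linarith
  -- choice of the parameter
  obtain ⟨δ, hδ, hδs, hδi⟩ := ann (s / 2) (by positivity)
    ((C2 * (π * s ^ 2) + 128 * π / c0 + 1) * 2 / F0)
  have hann := hδi δ hδ le_rfl
  obtain ⟨l, hldef⟩ : ∃ l, l = Real.sqrt c0 * δ := ⟨_, rfl⟩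
  have hl : 0 < l := by rw [hldef]; positivity
  have hl2 : l ^ 2 = c0 * δ ^ 2 := by
    rw [hldef, mul_pow, Real.sq_sqrt hc0.le]
  -- pointwise bound
  obtain ⟨An, hAn⟩ : ∃ An : Set ℂ, An = {z : ℂ | δ ≤ ‖z‖ ∧ ‖z‖ ≤ s / 2} := ⟨_, rfl⟩
  rw [← hAn] at hann
  have hpt : ∀ z ∈ Metric.ball (0 : ℂ) s, DD a u F G Xi l z + DD a u F G Xi (-l) z ≤
      C2 * l ^ 2 + (Metric.ball (0 : ℂ) δ).indicator (fun _ => (128 : ℝ)) z
        - An.indicator (fun z : ℂ => F0 * l ^ 2 / 2 * (1 / ‖z‖ ^ 2)) z := by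
    intro z hz
    rw [mem_ball_zero_iff] at hz
    obtain ⟨r, hr⟩ : ∃ r, r = ‖z‖ := ⟨_, rfl⟩
    have hr0 : 0 ≤ r := by rw [hr]; positivity
    obtain ⟨x, hx⟩ : ∃ x, x = Xi (‖z‖ ^ 2) := ⟨_, rfl⟩
    have hx0 : 0 ≤ x := by rw [hx]; exact cut_nonneg hs hX _
    have hx1 : x ≤ 1 := by rw [hx]; exact cut_le_one hs hX _
    obtain ⟨t, ht⟩ : ∃ t : ℂ, t = ((l * x : ℝ) : ℂ) / star z := ⟨_, rfl⟩
    have htn : ‖t‖ = l * x / r := by
      rw [ht, norm_div, norm_star, ← hr, Complex.norm_real, Real.norm_eq_abs,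
        abs_of_nonneg (by positivity)]
    have htr : r * ‖t‖ ≤ l := by
      rw [htn]
      rcases hr0.eq_or_lt with h0 | h0
      · rw [← h0]; simp; exact hl.le
      · rw [mul_div_cancel₀ _ h0.ne']; nlinarith
    have hDD : DD a u F G Xi l z + DD a u F G Xi (-l) z =
        dd (a z) (u z) (F z) (deriv Xi (‖z‖ ^ 2) - G z * Xi (‖z‖ ^ 2) / 2) l t +
        dd (a z) (u z) (F z) (deriv Xi (‖z‖ ^ 2) - G z * Xi (‖z‖ ^ 2) / 2) (-l) (-t) := by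
      unfold DD
      rw [ht, hx]
      congr 2
      push_cast
      ring
    have h1 := ca2_pt (a z) (u z) t (F z) (deriv Xi (‖z‖ ^ 2) - G z * Xi (‖z‖ ^ 2) / 2) l C M F0 r
      hl.le hr0 (by rw [hr]; linarith) hC
      (by
        have : r ^ 2 ≤ s ^ 2 := by rw [hr]; gcongr
        nlinarith)
      (by rw [hr]; exact hu z (hz.le.trans hss)) (by rw [hr]; exact ha z (hz.le.trans hss))
      (hF z (hz.le.trans hss)) (hk z hz) htr (hFF z (hz.le.trans hss))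
    rw [hDD]
    rw [← hC2] at h1
    refine h1.trans ?_
    have hkf : kf t = ‖t‖ ^ 2 / (1 + ‖t‖ ^ 2) := rfl
    rw [hkf]
    have hT0 : 0 ≤ ‖t‖ ^ 2 := by positivity
    by_cases hzδ : ‖z‖ < δ
    · have hi1 : (Metric.ball (0 : ℂ) δ).indicator (fun _ => (128 : ℝ)) z = 128 :=
        indicator_of_mem (by rw [mem_ball_zero_iff]; exact hzδ) _
      have hi2 : An.indicator (fun z : ℂ => F0 * l ^ 2 / 2 * (1 / ‖z‖ ^ 2)) z = 0 :=
        indicator_of_notMem (by rw [hAn]; intro h; exact absurd h.1 (not_le.2 hzδ)) _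
      rw [hi1, hi2]
      have := ca2_kappa_in (‖t‖ ^ 2) F0 hT0 hF0
      linarith
    · have hzδ' : δ ≤ r := by rw [hr]; exact not_lt.1 hzδ
      have hrp : 0 < r := hδ.trans_le hzδ'
      have hi1 : (Metric.ball (0 : ℂ) δ).indicator (fun _ => (128 : ℝ)) z = 0 :=
        indicator_of_notMem (by rw [mem_ball_zero_iff]; exact hzδ) _
      have hTc : ‖t‖ ^ 2 ≤ c0 := by
        have h3 : (r * ‖t‖) ^ 2 ≤ l ^ 2 := by gcongr
        have h4 : δ ^ 2 ≤ r ^ 2 := by gcongr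
        have h5 : r ^ 2 * ‖t‖ ^ 2 ≤ c0 * r ^ 2 := by nlinarith
        have h6 : 0 < r ^ 2 := by positivity
        nlinarith
      have h7 := ca2_kappa_out (‖t‖ ^ 2) F0 c0 hT0 hTc hc1 hcF hF0
      rw [hi1]
      by_cases hzs : ‖z‖ ≤ s / 2
      · have hi2 : An.indicator (fun z : ℂ => F0 * l ^ 2 / 2 * (1 / ‖z‖ ^ 2)) z =
            F0 * l ^ 2 / 2 * (1 / ‖z‖ ^ 2) :=
          indicator_of_mem (by rw [hAn]; exact ⟨not_lt.1 hzδ, hzs⟩) _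
        rw [hi2, ← hr]
        have hx1' : x = 1 := by
          rw [hx]; apply hX.one
          have : ‖z‖ ^ 2 ≤ (s / 2) ^ 2 := by gcongr
          linarith
        have h8 : ‖t‖ ^ 2 = l ^ 2 * (1 / r ^ 2) := by
          rw [htn, hx1']; field_simp
        have h9 : F0 * ‖t‖ ^ 2 / 2 = F0 * l ^ 2 / 2 * (1 / r ^ 2) := by rw [h8]; ring
        linarith
      · have hi2 : An.indicator (fun z : ℂ => F0 * l ^ 2 / 2 * (1 / ‖z‖ ^ 2)) z = 0 :=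
          indicator_of_notMem (by rw [hAn]; intro h; exact absurd h.2 hzs) _
        rw [hi2]
        have : 0 ≤ F0 * ‖t‖ ^ 2 / 2 := by positivity
        linarith
  -- integrability
  have hAc : IsCompact An := by
    have : An = Metric.closedBall (0 : ℂ) (s / 2) ∩ {z : ℂ | δ ≤ ‖z‖} := by
      rw [hAn]; ext z; simp [and_comm]
    rw [this]
    exact (isCompact_closedBall _ _).inter_right (isClosed_le continuous_const continuous_norm)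
  have hAm : MeasurableSet An := hAc.isClosed.measurableSet
  have hAs : An ⊆ Metric.ball (0 : ℂ) s := by
    intro z hz
    rw [hAn] at hz
    rw [mem_ball_zero_iff]
    have := hz.2
    linarith
  have hAi : IntegrableOn (fun z : ℂ => F0 * l ^ 2 / 2 * (1 / ‖z‖ ^ 2)) An := by
    apply ContinuousOn.integrableOn_compact hAc
    apply ContinuousOn.mul continuousOn_const
    apply ContinuousOn.div continuousOn_const (continuous_norm.pow 2).continuousOn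
    intro z hz
    rw [hAn] at hz
    have : 0 < ‖z‖ := hδ.trans_le hz.1
    exact (pow_pos this 2).ne'
  have hi1 : IntegrableOn (fun _ : ℂ => C2 * l ^ 2) (Metric.ball (0 : ℂ) s) := by
    apply integrableOn_const
    · exact measure_ball_lt_top.ne
    · exact enorm_ne_top
  have hi2 : IntegrableOn ((Metric.ball (0 : ℂ) δ).indicator (fun _ => (128 : ℝ)))
      (Metric.ball (0 : ℂ) s) := by
    apply Integrable.integrableOn
    rw [integrable_indicator_iff measurableSet_ball]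
    apply integrableOn_const
    · exact measure_ball_lt_top.ne
    · exact enorm_ne_top
  have hi3 : IntegrableOn (An.indicator (fun z : ℂ => F0 * l ^ 2 / 2 * (1 / ‖z‖ ^ 2)))
      (Metric.ball (0 : ℂ) s) := by
    apply Integrable.integrableOn
    rw [integrable_indicator_iff hAm]
    exact hAi
  have hmain : ∫ z in Metric.ball (0 : ℂ) s, (DD a u F G Xi l z + DD a u F G Xi (-l) z) ≤
      ∫ z in Metric.ball (0 : ℂ) s, (C2 * l ^ 2 +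
        (Metric.ball (0 : ℂ) δ).indicator (fun _ => (128 : ℝ)) z
        - An.indicator (fun z : ℂ => F0 * l ^ 2 / 2 * (1 / ‖z‖ ^ 2)) z) :=
    setIntegral_mono_on ((hint l).add (hint (-l))) ((hi1.add hi2).sub hi3) measurableSet_ball hpt
  rw [integral_add (hint l) (hint (-l))] at hmain
  have hvol : ∀ ρ : ℝ, 0 ≤ ρ → (volume : Measure ℂ).real (Metric.ball (0 : ℂ) ρ) = π * ρ ^ 2 := by
    intro ρ hρ
    rw [Measure.real, Complex.volume_ball]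
    simp [ENNReal.toReal_mul, ENNReal.toReal_pow, ENNReal.toReal_ofReal hρ, mul_comm]
  have hR : ∫ z in Metric.ball (0 : ℂ) s, (C2 * l ^ 2 +
        (Metric.ball (0 : ℂ) δ).indicator (fun _ => (128 : ℝ)) z
        - An.indicator (fun z : ℂ => F0 * l ^ 2 / 2 * (1 / ‖z‖ ^ 2)) z) =
      (C2 * l ^ 2) * (π * s ^ 2) + 128 * (π * δ ^ 2) -
        F0 * l ^ 2 / 2 * ∫ z in An, 1 / ‖z‖ ^ 2 := by
    have e1 : ∫ z in Metric.ball (0 : ℂ) s, (C2 * l ^ 2 +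
        (Metric.ball (0 : ℂ) δ).indicator (fun _ => (128 : ℝ)) z
        - An.indicator (fun z : ℂ => F0 * l ^ 2 / 2 * (1 / ‖z‖ ^ 2)) z) =
        (∫ z in Metric.ball (0 : ℂ) s, (C2 * l ^ 2 +
        (Metric.ball (0 : ℂ) δ).indicator (fun _ => (128 : ℝ)) z)) -
        ∫ z in Metric.ball (0 : ℂ) s,
          An.indicator (fun z : ℂ => F0 * l ^ 2 / 2 * (1 / ‖z‖ ^ 2)) z :=
      integral_sub (hi1.add hi2) hi3
    rw [e1, integral_add hi1 hi2, setIntegral_const, setIntegral_indicator measurableSet_ball,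
      setIntegral_indicator hAm, setIntegral_const, integral_const_mul]
    have e2 : Metric.ball (0 : ℂ) s ∩ Metric.ball (0 : ℂ) δ = Metric.ball (0 : ℂ) δ := by
      apply inter_eq_self_of_subset_right
      exact Metric.ball_subset_ball (by linarith)
    have e3 : Metric.ball (0 : ℂ) s ∩ An = An := inter_eq_self_of_subset_right hAs
    rw [e2, e3, hvol s hs.le, hvol δ hδ.le, smul_eq_mul, smul_eq_mul]
    ring
  rw [hR] at hmain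
  have hneg : (C2 * l ^ 2) * (π * s ^ 2) + 128 * (π * δ ^ 2) -
        F0 * l ^ 2 / 2 * ∫ z in An, 1 / ‖z‖ ^ 2 < 0 := by
    have hδ2 : δ ^ 2 = l ^ 2 / c0 := by
      rw [hl2]; field_simp
    have hlp : 0 < l ^ 2 := by positivity
    have h1 : F0 * l ^ 2 / 2 * ((C2 * (π * s ^ 2) + 128 * π / c0 + 1) * 2 / F0) ≤
        F0 * l ^ 2 / 2 * ∫ z in An, 1 / ‖z‖ ^ 2 :=
      mul_le_mul_of_nonneg_left hann (by positivity)
    have h2 : F0 * l ^ 2 / 2 * ((C2 * (π * s ^ 2) + 128 * π / c0 + 1) * 2 / F0) =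
        (C2 * l ^ 2) * (π * s ^ 2) + 128 * (π * δ ^ 2) + l ^ 2 := by
      rw [hδ2]; field_simp
    linarith
  by_contra hcon
  push Not at hcon
  have h1 := hcon l hl.ne'
  have h2 := hcon (-l) (neg_ne_zero.2 hl.ne')
  linarith

end GO3.I
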