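import Pool.Agent.GO3.Defs

/-! # Part I (insertion of an anti-lump): definitions

`u = w / (1 + h)` is the stereographic coordinate, `w = 2 u / (1 + |u|²)`,
`h = (1 - |u|²) / (1 + |u|²)`. -/

open MeasureTheory Filter Topology Set
open scoped ContDiff Real

noncomputable section

namespace GO3.I

/-- `k u = |u|² / (1 + |u|²)`, so `1 - h = 2 k` -/
def kf (u : ℂ) : ℝ := ‖u‖ ^ 2 / (1 + ‖u‖ ^ 2)

/-- `g u = 1 / (1 + |u|²)²` -/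
def gf (u : ℂ) : ℝ := 1 / (1 + ‖u‖ ^ 2) ^ 2

/-- inverse stereographic projection, horizontal part -/
def sw (u : ℂ) : ℂ := 2 * u / ((1 + ‖u‖ ^ 2 : ℝ) : ℂ)

/-- inverse stereographic projection, vertical part -/
def sh (u : ℂ) : ℝ := (1 - ‖u‖ ^ 2) / (1 + ‖u‖ ^ 2)

/-- covariant derivative `D_v u` at `z` -/
def Du (A u : ℂ → ℂ) (z v : ℂ) : ℂ :=
  fderiv ℝ u z v - Complex.I * (ip (A z) v : ℂ) * u z

/-- `D_z u = (D_1 u - i D_2 u) / 2` at `z` -/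
def Dz (A u : ℂ → ℂ) (z : ℂ) : ℂ := (Du A u z 1 - Complex.I * Du A u z Complex.I) / 2

/-- the one-form `η_v = 2 Im (conj u D_v u) / (1 + |u|²)` at `z` -/
def eta (A u : ℂ → ℂ) (z v : ℂ) : ℝ := 2 * (star (u z) * Du A u z v).im / (1 + ‖u z‖ ^ 2)

/-- `∂₁ f₂ - ∂₂ f₁` for a one-form `f` (`f y v`: point `y`, direction `v`) -/
def curl (f : ℂ → ℂ → ℝ) (z : ℂ) : ℝ :=
  fderiv ℝ (fun y => f y Complex.I) z 1 - fderiv ℝ (fun y => f y 1) z Complex.I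

/-- the stereographic coordinate of a configuration -/
def u0 (c : Cf) (z : ℂ) : ℂ := c.w z / ((1 + c.h z : ℝ) : ℂ)

/-- a cut-off: smooth, nonincreasing, `1` on `(-∞, s²/4]`, `0` on `[s²/2, ∞)` -/
structure Cut (Xi : ℝ → ℝ) (s : ℝ) : Prop where
  sm : ContDiff ℝ ∞ Xi
  anti : Antitone Xi
  one : ∀ t, t ≤ s ^ 2 / 4 → Xi t = 1
  zero : ∀ t, s ^ 2 / 2 ≤ t → Xi t = 0

/-- `h > 0` on the closed disc of radius `s` -/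
structure Near (c : Cf) (s : ℝ) : Prop where
  pos : 0 < s
  hpos : ∀ z : ℂ, ‖z‖ ≤ s → 0 < c.h z

/-- `q = conj z u₀ + l ξ`, `ξ z = Xi (|z|²)` -/
def qq (c : Cf) (Xi : ℝ → ℝ) (l : ℝ) (z : ℂ) : ℂ :=
  star z * u0 c z + ((l * Xi (‖z‖ ^ 2) : ℝ) : ℂ)

/-- the new stereographic coordinate `u = u₀ + l ξ / conj z` -/
def uu (c : Cf) (Xi : ℝ → ℝ) (l : ℝ) (z : ℂ) : ℂ :=
  u0 c z + ((l * Xi (‖z‖ ^ 2) : ℝ) : ℂ) / star z

/-- the configuration with an inserted anti-lump of size `l` -/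
def ins (c : Cf) (Xi : ℝ → ℝ) (s l : ℝ) : Cf where
  w := fun z => if ‖z‖ < s then
    2 * qq c Xi l z * z / ((‖z‖ ^ 2 + ‖qq c Xi l z‖ ^ 2 : ℝ) : ℂ) else c.w z
  h := fun z => if ‖z‖ < s then
    (‖z‖ ^ 2 - ‖qq c Xi l z‖ ^ 2) / (‖z‖ ^ 2 + ‖qq c Xi l z‖ ^ 2) else c.h z
  A := c.A

/-- the pointwise energy difference: `a = D_z u₀`, `k = ξ' - G ξ / 2`, `t = l ξ / conj z` -/
def dd (a u : ℂ) (F k l : ℝ) (t : ℂ) : ℝ :=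
  8 * ‖a + ((l * k : ℝ) : ℂ)‖ ^ 2 * gf (u + t) - 8 * ‖a‖ ^ 2 * gf u
    - 2 * F * (kf (u + t) - kf u) + 2 * (kf (u + t) ^ 2 - kf u ^ 2)

/-- the integrand of the energy difference -/
def DD (a u : ℂ → ℂ) (F G : ℂ → ℝ) (Xi : ℝ → ℝ) (l : ℝ) (z : ℂ) : ℝ :=
  dd (a z) (u z) (F z) (deriv Xi (‖z‖ ^ 2) - G z * Xi (‖z‖ ^ 2) / 2) l
    (((l * Xi (‖z‖ ^ 2) : ℝ) : ℂ) / star z)

end GO3.I
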