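import Pool.Agent.GO3.I.Ster

/-! # Dzu: `D_z u = D_z u₀ + l (ξ' - G ξ / 2)` -/

open MeasureTheory Filter Topology Set
open scoped ContDiff Real

noncomputable section

namespace GO3.I

variable {n : ℕ} {c : Cf} {Xi : ℝ → ℝ} {s l : ℝ}

theorem ff_diff (hX : Cut Xi s) (z : ℂ) (h0 : z ≠ 0) :
    DifferentiableAt ℝ (fun y : ℂ => ((l * Xi (‖y‖ ^ 2) : ℝ) : ℂ) / star y) z := by
  have h1 : DifferentiableAt ℝ (fun y : ℂ => ‖y‖ ^ 2) z := differentiableAt_id.norm_sq ℝ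
  have h2 : DifferentiableAt ℝ (fun y : ℂ => Xi (‖y‖ ^ 2)) z :=
    ((hX.sm.differentiable (by simp)).differentiableAt).comp z h1
  have h3 : DifferentiableAt ℝ (fun y : ℂ => ((l * Xi (‖y‖ ^ 2) : ℝ) : ℂ)) z :=
    (Complex.ofRealCLM.differentiableAt).comp z (h2.const_mul l)
  have h4 : DifferentiableAt ℝ (fun y : ℂ => star y) z := Complex.conjCLE.differentiableAt
  have h5 : star z ≠ 0 := by simpa using h0
  simp only [div_eq_mul_inv]
  refine h3.mul ?_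
  exact (((hasDerivAt_inv h5).differentiableAt).restrictScalars ℝ).comp z h4

theorem ff_fderiv (hX : Cut Xi s) (z : ℂ) (h0 : z ≠ 0) (v : ℂ) :
    fderiv ℝ (fun y : ℂ => ((l * Xi (‖y‖ ^ 2) : ℝ) : ℂ) / star y) z v * star z =
      ((l * (deriv Xi (‖z‖ ^ 2) * (2 * (star z * v).re)) : ℝ) : ℂ)
        - ((l * Xi (‖z‖ ^ 2) : ℝ) : ℂ) / star z * star v := by
  have hd := (ff_diff (l := l) hX z h0).hasFDerivAt
  have hst : HasFDerivAt (fun y : ℂ => star y) (Complex.conjCLE : ℂ →L[ℝ] ℂ) z :=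
    Complex.conjCLE.hasFDerivAt
  have hmul := hd.mul hst
  have hn : HasFDerivAt (fun y : ℂ => ‖y‖ ^ 2) (2 • (innerSL ℝ z)) z :=
    (hasStrictFDerivAt_norm_sq z).hasFDerivAt
  have hXd : HasDerivAt Xi (deriv Xi (‖z‖ ^ 2)) (‖z‖ ^ 2) :=
    ((hX.sm.differentiable (by simp)).differentiableAt).hasDerivAt
  have h1 := (hXd.comp_hasFDerivAt z hn).const_mul l
  have h2 := (Complex.ofRealCLM.hasFDerivAt).comp z h1
  have hev : (fun y : ℂ => ((l * Xi (‖y‖ ^ 2) : ℝ) : ℂ) / star y * star y) =ᶠ[𝓝 z]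
      fun y : ℂ => ((l * Xi (‖y‖ ^ 2) : ℝ) : ℂ) := by
    filter_upwards [isOpen_ne.mem_nhds h0] with y hy
    have hy' : star y ≠ 0 := by simpa using hy
    field_simp
  have h3 := (h2.congr_of_eventuallyEq hev)
  have h4 := hmul.unique h3
  have h5 := congrArg (fun L : ℂ →L[ℝ] ℂ => L v) h4
  simp only [_root_.add_apply, _root_.smul_apply,
    ContinuousLinearMap.comp_apply, smul_eq_mul] at h5
  have h6 : (Complex.conjCLE : ℂ →L[ℝ] ℂ) v = star v := rfl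
  rw [h6] at h5
  have h7 : 2 • ((innerSL ℝ) z) v = 2 * (star z * v).re := by
    simp [innerSL_apply_apply, Complex.inner, mul_comm]
    ring
  rw [h7] at h5
  have h8 : ∀ x : ℝ, Complex.ofRealCLM x = (x : ℂ) := fun x => rfl
  rw [h8] at h5
  linear_combination h5

theorem Dz_ff (hX : Cut Xi s) (G : ℂ → ℝ)
    (hA : ∀ z, c.A z = Complex.I * z * (G z : ℂ)) (z : ℂ) (h0 : z ≠ 0) :
    Dz c.A (fun y : ℂ => ((l * Xi (‖y‖ ^ 2) : ℝ) : ℂ) / star y) z =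
      ((l * (deriv Xi (‖z‖ ^ 2) - G z * Xi (‖z‖ ^ 2) / 2) : ℝ) : ℂ) := by
  have e1 := ff_fderiv (l := l) hX z h0 1
  have e2 := ff_fderiv (l := l) hX z h0 Complex.I
  have h5 : star z ≠ 0 := by simpa using h0
  have h1 : (((ip (c.A z) 1 : ℝ) : ℂ) - Complex.I * ((ip (c.A z) Complex.I : ℝ) : ℂ)) =
      -Complex.I * star z * (G z : ℂ) := by
    rw [hA]
    apply Complex.ext <;> simp [ip]
  have h2 : ((2 * (star z * 1).re : ℝ) : ℂ) - Complex.I * ((2 * (star z * Complex.I).re : ℝ) : ℂ)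
      = 2 * star z := by
    apply Complex.ext <;> simp
  have h3 : (star (1 : ℂ)) - Complex.I * star Complex.I = 0 := by
    apply Complex.ext <;> simp
  simp only [Dz, Du]
  apply mul_right_cancel₀ h5
  have hI : Complex.I * Complex.I = -1 := Complex.I_mul_I
  set P := ((fderiv ℝ (fun y : ℂ => ((l * Xi (‖y‖ ^ 2) : ℝ) : ℂ) / star y) z) 1) with hP
  set Q := ((fderiv ℝ (fun y : ℂ => ((l * Xi (‖y‖ ^ 2) : ℝ) : ℂ) / star y) z) Complex.I) with hQ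
  have h4 : ((l * Xi (‖z‖ ^ 2) : ℝ) : ℂ) / star z * star z = ((l * Xi (‖z‖ ^ 2) : ℝ) : ℂ) := by
    field_simp
  clear_value P Q
  generalize Xi (‖z‖ ^ 2) = x at *
  generalize deriv Xi (‖z‖ ^ 2) = x' at *
  generalize star z = zb at *
  push_cast at *
  linear_combination (1 / 2 : ℂ) * e1 - (1 / 2 : ℂ) * Complex.I * e2
    + ((l : ℂ) * (x' : ℂ) / 2) * h2
    - ((l : ℂ) * (x : ℂ) / zb / 2) * h3
    - (Complex.I / 2 * ((l : ℂ) * (x : ℂ) / zb) * zb) * h1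
    + (zb * (G z : ℂ) / 2 * Complex.I ^ 2) * h4
    - (zb * (G z : ℂ) / 2 * (l : ℂ) * (x : ℂ)) * (-hI)

theorem Dz_uu (hc : c.Adm n) (hs : Near c s) (hX : Cut Xi s) (G : ℂ → ℝ)
    (hA : ∀ z, c.A z = Complex.I * z * (G z : ℂ)) (z : ℂ) (hz : ‖z‖ < s) (h0 : z ≠ 0) :
    Dz c.A (uu c Xi l) z = Dz c.A (u0 c) z +
      ((l * (deriv Xi (‖z‖ ^ 2) - G z * Xi (‖z‖ ^ 2) / 2) : ℝ) : ℂ) := by
  rw [← Dz_ff (l := l) hX G hA z h0]
  have hu : DifferentiableAt ℝ (u0 c) z := (u0_smooth hc hs z hz.le).differentiableAt (by simp)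
  have hf := ff_diff (l := l) hX z h0
  have h1 : ∀ v, fderiv ℝ (uu c Xi l) z v = fderiv ℝ (u0 c) z v +
      fderiv ℝ (fun y : ℂ => ((l * Xi (‖y‖ ^ 2) : ℝ) : ℂ) / star y) z v := by
    intro v
    have : uu c Xi l = fun y => u0 c y + ((l * Xi (‖y‖ ^ 2) : ℝ) : ℂ) / star y := rfl
    rw [this, fderiv_fun_add hu hf]
    rfl
  unfold Dz Du
  rw [h1, h1]
  unfold uu
  ring

end GO3.I
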