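import Pool.Agent.GO3.I.Ster

/-! # Lim: the circulation of `η` around the origin

PROOF. `η_v` is additive and real linear in `v`, so `z.re η_i - z.im η_1 = η_{i z}` (direction `i z` at `z`).
`lim_u0`: `‖η_{iz}(z)‖ ≤ 2 ‖u0‖ (‖fderiv u0 z‖ ‖z‖ + ‖A‖ ‖z‖ ‖u0‖) → 0`.
`lim_uu`: for `z ≠ 0`, `u = q / star z` with `q = qq`, `∂_{iz} u = (∂_{iz} q)/star z + i q/star z`
(`∂_{iz}(1/star z) = i/star z`), so with `b = ⟨A z, i z⟩`
`η_{iz} = 2 [|q|² (1 - b) + Im (star q · ∂_{iz} q)] / (|z|² + |q|²)`, which tends to `2` since `q → l ≠ 0`, `b → 0`,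
`∂_{iz} q → 0` (`qq` is `C¹` at `0`). -/

open MeasureTheory Filter Topology Set
open scoped ContDiff Real

noncomputable section

namespace GO3.I

variable {n : ℕ} {c : Cf} {Xi : ℝ → ℝ} {s l : ℝ}

theorem eta_lin (A u : ℂ → ℂ) (z : ℂ) :
    z.re * eta A u z Complex.I - z.im * eta A u z 1 = eta A u z (Complex.I * z) := by
  have h1 : Complex.I * z = z.re • Complex.I - z.im • (1 : ℂ) := by
    apply Complex.ext <;> simp
  have h2 : fderiv ℝ u z (Complex.I * z) =
      z.re * fderiv ℝ u z Complex.I - z.im * fderiv ℝ u z 1 := by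
    rw [h1, map_sub, map_smul, map_smul, Complex.real_smul, Complex.real_smul]
  have h3 : ip (A z) (Complex.I * z) = z.re * ip (A z) Complex.I - z.im * ip (A z) 1 := by
    unfold ip; simp; ring
  have h4 : Du A u z (Complex.I * z) =
      z.re * Du A u z Complex.I - z.im * Du A u z 1 := by
    unfold Du
    rw [h2, h3]
    push_cast
    ring
  have h5 : (star (u z) * Du A u z (Complex.I * z)).im =
      z.re * (star (u z) * Du A u z Complex.I).im - z.im * (star (u z) * Du A u z 1).im := by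
    rw [h4]
    have : star (u z) * (z.re * Du A u z Complex.I - z.im * Du A u z 1) =
        z.re * (star (u z) * Du A u z Complex.I) - z.im * (star (u z) * Du A u z 1) := by ring
    rw [this, Complex.sub_im, Complex.im_ofReal_mul, Complex.im_ofReal_mul]
  unfold eta
  rw [h5]
  ring

private theorem lim_b (hc : c.Adm n) :
    ContinuousAt (fun z : ℂ => ip (c.A z) (Complex.I * z)) 0 := by
  have hA : Continuous c.A := hc.sA.continuous
  have : Continuous (fun z : ℂ => ip (c.A z) (Complex.I * z)) := by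
    unfold ip
    exact ((Complex.continuous_re.comp hA).mul
      (Complex.continuous_re.comp (continuous_const.mul continuous_id))).add
      ((Complex.continuous_im.comp hA).mul
      (Complex.continuous_im.comp (continuous_const.mul continuous_id)))
  exact this.continuousAt

private theorem lim_fd {f : ℂ → ℂ} (hf : ContDiffAt ℝ ∞ f 0) :
    ContinuousAt (fun z : ℂ => fderiv ℝ f z (Complex.I * z)) 0 := by
  have h1 : ContDiffAt ℝ 0 (fderiv ℝ f) 0 := hf.fderiv_right (by simp)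
  exact h1.continuousAt.clm_apply (continuous_const.mul continuous_id).continuousAt

theorem lim_u0 (hc : c.Adm n) (hs : Near c s) :
    Tendsto (fun z : ℂ => eta c.A (u0 c) z (Complex.I * z)) (𝓝[≠] 0) (𝓝 0) := by
  have hsm := u0_smooth hc hs 0 (by simpa using hs.pos.le)
  have hcu : ContinuousAt (u0 c) 0 := hsm.continuousAt
  have hcs : ContinuousAt (fun z => star (u0 c z)) 0 := hcu.star
  have hb := lim_b hc
  have hbc : ContinuousAt (fun z : ℂ => ((ip (c.A z) (Complex.I * z) : ℝ) : ℂ)) 0 :=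
    Complex.continuous_ofReal.continuousAt.comp hb
  have hD : ContinuousAt (fun z : ℂ => Du c.A (u0 c) z (Complex.I * z)) 0 := by
    unfold Du
    exact (lim_fd hsm).sub ((continuousAt_const.mul hbc).mul hcu)
  have hcont : ContinuousAt (fun z : ℂ => eta c.A (u0 c) z (Complex.I * z)) 0 := by
    unfold eta
    apply ContinuousAt.div
    · exact continuousAt_const.mul (Complex.continuous_im.continuousAt.comp (hcs.mul hD))
    · exact continuousAt_const.add (hcu.norm.pow 2)
    · positivity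
  have h0 : eta c.A (u0 c) 0 (Complex.I * 0) = 0 := by
    unfold eta Du ip; simp
  have h1 : Tendsto (fun z : ℂ => eta c.A (u0 c) z (Complex.I * z)) (𝓝 0)
      (𝓝 (eta c.A (u0 c) 0 (Complex.I * 0))) := hcont
  rw [h0] at h1
  exact h1.mono_left nhdsWithin_le_nhds

theorem lim_uu (hc : c.Adm n) (hs : Near c s) (hX : Cut Xi s) (hl : l ≠ 0) :
    Tendsto (fun z : ℂ => eta c.A (uu c Xi l) z (Complex.I * z)) (𝓝[≠] 0) (𝓝 2) := by
  have hsm : ContDiffAt ℝ ∞ (qq c Xi l) 0 := qq_smooth hc hs hX 0 (by simpa using hs.pos.le)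
  have hcq : ContinuousAt (qq c Xi l) 0 := hsm.continuousAt
  have hcs : ContinuousAt (fun z => star (qq c Xi l z)) 0 := hcq.star
  have hb := lim_b hc
  have hq0 : qq c Xi l 0 = l := by
    unfold qq
    have : Xi (‖(0 : ℂ)‖ ^ 2) = 1 := hX.one _ (by simp; positivity)
    rw [this]; simp
  -- the regular expression
  have hcont : ContinuousAt (fun z : ℂ =>
      2 * ((star (qq c Xi l z) * fderiv ℝ (qq c Xi l) z (Complex.I * z)).im +
        (1 - ip (c.A z) (Complex.I * z)) * ‖qq c Xi l z‖ ^ 2) /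
        (‖z‖ ^ 2 + ‖qq c Xi l z‖ ^ 2)) 0 := by
    apply ContinuousAt.div
    · exact continuousAt_const.mul
        ((Complex.continuous_im.continuousAt.comp (hcs.mul (lim_fd hsm))).add
          ((continuousAt_const.sub hb).mul (hcq.norm.pow 2)))
    · exact (continuous_norm.continuousAt.pow 2).add (hcq.norm.pow 2)
    · exact (qq_pos hX hl 0).ne'
  have h1 : Tendsto (fun z : ℂ =>
      2 * ((star (qq c Xi l z) * fderiv ℝ (qq c Xi l) z (Complex.I * z)).im +
        (1 - ip (c.A z) (Complex.I * z)) * ‖qq c Xi l z‖ ^ 2) /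
        (‖z‖ ^ 2 + ‖qq c Xi l z‖ ^ 2)) (𝓝 0) (𝓝 2) := by
    have h2 := hcont.tendsto
    have h3 : 2 * ((star (qq c Xi l 0) * fderiv ℝ (qq c Xi l) 0 (Complex.I * 0)).im +
        (1 - ip (c.A 0) (Complex.I * 0)) * ‖qq c Xi l 0‖ ^ 2) /
        (‖(0 : ℂ)‖ ^ 2 + ‖qq c Xi l 0‖ ^ 2) = 2 := by
      have hl2 : l ^ 2 ≠ 0 := by positivity
      rw [hq0]
      simp only [mul_zero, map_zero, Complex.zero_im, zero_add, norm_zero, ip, Complex.zero_re,
        add_zero, sub_zero, one_mul, Complex.norm_real, Real.norm_eq_abs, sq_abs, ne_eq,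
        OfNat.ofNat_ne_zero, not_false_eq_true, zero_pow]
      field_simp
    rw [h3] at h2
    exact h2
  refine (h1.mono_left nhdsWithin_le_nhds).congr' ?_
  have hev : ∀ᶠ z : ℂ in 𝓝[≠] 0, ‖z‖ < s := by
    apply nhdsWithin_le_nhds
    have := Metric.ball_mem_nhds (0 : ℂ) hs.pos
    filter_upwards [this] with z hz
    simpa using hz
  filter_upwards [hev, self_mem_nhdsWithin] with z hz hz0
  have hz0' : z ≠ 0 := hz0
  have hsz : star z ≠ 0 := by simpa using hz0'
  -- derivative of `uu`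
  have hdu : DifferentiableAt ℝ (uu c Xi l) z :=
    (uu_smooth hc hs hX z hz.le hz0').differentiableAt (by simp)
  have hstar : HasFDerivAt (fun y : ℂ => star y) (Complex.conjCLE : ℂ →L[ℝ] ℂ) z :=
    (Complex.conjCLE : ℂ →L[ℝ] ℂ).hasFDerivAt
  have hmul := hdu.hasFDerivAt.mul hstar
  have heq : (qq c Xi l) =ᶠ[𝓝 z] (fun y => uu c Xi l y * star y) := by
    have : ∀ᶠ y in 𝓝 z, y ≠ 0 := isOpen_ne.mem_nhds hz0'
    filter_upwards [this] with y hy
    have hsy : star y ≠ 0 := by simpa using hy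
    rw [uu_eq y hy, div_mul_cancel₀ _ hsy]
  have hq := heq.fderiv_eq (𝕜 := ℝ)
  have hm' : fderiv ℝ (fun y => uu c Xi l y * star y) z =
      uu c Xi l z • (Complex.conjCLE : ℂ →L[ℝ] ℂ) + star z • fderiv ℝ (uu c Xi l) z := hmul.fderiv
  rw [hm'] at hq
  have hdq : fderiv ℝ (qq c Xi l) z (Complex.I * z) =
      uu c Xi l z * (-(Complex.I * star z)) + star z * fderiv ℝ (uu c Xi l) z (Complex.I * z) := by
    rw [hq]
    simp
  have hu := uu_eq (c := c) (Xi := Xi) (l := l) z hz0'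
  obtain ⟨q, hqd⟩ : ∃ q, q = qq c Xi l z := ⟨_, rfl⟩
  obtain ⟨dq, hdqd⟩ : ∃ dq, dq = fderiv ℝ (qq c Xi l) z (Complex.I * z) := ⟨_, rfl⟩
  obtain ⟨b, hbd⟩ : ∃ b, b = ip (c.A z) (Complex.I * z) := ⟨_, rfl⟩
  have hdu' : fderiv ℝ (uu c Xi l) z (Complex.I * z) = (dq + Complex.I * q) / star z := by
    rw [eq_div_iff hsz, hdqd, hdq, hu, ← hqd]
    field_simp
    ring
  have hDu : Du c.A (uu c Xi l) z (Complex.I * z) =
      (dq + Complex.I * ((1 - b : ℝ) : ℂ) * q) / star z := by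
    unfold Du
    rw [hdu', ← hbd, hu, ← hqd]
    push_cast
    field_simp
    ring
  have hzn : (z * star z) = ((‖z‖ ^ 2 : ℝ) : ℂ) := by
    rw [Complex.star_def, Complex.mul_conj, Complex.normSq_eq_norm_sq]
  have hqn : (star q * q) = ((‖q‖ ^ 2 : ℝ) : ℂ) := by
    rw [mul_comm, Complex.star_def, Complex.mul_conj, Complex.normSq_eq_norm_sq]
  have hprod : star (uu c Xi l z) * Du c.A (uu c Xi l) z (Complex.I * z) =
      (star q * dq + Complex.I * ((((1 - b) * ‖q‖ ^ 2 : ℝ)) : ℂ)) / ((‖z‖ ^ 2 : ℝ) : ℂ) := by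
    rw [hDu, hu, ← hqd, star_div₀, star_star, ← hzn, div_mul_div_comm]
    congr 1
    rw [mul_add]
    congr 1
    rw [Complex.ofReal_mul, ← hqn]
    ring
  have hnz : 0 < ‖z‖ ^ 2 := by
    have : 0 < ‖z‖ := norm_pos_iff.2 hz0'
    positivity
  have hun : ‖uu c Xi l z‖ ^ 2 = ‖q‖ ^ 2 / ‖z‖ ^ 2 := by
    rw [hu, ← hqd, norm_div, norm_star, div_pow]
  have him : (star (uu c Xi l z) * Du c.A (uu c Xi l) z (Complex.I * z)).im =
      ((star q * dq).im + (1 - b) * ‖q‖ ^ 2) / ‖z‖ ^ 2 := by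
    rw [hprod, Complex.div_ofReal_im, Complex.add_im, Complex.I_mul_im, Complex.ofReal_re]
  unfold eta
  rw [him, hun, ← hqd, ← hdqd, ← hbd]
  field_simp

end GO3.I
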