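import Pool.Agent.GO3.I.Defs

/-! # Loc: the local Bogomolny identity in the stereographic coordinate

PROOF. Everything is at one point `z`. Put `a = D_1 u`, `b = D_2 u`, `P = 1 + |u|²`, `ρ = 2/P`, `k = |u|²/P`, `g = P⁻²`.
(1) `w = ρ u`, `∂_v ρ = -ρ² Re (conj u ∂_v u) = -ρ² Re (conj u D_v u)`, so `D_v w = ρ D_v u + (∂_v ρ) u`, `h = ρ - 1`,
    `∂_v h = ∂_v ρ`, and `|D_v w|² + (∂_v h)² = ρ² |D_v u|²` (`= 4 g |D_v u|²`).
(2) `8 |D_z u|² g = 2 g |a - i b|² = 2 g (|a|² + |b|² + 2 Im (conj a b))`, so `1/2 grad = 8 |D_z u|² g - 4 g Im (conj a b)`.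
(3) `η_v = ρ Im (conj u ∂_v u) - 2 k ⟨A, v⟩`, `∂_v k = 2 g Re (conj u ∂_v u)`, symmetry of second derivatives
    (`ContDiffAt ℝ 2`) gives `curl η = 4 g Im (conj ∂_1 u ∂_2 u) - 2 (∂_1 k A_2 - ∂_2 k A_1) - 2 k F = 4 g Im (conj a b) - 2 k F`
    (use `Re(ū p) Im(ū q) - Re(ū q) Im(ū p) = |u|² Im(conj p q)`).
(4) `1 - h = 2 k`. -/

open MeasureTheory Filter Topology Set
open scoped ContDiff Real

noncomputable section

namespace GO3.I

/-- derivative along a line -/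
theorem lo_line {V : Type*} [NormedAddCommGroup V] [NormedSpace ℝ V] {f : ℂ → V} {z h : ℂ}
    (hf : DifferentiableAt ℝ f z) : HasDerivAt (fun t : ℝ => f (z + (t : ℂ) * h)) (fderiv ℝ f z h) 0 := by
  have h1 : HasDerivAt (fun t : ℝ => z + (t : ℂ) * h) h 0 := by
    have h2 : HasDerivAt (fun t : ℝ => (t : ℂ) * h) (1 * h) 0 := by
      have h3 : HasDerivAt (fun t : ℝ => (t : ℂ)) 1 0 := by
        simpa using (hasDerivAt_id (0 : ℝ)).ofReal_comp
      exact h3.mul_const h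
    rw [one_mul] at h2
    exact h2.const_add z
  have h2 : HasFDerivAt f (fderiv ℝ f z) ((fun t : ℝ => z + (t : ℂ) * h) 0) := by
    simpa using hf.hasFDerivAt
  exact h2.comp_hasDerivAt 0 h1

theorem lo_re {f : ℝ → ℂ} {f' : ℂ} {t : ℝ} (h : HasDerivAt f f' t) : HasDerivAt (fun t => (f t).re) f'.re t :=
  (Complex.reCLM.hasFDerivAt (x := f t)).comp_hasDerivAt t h

theorem lo_im {f : ℝ → ℂ} {f' : ℂ} {t : ℝ} (h : HasDerivAt f f' t) : HasDerivAt (fun t => (f t).im) f'.im t :=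
  (Complex.imCLM.hasFDerivAt (x := f t)).comp_hasDerivAt t h

theorem lo_nsq (u : ℂ) : ‖u‖ ^ 2 = u.re ^ 2 + u.im ^ 2 := by
  rw [← Complex.normSq_eq_norm_sq, Complex.normSq_apply]
  ring

theorem lo_sw_re (u : ℂ) : (sw u).re = 2 * u.re / (1 + (u.re ^ 2 + u.im ^ 2)) := by
  unfold sw
  rw [Complex.div_ofReal_re, lo_nsq, Complex.mul_re]
  simp

theorem lo_sw_im (u : ℂ) : (sw u).im = 2 * u.im / (1 + (u.re ^ 2 + u.im ^ 2)) := by
  unfold sw
  rw [Complex.div_ofReal_im, lo_nsq, Complex.mul_im]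
  simp

theorem lo_sh (u : ℂ) : sh u = (1 - (u.re ^ 2 + u.im ^ 2)) / (1 + (u.re ^ 2 + u.im ^ 2)) := by
  unfold sh
  rw [lo_nsq]

theorem lo_sw_diff {u : ℂ → ℂ} {z : ℂ} (hu : DifferentiableAt ℝ u z) :
    DifferentiableAt ℝ (fun y => sw (u y)) z := by
  unfold sw
  have h1 : DifferentiableAt ℝ (fun y => (1 + ‖u y‖ ^ 2 : ℝ)) z := (hu.norm_sq ℝ).const_add 1
  have h2 : DifferentiableAt ℝ (fun y => ((1 + ‖u y‖ ^ 2 : ℝ) : ℂ)) z :=
    Complex.ofRealCLM.differentiableAt.comp z h1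
  have h3 : (((1 + ‖u z‖ ^ 2 : ℝ)) : ℂ) ≠ 0 := by
    have : (0 : ℝ) < 1 + ‖u z‖ ^ 2 := by positivity
    exact_mod_cast this.ne'
  have h4 := (hu.const_mul 2).mul (h2.inv h3)
  refine h4.congr_of_eventuallyEq (Eventually.of_forall fun y => ?_)
  simp only [Pi.mul_apply, Pi.inv_apply]
  rw [div_eq_mul_inv]

theorem lo_sh_diff {u : ℂ → ℂ} {z : ℂ} (hu : DifferentiableAt ℝ u z) :
    DifferentiableAt ℝ (fun y => sh (u y)) z := by
  unfold sh
  have h1 : DifferentiableAt ℝ (fun y => ‖u y‖ ^ 2) z := hu.norm_sq ℝ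
  have h3 : 1 + ‖u z‖ ^ 2 ≠ 0 := by positivity
  have h4 := (h1.const_sub 1).mul ((h1.const_add 1).inv h3)
  refine h4.congr_of_eventuallyEq (Eventually.of_forall fun y => ?_)
  simp only [Pi.mul_apply, Pi.inv_apply]
  rw [div_eq_mul_inv]

theorem lo_fd {u : ℂ → ℂ} {z : ℂ} (hu : DifferentiableAt ℝ u z) (v : ℂ) :
    (fderiv ℝ (fun y => sw (u y)) z v).re = (2 * (fderiv ℝ u z v).re * (1 + ((u z).re ^ 2 + (u z).im ^ 2))
      - 2 * (u z).re * (2 * ((u z).re * (fderiv ℝ u z v).re + (u z).im * (fderiv ℝ u z v).im)))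
        / (1 + ((u z).re ^ 2 + (u z).im ^ 2)) ^ 2 ∧
    (fderiv ℝ (fun y => sw (u y)) z v).im = (2 * (fderiv ℝ u z v).im * (1 + ((u z).re ^ 2 + (u z).im ^ 2))
      - 2 * (u z).im * (2 * ((u z).re * (fderiv ℝ u z v).re + (u z).im * (fderiv ℝ u z v).im)))
        / (1 + ((u z).re ^ 2 + (u z).im ^ 2)) ^ 2 ∧
    fderiv ℝ (fun y => sh (u y)) z v =
      -(4 * ((u z).re * (fderiv ℝ u z v).re + (u z).im * (fderiv ℝ u z v).im))
        / (1 + ((u z).re ^ 2 + (u z).im ^ 2)) ^ 2 := by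
  have hl := lo_line (h := v) hu
  have hR := lo_re hl
  have hM := lo_im hl
  set p := fderiv ℝ u z v with hp
  have hN : HasDerivAt (fun t : ℝ => (u (z + (t : ℂ) * v)).re ^ 2 + (u (z + (t : ℂ) * v)).im ^ 2)
      (2 * ((u z).re * p.re + (u z).im * p.im)) 0 := by
    have h1 := (hR.pow 2).add (hM.pow 2)
    refine h1.congr_deriv ?_
    simp
    ring
  have hP := hN.const_add 1
  have hz : (z + ((0 : ℝ) : ℂ) * v) = z := by simp
  have hne : (1 + ((u z).re ^ 2 + (u z).im ^ 2)) ≠ 0 := by positivity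
  refine ⟨?_, ?_, ?_⟩
  · have h1 := lo_re (lo_line (h := v) (lo_sw_diff hu))
    have h2 := (hR.const_mul 2).div hP (by rw [hz]; exact hne)
    rw [hz] at h2
    have e : (fun t : ℝ => (sw (u (z + (t : ℂ) * v))).re) = fun t : ℝ => 2 * (u (z + (t : ℂ) * v)).re /
        (1 + ((u (z + (t : ℂ) * v)).re ^ 2 + (u (z + (t : ℂ) * v)).im ^ 2)) := by
      funext t
      exact lo_sw_re _
    rw [e] at h1
    exact h1.unique h2
  · have h1 := lo_im (lo_line (h := v) (lo_sw_diff hu))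
    have h2 := (hM.const_mul 2).div hP (by rw [hz]; exact hne)
    rw [hz] at h2
    have e : (fun t : ℝ => (sw (u (z + (t : ℂ) * v))).im) = fun t : ℝ => 2 * (u (z + (t : ℂ) * v)).im /
        (1 + ((u (z + (t : ℂ) * v)).re ^ 2 + (u (z + (t : ℂ) * v)).im ^ 2)) := by
      funext t
      exact lo_sw_im _
    rw [e] at h1
    exact h1.unique h2
  · have h1 := lo_line (h := v) (lo_sh_diff hu)
    have h2 := (hN.const_sub 1).div hP (by rw [hz]; exact hne)
    rw [hz] at h2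
    have e : (fun t : ℝ => sh (u (z + (t : ℂ) * v))) = fun t : ℝ =>
        (1 - ((u (z + (t : ℂ) * v)).re ^ 2 + (u (z + (t : ℂ) * v)).im ^ 2)) /
        (1 + ((u (z + (t : ℂ) * v)).re ^ 2 + (u (z + (t : ℂ) * v)).im ^ 2)) := by
      funext t
      exact lo_sh _
    rw [e] at h1
    rw [h1.unique h2]
    congr 1
    ring

theorem lo_nsqv (c : Cf) (u : ℂ → ℂ) (z v : ℂ) (hu : DifferentiableAt ℝ u z)
    (hw : c.w =ᶠ[𝓝 z] fun y => sw (u y)) (hh : c.h =ᶠ[𝓝 z] fun y => sh (u y)) :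
    c.nsq z v = 4 * gf (u z) * ‖Du c.A u z v‖ ^ 2 := by
  obtain ⟨h1, h2, h3⟩ := lo_fd hu v
  unfold Cf.nsq Cf.Dw Cf.dh Du gf
  rw [hw.fderiv_eq, hh.fderiv_eq, hw.eq_of_nhds, h3, lo_nsq, lo_nsq, lo_nsq, Complex.sub_re, Complex.sub_im, h1, h2,
    Complex.sub_re, Complex.sub_im]
  have e1 : ∀ (x : ℝ) (y : ℂ), (Complex.I * (x : ℂ) * y).re = -(x * y.im) := fun x y => by
    simp [Complex.mul_re, Complex.mul_im]
  have e2 : ∀ (x : ℝ) (y : ℂ), (Complex.I * (x : ℂ) * y).im = x * y.re := fun x y => by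
    simp [Complex.mul_re, Complex.mul_im]
  rw [e1, e2, e1, e2, lo_sw_re, lo_sw_im]
  generalize (u z).re = R
  generalize (u z).im = M
  generalize (fderiv ℝ u z v).re = pr
  generalize (fderiv ℝ u z v).im = pi
  generalize ip (c.A z) v = x
  have hne : (1 + (R ^ 2 + M ^ 2)) ≠ 0 := by positivity
  field_simp
  ring

theorem loc_grad (c : Cf) (u : ℂ → ℂ) (z : ℂ) (hu : DifferentiableAt ℝ u z)
    (hw : c.w =ᶠ[𝓝 z] fun y => sw (u y)) (hh : c.h =ᶠ[𝓝 z] fun y => sh (u y)) :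
    1 / 2 * c.grad z = 8 * ‖Dz c.A u z‖ ^ 2 * gf (u z)
      - 4 * gf (u z) * (star (Du c.A u z 1) * Du c.A u z Complex.I).im := by
  unfold Cf.grad Dz
  rw [lo_nsqv c u z 1 hu hw hh, lo_nsqv c u z Complex.I hu hw hh]
  generalize Du c.A u z 1 = a
  generalize Du c.A u z Complex.I = b
  generalize gf (u z) = g
  rw [lo_nsq, lo_nsq, lo_nsq, Complex.mul_im]
  have e1 : ((a - Complex.I * b) / 2).re = (a.re + b.im) / 2 := by simp
  have e2 : ((a - Complex.I * b) / 2).im = (a.im - b.re) / 2 := by simp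
  rw [e1, e2]
  simp only [Complex.star_def, Complex.conj_re, Complex.conj_im]
  ring

theorem lo_eta (A u : ℂ → ℂ) (y v : ℂ) : eta A u y v =
    2 * ((u y).re * (fderiv ℝ u y v).im - (u y).im * (fderiv ℝ u y v).re
      - ((A y).re * v.re + (A y).im * v.im) * ((u y).re ^ 2 + (u y).im ^ 2))
      / (1 + ((u y).re ^ 2 + (u y).im ^ 2)) := by
  unfold eta Du ip
  rw [lo_nsq]
  congr 2
  rw [Complex.mul_im]
  simp only [Complex.star_def, Complex.conj_re, Complex.conj_im, Complex.sub_re, Complex.sub_im,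
    Complex.mul_re, Complex.mul_im, Complex.I_re, Complex.I_im, Complex.ofReal_re, Complex.ofReal_im]
  ring

theorem lo_deta (A u : ℂ → ℂ) (z : ℂ) (hu : ContDiffAt ℝ 2 u z) (hA : DifferentiableAt ℝ A z) (v h : ℂ) :
    fderiv ℝ (fun y => eta A u y v) z h =
      ((2 * ((fderiv ℝ u z h).re * (fderiv ℝ u z v).im + (u z).re * (fderiv ℝ (fderiv ℝ u) z h v).im
        - ((fderiv ℝ u z h).im * (fderiv ℝ u z v).re + (u z).im * (fderiv ℝ (fderiv ℝ u) z h v).re)
        - (((fderiv ℝ A z h).re * v.re + (fderiv ℝ A z h).im * v.im) * ((u z).re ^ 2 + (u z).im ^ 2)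
          + ((A z).re * v.re + (A z).im * v.im)
            * (2 * ((u z).re * (fderiv ℝ u z h).re + (u z).im * (fderiv ℝ u z h).im)))))
        * (1 + ((u z).re ^ 2 + (u z).im ^ 2))
      - (2 * ((u z).re * (fderiv ℝ u z v).im - (u z).im * (fderiv ℝ u z v).re
        - ((A z).re * v.re + (A z).im * v.im) * ((u z).re ^ 2 + (u z).im ^ 2)))
        * (2 * ((u z).re * (fderiv ℝ u z h).re + (u z).im * (fderiv ℝ u z h).im)))
      / (1 + ((u z).re ^ 2 + (u z).im ^ 2)) ^ 2 := by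
  have hd : DifferentiableAt ℝ u z := hu.differentiableAt (by norm_num)
  have hd2 : DifferentiableAt ℝ (fderiv ℝ u) z :=
    (hu.fderiv_right (m := 1) (by norm_num)).differentiableAt (by norm_num)
  have hdv : DifferentiableAt ℝ (fun y => fderiv ℝ u y v) z := hd2.clm_apply (differentiableAt_const v)
  have e2 : fderiv ℝ (fun y => fderiv ℝ u y v) z h = fderiv ℝ (fderiv ℝ u) z h v := by
    rw [fderiv_clm_apply hd2 (differentiableAt_const v)]
    simp
  have hl := lo_line (h := h) hd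
  have hlv := lo_line (h := h) hdv
  rw [e2] at hlv
  have hlA := lo_line (h := h) hA
  have hR := lo_re hl
  have hM := lo_im hl
  have hRv := lo_re hlv
  have hMv := lo_im hlv
  have hRA := lo_re hlA
  have hMA := lo_im hlA
  have hz : (z + ((0 : ℝ) : ℂ) * h) = z := by simp
  have hne : (1 + ((u z).re ^ 2 + (u z).im ^ 2)) ≠ 0 := by positivity
  have hN : HasDerivAt (fun t : ℝ => (u (z + (t : ℂ) * h)).re ^ 2 + (u (z + (t : ℂ) * h)).im ^ 2)
      (2 * ((u z).re * (fderiv ℝ u z h).re + (u z).im * (fderiv ℝ u z h).im)) 0 := by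
    have h1 := (hR.pow 2).add (hM.pow 2)
    refine h1.congr_deriv ?_
    simp
    ring
  have hP := hN.const_add 1
  have hnum := ((((hR.mul hMv).sub (hM.mul hRv)).sub
    (((hRA.mul_const v.re).add (hMA.mul_const v.im)).mul hN)).const_mul 2)
  have h2 := hnum.div hP (by rw [hz]; exact hne)
  have hdiff : DifferentiableAt ℝ (fun y => eta A u y v) z := by
    have e : (fun y => eta A u y v) = fun y => 2 * ((u y).re * (fderiv ℝ u y v).im
      - (u y).im * (fderiv ℝ u y v).re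
      - ((A y).re * v.re + (A y).im * v.im) * ((u y).re ^ 2 + (u y).im ^ 2))
      / (1 + ((u y).re ^ 2 + (u y).im ^ 2)) := by
      funext y
      exact lo_eta A u y v
    rw [e]
    have dR : ∀ {f : ℂ → ℂ}, DifferentiableAt ℝ f z → DifferentiableAt ℝ (fun y => (f y).re) z :=
      fun {f} hf => Complex.reCLM.differentiableAt.comp z hf
    have dM : ∀ {f : ℂ → ℂ}, DifferentiableAt ℝ f z → DifferentiableAt ℝ (fun y => (f y).im) z :=
      fun {f} hf => Complex.imCLM.differentiableAt.comp z hf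
    have dN : DifferentiableAt ℝ (fun y => (u y).re ^ 2 + (u y).im ^ 2) z :=
      ((dR hd).pow 2).add ((dM hd).pow 2)
    have h4 := (((((dR hd).mul (dM hdv)).sub ((dM hd).mul (dR hdv))).sub
      ((((dR hA).mul_const v.re).add ((dM hA).mul_const v.im)).mul dN)).const_mul 2).mul
      ((dN.const_add 1).inv hne)
    refine h4.congr_of_eventuallyEq (Eventually.of_forall fun y => ?_)
    simp only [Pi.mul_apply, Pi.inv_apply, Pi.sub_apply, Pi.add_apply]
    rw [div_eq_mul_inv]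
  have h1 := lo_line (h := h) hdiff
  have e : (fun t : ℝ => eta A u (z + (t : ℂ) * h) v) = fun t : ℝ =>
      2 * ((u (z + (t : ℂ) * h)).re * (fderiv ℝ u (z + (t : ℂ) * h) v).im
      - (u (z + (t : ℂ) * h)).im * (fderiv ℝ u (z + (t : ℂ) * h) v).re
      - ((A (z + (t : ℂ) * h)).re * v.re + (A (z + (t : ℂ) * h)).im * v.im)
        * ((u (z + (t : ℂ) * h)).re ^ 2 + (u (z + (t : ℂ) * h)).im ^ 2))
      / (1 + ((u (z + (t : ℂ) * h)).re ^ 2 + (u (z + (t : ℂ) * h)).im ^ 2)) := by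
    funext t
    exact lo_eta A u _ v
  rw [e] at h1
  rw [h1.unique h2]
  simp only [hz, Pi.mul_apply, Pi.sub_apply, Pi.add_apply]

theorem loc_curl (A u : ℂ → ℂ) (z : ℂ) (hu : ContDiffAt ℝ 2 u z) (hA : DifferentiableAt ℝ A z) :
    curl (eta A u) z = 4 * gf (u z) * (star (Du A u z 1) * Du A u z Complex.I).im
      - 2 * kf (u z) * ((fderiv ℝ A z 1).im - (fderiv ℝ A z Complex.I).re) := by
  unfold curl
  rw [lo_deta A u z hu hA, lo_deta A u z hu hA]
  have hs := (hu.isSymmSndFDerivAt (by simp)).eq 1 Complex.I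
  rw [hs]
  unfold gf kf Du ip
  rw [lo_nsq, Complex.mul_im]
  simp only [Complex.star_def, Complex.conj_re, Complex.conj_im, Complex.sub_re, Complex.sub_im,
    Complex.mul_re, Complex.mul_im, Complex.I_re, Complex.I_im, Complex.ofReal_re, Complex.ofReal_im,
    Complex.one_re, Complex.one_im]
  generalize (u z).re = R
  generalize (u z).im = M
  generalize (fderiv ℝ u z 1).re = p1
  generalize (fderiv ℝ u z 1).im = p2
  generalize (fderiv ℝ u z Complex.I).re = q1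
  generalize (fderiv ℝ u z Complex.I).im = q2
  generalize (A z).re = a1
  generalize (A z).im = a2
  generalize (fderiv ℝ A z 1).re = b1
  generalize (fderiv ℝ A z 1).im = b2
  generalize (fderiv ℝ A z Complex.I).re = c1
  generalize (fderiv ℝ A z Complex.I).im = c2
  generalize ((fderiv ℝ (fderiv ℝ u) z) Complex.I 1).re = s1
  generalize ((fderiv ℝ (fderiv ℝ u) z) Complex.I 1).im = s2
  have hne : (1 + (R ^ 2 + M ^ 2)) ≠ 0 := by positivity
  field_simp
  ring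

theorem loc (c : Cf) (u : ℂ → ℂ) (z : ℂ) (hu : ContDiffAt ℝ 2 u z)
    (hA : DifferentiableAt ℝ c.A z)
    (hw : c.w =ᶠ[𝓝 z] fun y => sw (u y)) (hh : c.h =ᶠ[𝓝 z] fun y => sh (u y)) :
    1 / 2 * c.grad z + 1 / 2 * (1 - c.h z) ^ 2 =
      8 * ‖Dz c.A u z‖ ^ 2 * gf (u z) - 2 * c.F z * kf (u z) + 2 * kf (u z) ^ 2
        - curl (eta c.A u) z := by
  rw [loc_grad c u z (hu.differentiableAt (by norm_num)) hw hh, loc_curl c.A u z hu hA, hh.eq_of_nhds]
  have e : 1 - sh (u z) = 2 * kf (u z) := by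
    unfold sh kf
    have hne : (1 + ‖u z‖ ^ 2) ≠ 0 := by positivity
    field_simp
    ring
  rw [e]
  unfold Cf.F
  ring

end GO3.I
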