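import Pool.Agent.GO3.I.Kal

/-! # Pw: pointwise bounds for the energy difference `dd`

PROOF.
* `dd_one` (case `al ≠ 0`): since `‖u‖ ≤ ‖u+t‖`, `gf (u+t) ≤ gf u`, hence
  `8 ‖a + l k‖² g(u+t) - 8 ‖a‖² g u ≤ 8 g(u+t) (‖a + l k‖² - ‖a‖²) = 8 g(u+t) (2 l k Re a + l² k²)`,
  and `8 g l² k² ≤ 8 l² k²`; `-2F(k(u+t) - k u) ≤ 2|F| ‖t‖`, `2 (k² - k²) ≤ 4 ‖t‖` (Kal).
* `dd_two` (case `al = 0`), sum of the two signs: with `g± = g(u±t)`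
  `8‖a ± l k‖² g± - 8‖a‖² g` sums to `8‖a‖²(g₊+g₋-2g) + 8 l²k²(g₊+g₋) + 16 l k Re a (g₊ - g₋)`
  `≤ 120 ‖a‖² ‖t‖² + 16 l² k² + 64 |l| |k| ‖a‖ ‖t‖` (`gf_sec`, `gf_le_one`, `gf_lip`:
  `|g₊ - g₋| ≤ 2 ‖2t‖`); `-2F(k₊+k₋-2k) ≤ -4 F k t + 24 |F| ‖u‖²‖t‖²`; `2(k₊²+k₋²-2k²) ≤ 88‖u‖²‖t‖² + 128 (k t)²`. -/

open MeasureTheory Filter Topology Set
open scoped ContDiff Real

noncomputable section

namespace GO3.I

theorem pw_exp (a : ℂ) (x : ℝ) : ‖a + (x : ℂ)‖ ^ 2 = ‖a‖ ^ 2 + 2 * x * a.re + x ^ 2 := by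
  rw [← Complex.normSq_eq_norm_sq, ← Complex.normSq_eq_norm_sq, Complex.normSq_apply, Complex.normSq_apply,
    Complex.add_re, Complex.add_im, Complex.ofReal_re, Complex.ofReal_im]
  ring

theorem dd_one (a u t : ℂ) (F k l : ℝ) (h : ‖u‖ ≤ ‖u + t‖) :
    dd a u F k l t ≤ 16 * gf (u + t) * (l * k * a.re) + 8 * l ^ 2 * k ^ 2
      + (2 * |F| + 4) * ‖t‖ := by
  unfold dd
  rw [pw_exp]
  have e : u + t - u = t := by ring
  have h1 := gf_anti h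
  have h2 := gf_le_one (u + t)
  have h3 := gf_nonneg (u + t)
  have h4 := kf_lip (u + t) u
  have h5 := kf_sq_lip (u + t) u
  rw [e] at h4 h5
  have h6 : -2 * F * (kf (u + t) - kf u) ≤ 2 * |F| * ‖t‖ := by
    have h7 : |F * (kf (u + t) - kf u)| ≤ |F| * ‖t‖ := by
      rw [abs_mul]
      exact mul_le_mul_of_nonneg_left h4 (abs_nonneg _)
    have := (abs_le.1 h7).1
    linarith
  have h8 := (abs_le.1 h5).2
  have h9 : ‖a‖ ^ 2 * gf (u + t) ≤ ‖a‖ ^ 2 * gf u := mul_le_mul_of_nonneg_left h1 (by positivity)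
  have h10 : (l * k) ^ 2 * gf (u + t) ≤ (l * k) ^ 2 * 1 := mul_le_mul_of_nonneg_left h2 (by positivity)
  have h11 : (l * k) ^ 2 = l ^ 2 * k ^ 2 := by ring
  nlinarith

theorem dd_two (a u t : ℂ) (F k l : ℝ) (hu : ‖u‖ ≤ 1 / 2) :
    dd a u F k l t + dd a u F k (-l) (-t) ≤
      120 * ‖a‖ ^ 2 * ‖t‖ ^ 2 + 16 * l ^ 2 * k ^ 2 + 64 * |l| * |k| * ‖a‖ * ‖t‖
        - 4 * F * kf t + 24 * |F| * ‖u‖ ^ 2 * ‖t‖ ^ 2 + 88 * ‖u‖ ^ 2 * ‖t‖ ^ 2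
        + 128 * kf t ^ 2 := by
  unfold dd
  rw [pw_exp, pw_exp, ← sub_eq_add_neg]
  have g1 := (abs_le.1 (gf_sec u t hu)).2
  have g2 := gf_le_one (u + t)
  have g3 := gf_le_one (u - t)
  have g4 := gf_lip (u + t) (u - t)
  have e : u + t - (u - t) = 2 * t := by ring
  rw [e, norm_mul, Complex.norm_ofNat] at g4
  have s1 := kf_sec u t
  have s2 := kf_sqsec u t hu
  have a0 := norm_nonneg a
  have t0 := norm_nonneg t
  -- the cross term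
  have c1 : 16 * (l * k * a.re) * (gf (u + t) - gf (u - t)) ≤ 64 * |l| * |k| * ‖a‖ * ‖t‖ := by
    have c2 : |(l * k * a.re) * (gf (u + t) - gf (u - t))| ≤ (|l| * |k| * ‖a‖) * (2 * (2 * ‖t‖)) := by
      rw [abs_mul, abs_mul, abs_mul]
      exact mul_le_mul (mul_le_mul_of_nonneg_left (Complex.abs_re_le_norm a) (by positivity)) g4
        (abs_nonneg _) (by positivity)
    have := (abs_le.1 c2).2
    linarith
  have c3 : 8 * ‖a‖ ^ 2 * (gf (u + t) + gf (u - t) - 2 * gf u) ≤ 8 * ‖a‖ ^ 2 * (15 * ‖t‖ ^ 2) :=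
    mul_le_mul_of_nonneg_left g1 (by positivity)
  have c4 : 8 * (l * k) ^ 2 * (gf (u + t) + gf (u - t)) ≤ 8 * (l * k) ^ 2 * 2 :=
    mul_le_mul_of_nonneg_left (by linarith) (by positivity)
  have c5 : -2 * F * (kf (u + t) + kf (u - t) - 2 * kf u - 2 * kf t) ≤ 24 * |F| * ‖u‖ ^ 2 * ‖t‖ ^ 2 := by
    have c6 : |F * (kf (u + t) + kf (u - t) - 2 * kf u - 2 * kf t)| ≤ |F| * (12 * ‖u‖ ^ 2 * ‖t‖ ^ 2) := by
      rw [abs_mul]
      exact mul_le_mul_of_nonneg_left s1 (abs_nonneg _)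
    have := (abs_le.1 c6).1
    linarith
  have e2 : (l * k) ^ 2 = l ^ 2 * k ^ 2 := by ring
  have e3 : 8 * (‖a‖ ^ 2 + 2 * (l * k) * a.re + (l * k) ^ 2) * gf (u + t) - 8 * ‖a‖ ^ 2 * gf u
      - 2 * F * (kf (u + t) - kf u) + 2 * (kf (u + t) ^ 2 - kf u ^ 2)
      + (8 * (‖a‖ ^ 2 + 2 * (-l * k) * a.re + (-l * k) ^ 2) * gf (u - t) - 8 * ‖a‖ ^ 2 * gf u
      - 2 * F * (kf (u - t) - kf u) + 2 * (kf (u - t) ^ 2 - kf u ^ 2)) =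
      8 * ‖a‖ ^ 2 * (gf (u + t) + gf (u - t) - 2 * gf u) + 8 * (l * k) ^ 2 * (gf (u + t) + gf (u - t))
      + 16 * (l * k * a.re) * (gf (u + t) - gf (u - t))
      + -2 * F * (kf (u + t) + kf (u - t) - 2 * kf u - 2 * kf t) - 4 * F * kf t
      + 2 * (kf (u + t) ^ 2 + kf (u - t) ^ 2 - 2 * kf u ^ 2) := by ring
  rw [e3]
  rw [e2] at c4
  rw [e2]
  linarith

/-- rough bound, used for integrability -/
theorem dd_abs (a u t : ℂ) (F k l : ℝ) :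
    |dd a u F k l t| ≤ 16 * ‖a‖ ^ 2 + 16 * l ^ 2 * k ^ 2 + 8 * ‖a‖ ^ 2 + 2 * |F| + 2 := by
  unfold dd
  rw [pw_exp]
  have h2 := gf_le_one (u + t)
  have h3 := gf_nonneg (u + t)
  have h4 := gf_le_one u
  have h5 := gf_nonneg u
  have k0 := kf_nonneg u
  have k1 := kf_le_one u
  have k2 := kf_nonneg (u + t)
  have k3 := kf_le_one (u + t)
  have a0 : 0 ≤ ‖a‖ ^ 2 := by positivity
  have e2 : (l * k) ^ 2 = l ^ 2 * k ^ 2 := by ring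
  have e3 : 0 ≤ ‖a‖ ^ 2 + 2 * (l * k) * a.re + (l * k) ^ 2 := by
    rw [← pw_exp]
    positivity
  have e4 : ‖a‖ ^ 2 + 2 * (l * k) * a.re + (l * k) ^ 2 ≤ 2 * ‖a‖ ^ 2 + 2 * (l * k) ^ 2 := by
    have h6 := Complex.abs_re_le_norm a
    have h7 : 2 * (l * k) * a.re ≤ a.re ^ 2 + (l * k) ^ 2 := by nlinarith [sq_nonneg (l * k - a.re)]
    have h8 : a.re ^ 2 ≤ ‖a‖ ^ 2 := by
      rw [← sq_abs]
      exact pow_le_pow_left₀ (abs_nonneg _) h6 2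
    linarith
  have m1 := mul_le_mul e4 h2 h3 (by positivity)
  have m2 := mul_nonneg e3 h3
  have m3 : ‖a‖ ^ 2 * gf u ≤ ‖a‖ ^ 2 * 1 := mul_le_mul_of_nonneg_left h4 a0
  have m4 := mul_nonneg a0 h5
  have m5 : |F * (kf (u + t) - kf u)| ≤ |F| * 1 := by
    rw [abs_mul]
    refine mul_le_mul_of_nonneg_left ?_ (abs_nonneg _)
    rw [abs_le]
    constructor <;> linarith
  have m6 := abs_le.1 m5
  have q1 : kf u ^ 2 ≤ 1 := pow_le_one₀ k0 k1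
  have q2 : kf (u + t) ^ 2 ≤ 1 := pow_le_one₀ k2 k3
  have q3 := sq_nonneg (kf u)
  have q4 := sq_nonneg (kf (u + t))
  rw [e2] at m1
  rw [e2] at m2
  rw [e2, abs_le]
  constructor <;> linarith [m6.1, m6.2]

end GO3.I
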