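import Pool.Agent.GO3.I.CutEx

/-! # Stk: Stokes' theorem with a puncture

PROOF. Let `X : ℝ → ℝ` be smooth, `X = 0` on `(-∞, 1/2]`, `X = 1` on `[1, ∞)` (`Real.smoothTransition (2 t - 1)`), and
`χ_δ z = X (|z|²/δ²)`. The functions `χ_δ P`, `χ_δ Q` (extended by `0` at `0`) are `C¹` on `ℂ` with compact support, so
`∫ ∂_1 (χ_δ Q) - ∂_2 (χ_δ P) = 0` (integral of a derivative of a compactly supported `C¹` function), i.e.
`∫ χ_δ (∂_1 Q - ∂_2 P) = -∫ (∂_1 χ_δ Q - ∂_2 χ_δ P) = -∫ (2/δ²) X'(|z|²/δ²) (z.re Q z - z.im P z)`.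
Substituting `z = δ y` the right side is `-∫ 2 X'(|y|²) κ(δ y) dy`, `κ z = z.re Q z - z.im P z`, which tends to
`-L ∫ 2 X'(|y|²) = -2 π L` as `δ → 0` (`cut_integral_gen`; dominated convergence, `κ` is bounded near `0`). The left side tends to
`∫ (∂_1 Q - ∂_2 P)` by dominated convergence (`hint`). -/

open MeasureTheory Filter Topology Set
open scoped ContDiff Real

noncomputable section

namespace GO3.I

private def XX (t : ℝ) : ℝ := Real.smoothTransition (2 * t - 1)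

private theorem XX_smooth : ContDiff ℝ ∞ XX := by
  unfold XX
  exact Real.smoothTransition.contDiff.comp ((contDiff_const.mul contDiff_id).sub contDiff_const)

private theorem XX_zero {t : ℝ} (h : t ≤ 1 / 2) : XX t = 0 :=
  Real.smoothTransition.zero_of_nonpos (by linarith)

private theorem XX_one {t : ℝ} (h : 1 ≤ t) : XX t = 1 :=
  Real.smoothTransition.one_of_one_le (by linarith)

private theorem XX_nonneg (t : ℝ) : 0 ≤ XX t := Real.smoothTransition.nonneg _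

private theorem XX_le (t : ℝ) : XX t ≤ 1 := Real.smoothTransition.le_one _

private theorem dXX_cont : Continuous (deriv XX) := XX_smooth.continuous_deriv (by simp)

private theorem dXX_zero {t : ℝ} (h : 1 < t) : deriv XX t = 0 := by
  have : XX =ᶠ[𝓝 t] fun _ => 1 := by
    filter_upwards [lt_mem_nhds h] with s hs
    exact XX_one hs.le
  rw [this.deriv_eq, deriv_const]

private theorem int_fd {f : ℂ → ℝ} (hf : ContDiff ℝ 1 f) (hs : HasCompactSupport f) (v : ℂ) :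
    Integrable (fun z => fderiv ℝ f z v) ∧ ∫ z, fderiv ℝ f z v = 0 := by
  have h1 : Integrable (fun z => fderiv ℝ f z v) := by
    have hc : Continuous (fun z => fderiv ℝ f z v) :=
      (hf.continuous_fderiv (by simp)).clm_apply continuous_const
    exact hc.integrable_of_hasCompactSupport (hs.fderiv_apply ℝ v)
  have h0 : Integrable f := hf.continuous.integrable_of_hasCompactSupport hs
  refine ⟨h1, ?_⟩
  have := integral_mul_fderiv_eq_neg_fderiv_mul_of_integrable (μ := (volume : Measure ℂ))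
    (f := fun _ : ℂ => (1 : ℝ)) (g := f) (v := v) (by simp) (by simpa using h1) (by simpa using h0)
    (fun x _ => differentiableAt_const _) (fun x _ => hf.differentiable (by simp) x)
  simpa using this

/-- the cut-off function multiplied with `Q` -/
private def cu (N : ℝ) (Q : ℂ → ℝ) (z : ℂ) : ℝ := XX (N * ‖z‖ ^ 2) * Q z

private theorem cu_zero {N : ℝ} (hN : 0 < N) (Q : ℂ → ℝ) : cu N Q =ᶠ[𝓝 0] fun _ => 0 := by
  have h1 : Continuous fun z : ℂ => N * ‖z‖ ^ 2 := by fun_prop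
  have h2 : ∀ᶠ z : ℂ in 𝓝 0, N * ‖z‖ ^ 2 < 1 / 2 := by
    have := h1.continuousAt (x := (0 : ℂ))
    refine this.eventually_lt continuousAt_const ?_
    simp
  filter_upwards [h2] with z hz
  unfold cu
  rw [XX_zero hz.le, zero_mul]

private theorem cut_smooth (N : ℝ) : ContDiff ℝ ∞ fun z : ℂ => XX (N * ‖z‖ ^ 2) :=
  XX_smooth.comp (contDiff_const.mul (contDiff_norm_sq ℝ))

private theorem cu_contDiff {N : ℝ} (hN : 0 < N) {Q : ℂ → ℝ} (hQ : ∀ z : ℂ, z ≠ 0 → ContDiffAt ℝ 1 Q z) :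
    ContDiff ℝ 1 (cu N Q) := by
  rw [contDiff_iff_contDiffAt]
  intro z
  by_cases hz : z = 0
  · subst hz
    exact (contDiffAt_const (c := (0 : ℝ))).congr_of_eventuallyEq (cu_zero hN Q)
  · exact ((cut_smooth N).of_le (by simp)).contDiffAt.mul (hQ z hz)

private theorem cu_supp {N R : ℝ} {Q : ℂ → ℝ} (hQR : ∀ z : ℂ, R ≤ ‖z‖ → Q z = 0) :
    HasCompactSupport (cu N Q) := by
  refine HasCompactSupport.of_support_subset_isCompact (isCompact_closedBall (0 : ℂ) R) ?_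
  intro z hz
  rw [Metric.mem_closedBall, dist_zero_right]
  by_contra hc
  apply hz
  unfold cu
  rw [hQR z (by linarith), mul_zero]

private theorem cut_hasFD (N : ℝ) (z v : ℂ) :
    fderiv ℝ (fun z : ℂ => XX (N * ‖z‖ ^ 2)) z v = deriv XX (N * ‖z‖ ^ 2) * (N * (2 * ip z v)) := by
  have h1 : HasFDerivAt (fun z : ℂ => ‖z‖ ^ 2) (2 • (innerSL ℝ z)) z := by
    have := (hasStrictFDerivAt_norm_sq z).hasFDerivAt (𝕜 := ℝ)
    exact this
  have h2 : HasFDerivAt (fun z : ℂ => N * ‖z‖ ^ 2) (N • (2 • (innerSL ℝ z))) z := h1.const_mul N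
  have h3 : HasDerivAt XX (deriv XX (N * ‖z‖ ^ 2)) (N * ‖z‖ ^ 2) :=
    (XX_smooth.differentiable (by simp) _).hasDerivAt
  have h4 := h3.comp_hasFDerivAt z h2
  have h5 : fderiv ℝ (fun z : ℂ => XX (N * ‖z‖ ^ 2)) z = deriv XX (N * ‖z‖ ^ 2) • (N • (2 • (innerSL ℝ z))) :=
    h4.fderiv
  rw [h5]
  simp only [ContinuousLinearMap.smul_apply, innerSL_apply_apply, smul_eq_mul, nsmul_eq_mul, Nat.cast_ofNat]
  congr 3
  unfold ip
  rw [Complex.inner]
  simp
  ring

private theorem cu_fd {N : ℝ} {Q : ℂ → ℝ} (hQ : ∀ z : ℂ, z ≠ 0 → ContDiffAt ℝ 1 Q z) {z : ℂ} (hz : z ≠ 0) (v : ℂ) :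
    fderiv ℝ (cu N Q) z v = XX (N * ‖z‖ ^ 2) * fderiv ℝ Q z v +
      deriv XX (N * ‖z‖ ^ 2) * (N * (2 * ip z v)) * Q z := by
  have h1 : DifferentiableAt ℝ (fun z : ℂ => XX (N * ‖z‖ ^ 2)) z := (cut_smooth N).differentiable (by simp) z
  have h2 : DifferentiableAt ℝ Q z := (hQ z hz).differentiableAt (by simp)
  have h3 : fderiv ℝ (cu N Q) z = _ := fderiv_mul h1 h2
  rw [h3, ← cut_hasFD]
  simp only [ContinuousLinearMap.add_apply, ContinuousLinearMap.smul_apply, smul_eq_mul]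
  ring

theorem stokes (P Q : ℂ → ℝ) (R L : ℝ) (hP : ∀ z : ℂ, z ≠ 0 → ContDiffAt ℝ 1 P z)
    (hQ : ∀ z : ℂ, z ≠ 0 → ContDiffAt ℝ 1 Q z) (hPR : ∀ z : ℂ, R ≤ ‖z‖ → P z = 0)
    (hQR : ∀ z : ℂ, R ≤ ‖z‖ → Q z = 0)
    (hL : Tendsto (fun z : ℂ => z.re * Q z - z.im * P z) (𝓝[≠] 0) (𝓝 L))
    (hint : Integrable fun z : ℂ => fderiv ℝ Q z 1 - fderiv ℝ P z Complex.I) :
    ∫ z : ℂ, (fderiv ℝ Q z 1 - fderiv ℝ P z Complex.I) = -(2 * π * L) := by
  set D : ℂ → ℝ := fun z => fderiv ℝ Q z 1 - fderiv ℝ P z Complex.I with hD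
  set κ : ℂ → ℝ := fun z => z.re * Q z - z.im * P z with hκ
  have hne : ∀ᵐ z : ℂ, z ≠ 0 := by
    rw [ae_iff]
    simp
  -- the identity with the cut-off
  have key : ∀ N : ℝ, 0 < N → Integrable (fun z : ℂ => XX (N * ‖z‖ ^ 2) * D z) ∧
      Integrable (fun z : ℂ => 2 * N * deriv XX (N * ‖z‖ ^ 2) * κ z) ∧
      ∫ z : ℂ, XX (N * ‖z‖ ^ 2) * D z = -∫ z : ℂ, 2 * N * deriv XX (N * ‖z‖ ^ 2) * κ z := by
    intro N hN
    have a1 := int_fd (cu_contDiff hN hQ) (cu_supp (N := N) hQR) 1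
    have a2 := int_fd (cu_contDiff hN hP) (cu_supp (N := N) hPR) Complex.I
    have a3 : Integrable (fun z : ℂ => fderiv ℝ (cu N Q) z 1 - fderiv ℝ (cu N P) z Complex.I) := a1.1.sub a2.1
    have a4 : ∫ z : ℂ, (fderiv ℝ (cu N Q) z 1 - fderiv ℝ (cu N P) z Complex.I) = 0 := by
      rw [integral_sub a1.1 a2.1, a1.2, a2.2, sub_zero]
    have a5 : Integrable (fun z : ℂ => XX (N * ‖z‖ ^ 2) * D z) := by
      refine hint.bdd_mul (c := 1) (cut_smooth N).continuous.aestronglyMeasurable ?_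
      filter_upwards with z
      rw [Real.norm_of_nonneg (XX_nonneg _)]
      exact XX_le _
    have a6 : (fun z : ℂ => fderiv ℝ (cu N Q) z 1 - fderiv ℝ (cu N P) z Complex.I) =ᵐ[volume]
        fun z => XX (N * ‖z‖ ^ 2) * D z + 2 * N * deriv XX (N * ‖z‖ ^ 2) * κ z := by
      filter_upwards [hne] with z hz
      rw [cu_fd hQ hz, cu_fd hP hz]
      simp only [hD, hκ, ip, Complex.one_re, Complex.one_im, Complex.I_re, Complex.I_im]
      ring
    have a7 : Integrable (fun z : ℂ => XX (N * ‖z‖ ^ 2) * D z + 2 * N * deriv XX (N * ‖z‖ ^ 2) * κ z) :=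
      a3.congr a6
    have a8 : Integrable (fun z : ℂ => 2 * N * deriv XX (N * ‖z‖ ^ 2) * κ z) := by
      have := a7.sub a5
      refine this.congr (Eventually.of_forall fun z => ?_)
      simp only [Pi.sub_apply]
      ring
    refine ⟨a5, a8, ?_⟩
    rw [integral_congr_ae a6, integral_add a5 a8] at a4
    linarith
  -- the sequence of cut-offs
  have hN : ∀ n : ℕ, (0 : ℝ) < ((n : ℝ) + 1) ^ 2 := fun n => by positivity
  have lim1 : Tendsto (fun n : ℕ => ∫ z : ℂ, XX (((n : ℝ) + 1) ^ 2 * ‖z‖ ^ 2) * D z) atTop (𝓝 (∫ z, D z)) := by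
    refine tendsto_integral_of_dominated_convergence (fun z => ‖D z‖) (fun n => (key _ (hN n)).1.1) hint.norm
      (fun n => ?_) ?_
    · filter_upwards with z
      rw [norm_mul, Real.norm_of_nonneg (XX_nonneg _)]
      exact mul_le_of_le_one_left (norm_nonneg _) (XX_le _)
    · filter_upwards [hne] with z hz
      have hz' : 0 < ‖z‖ := norm_pos_iff.mpr hz
      obtain ⟨m, hm⟩ := exists_nat_gt (1 / ‖z‖)
      refine tendsto_const_nhds.congr' ?_
      filter_upwards [eventually_ge_atTop m] with n hn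
      have h1 : 1 ≤ ((n : ℝ) + 1) * ‖z‖ := by
        have h2 : 1 / ‖z‖ ≤ (n : ℝ) + 1 := by
          have : (m : ℝ) ≤ n := by exact_mod_cast hn
          linarith
        rwa [div_le_iff₀ hz'] at h2
      rw [XX_one, one_mul]
      rw [← mul_pow]
      exact one_le_pow₀ h1
  have lim2 : Tendsto (fun n : ℕ => ∫ z : ℂ, 2 * ((n : ℝ) + 1) ^ 2 * deriv XX (((n : ℝ) + 1) ^ 2 * ‖z‖ ^ 2) * κ z)
      atTop (𝓝 (∫ y : ℂ, 2 * deriv XX (‖y‖ ^ 2) * L)) := by
    have e1 : ∀ n : ℕ, ∫ z : ℂ, 2 * ((n : ℝ) + 1) ^ 2 * deriv XX (((n : ℝ) + 1) ^ 2 * ‖z‖ ^ 2) * κ z =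
        ∫ y : ℂ, 2 * deriv XX (‖y‖ ^ 2) * κ (((n : ℝ) + 1)⁻¹ • y) := by
      intro n
      have h1 := Measure.integral_comp_smul_of_nonneg (μ := (volume : Measure ℂ))
        (fun z : ℂ => 2 * ((n : ℝ) + 1) ^ 2 * deriv XX (((n : ℝ) + 1) ^ 2 * ‖z‖ ^ 2) * κ z) (((n : ℝ) + 1)⁻¹)
        (hR := by positivity)
      rw [Complex.finrank_real_complex, inv_pow, inv_inv, smul_eq_mul] at h1
      have h2 : ∀ y : ℂ, 2 * ((n : ℝ) + 1) ^ 2 * deriv XX (((n : ℝ) + 1) ^ 2 * ‖((n : ℝ) + 1)⁻¹ • y‖ ^ 2) *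
          κ (((n : ℝ) + 1)⁻¹ • y) = ((n : ℝ) + 1) ^ 2 * (2 * deriv XX (‖y‖ ^ 2) * κ (((n : ℝ) + 1)⁻¹ • y)) := by
        intro y
        have h3 : ((n : ℝ) + 1) ^ 2 * ‖((n : ℝ) + 1)⁻¹ • y‖ ^ 2 = ‖y‖ ^ 2 := by
          rw [norm_smul, Real.norm_of_nonneg (by positivity)]
          field_simp
        rw [h3]
        ring
      simp only [h2] at h1
      rw [integral_const_mul] at h1
      have h4 := (hN n).ne'
      exact (mul_left_cancel₀ h4 h1).symm
    simp only [e1]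
    -- a bound for `κ` near `0`
    obtain ⟨ε, hε, hb⟩ : ∃ ε > 0, ∀ z : ℂ, z ≠ 0 → ‖z‖ < ε → |κ z| ≤ |L| + 1 := by
      have h1 : ∀ᶠ z in 𝓝[≠] (0 : ℂ), |κ z| < |L| + 1 := by
        have := hL.abs
        exact this.eventually_lt_const (by linarith)
      rw [eventually_nhdsWithin_iff, Metric.eventually_nhds_iff] at h1
      obtain ⟨ε, hε, h⟩ := h1
      exact ⟨ε, hε, fun z hz hz' => (h (by simpa using hz') hz).le⟩
    obtain ⟨m, hm⟩ := exists_nat_gt (1 / ε)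
    have hsc : ∀ n : ℕ, m ≤ n → ∀ y : ℂ, ‖y‖ ≤ 1 → ‖((n : ℝ) + 1)⁻¹ • y‖ < ε := by
      intro n hn y hy
      have hn0 : (0 : ℝ) < (n : ℝ) + 1 := by positivity
      rw [norm_smul, Real.norm_of_nonneg (by positivity)]
      have h2 : 1 / ε < (n : ℝ) + 1 := by
        have : (m : ℝ) ≤ n := by exact_mod_cast hn
        linarith
      rw [div_lt_iff₀ hε] at h2
      rw [inv_mul_lt_iff₀ hn0]
      linarith
    have hcs : HasCompactSupport fun y : ℂ => 2 * |deriv XX (‖y‖ ^ 2)| * (|L| + 1) := by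
      refine HasCompactSupport.of_support_subset_isCompact (isCompact_closedBall (0 : ℂ) 1) ?_
      intro z hz
      rw [Metric.mem_closedBall, dist_zero_right]
      by_contra hc
      apply hz
      have : 1 < ‖z‖ ^ 2 := one_lt_pow₀ (by linarith) (by norm_num)
      show 2 * |deriv XX (‖z‖ ^ 2)| * (|L| + 1) = 0
      rw [dXX_zero this]
      simp
    have hcc : Continuous fun y : ℂ => 2 * |deriv XX (‖y‖ ^ 2)| * (|L| + 1) :=
      (continuous_const.mul (dXX_cont.comp (by fun_prop)).abs).mul continuous_const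
    refine tendsto_integral_filter_of_dominated_convergence (fun y : ℂ => 2 * |deriv XX (‖y‖ ^ 2)| * (|L| + 1))
      ?_ ?_ (hcc.integrable_of_hasCompactSupport hcs) ?_
    · refine Eventually.of_forall fun n => ?_
      have h1 := (key _ (hN n)).2.1.comp_smul (R := ((n : ℝ) + 1)⁻¹) (by positivity)
      have h2 := h1.1.const_mul (((n : ℝ) + 1) ^ 2)⁻¹
      refine h2.congr (Eventually.of_forall fun y => ?_)
      have h3 : ((n : ℝ) + 1) ^ 2 * ‖((n : ℝ) + 1)⁻¹ • y‖ ^ 2 = ‖y‖ ^ 2 := by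
        rw [norm_smul, Real.norm_of_nonneg (by positivity)]
        field_simp
      show (((n : ℝ) + 1) ^ 2)⁻¹ * (2 * ((n : ℝ) + 1) ^ 2 * deriv XX (((n : ℝ) + 1) ^ 2 * ‖((n : ℝ) + 1)⁻¹ • y‖ ^ 2) *
          κ (((n : ℝ) + 1)⁻¹ • y)) = _
      rw [h3]
      have h4 := (hN n).ne'
      field_simp
    · filter_upwards [eventually_ge_atTop m] with n hn
      filter_upwards [hne] with y hy
      rw [norm_mul, norm_mul, Real.norm_eq_abs, Real.norm_eq_abs, Real.norm_eq_abs, abs_two]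
      by_cases h1 : ‖y‖ ≤ 1
      · refine mul_le_mul_of_nonneg_left (hb _ ?_ (hsc n hn y h1)) (by positivity)
        exact smul_ne_zero (by positivity) hy
      · have : 1 < ‖y‖ ^ 2 := one_lt_pow₀ (by linarith) (by norm_num)
        rw [dXX_zero this]
        simp
    · filter_upwards [hne] with y hy
      refine Tendsto.const_mul _ ?_
      refine hL.comp ?_
      rw [tendsto_nhdsWithin_iff]
      constructor
      · have h1 : Tendsto (fun n : ℕ => ((n : ℝ) + 1)⁻¹) atTop (𝓝 0) := by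
          simpa using tendsto_one_div_add_atTop_nhds_zero_nat (𝕜 := ℝ)
        have := h1.smul_const y
        simpa using this
      · exact Eventually.of_forall fun n => smul_ne_zero (by positivity) hy
  have e2 : ∫ y : ℂ, 2 * deriv XX (‖y‖ ^ 2) * L = 2 * π * L := by
    have h1 := cut_integral_gen XX (XX_smooth.of_le (by simp)) 1 zero_le_one 1 (fun t ht => XX_one ht)
    rw [XX_zero (by norm_num), sub_zero, mul_one] at h1
    have h2 : ∀ y : ℂ, 2 * deriv XX (‖y‖ ^ 2) * L = (2 * L) * deriv XX (‖y‖ ^ 2) := fun y => by ring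
    simp only [h2]
    rw [integral_const_mul, h1]
    ring
  have e3 : ∀ n : ℕ, ∫ z : ℂ, XX (((n : ℝ) + 1) ^ 2 * ‖z‖ ^ 2) * D z =
      -∫ z : ℂ, 2 * ((n : ℝ) + 1) ^ 2 * deriv XX (((n : ℝ) + 1) ^ 2 * ‖z‖ ^ 2) * κ z :=
    fun n => (key _ (hN n)).2.2
  simp only [e3] at lim1
  rw [e2] at lim2
  exact tendsto_nhds_unique lim1 lim2.neg

end GO3.I
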