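import Pool.Agent.GO3.I.InsAdm
import Pool.Agent.GO3.I.Dzu
import Pool.Agent.GO3.I.Stk
import Pool.Agent.GO3.I.Lim
import Pool.Agent.GO3.I.Loc
import Pool.Agent.GO3.I.Pw

/-! # Dif: the energy difference `E(c') - E(c) = 4 π + ∫ DD` -/

open MeasureTheory Filter Topology Set
open scoped ContDiff Real

noncomputable section

namespace GO3.I

variable {n : ℕ} {c : Cf} {Xi : ℝ → ℝ} {s l : ℝ}

theorem ip_smooth {A : ℂ → ℂ} (hA : ContDiff ℝ ∞ A) (v : ℂ) :
    ContDiff ℝ ∞ (fun y => ip (A y) v) := by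
  unfold ip
  have h1 : ContDiff ℝ ∞ fun y => (A y).re := Complex.reCLM.contDiff.comp hA
  have h2 : ContDiff ℝ ∞ fun y => (A y).im := Complex.imCLM.contDiff.comp hA
  exact (h1.mul contDiff_const).add (h2.mul contDiff_const)

theorem Du_smooth {A u : ℂ → ℂ} (hA : ContDiff ℝ ∞ A) (z : ℂ) (hu : ContDiffAt ℝ ∞ u z) (v : ℂ) :
    ContDiffAt ℝ ∞ (fun y => Du A u y v) z := by
  unfold Du
  have h1 : ContDiffAt ℝ ∞ (fun y => fderiv ℝ u y v) z := by
    have h2 : ContDiffAt ℝ ∞ (fderiv ℝ u) z := hu.fderiv_right (by norm_cast)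
    exact h2.clm_apply contDiffAt_const
  have h3 : ContDiffAt ℝ ∞ (fun y => ((ip (A y) v : ℝ) : ℂ)) z :=
    (Complex.ofRealCLM.contDiff.comp (ip_smooth hA v)).contDiffAt
  exact h1.sub ((contDiffAt_const.mul h3).mul hu)

theorem eta_smooth {A u : ℂ → ℂ} (hA : ContDiff ℝ ∞ A) (z : ℂ) (hu : ContDiffAt ℝ ∞ u z) (v : ℂ) :
    ContDiffAt ℝ ∞ (fun y => eta A u y v) z := by
  unfold eta
  have h1 := Du_smooth hA z hu v
  have h2 : ContDiffAt ℝ ∞ (fun y => star (u y)) z := by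
    have := (Complex.conjCLE.contDiff (n := ∞)).contDiffAt (x := u z)
    exact this.comp z hu
  have h3 : ContDiffAt ℝ ∞ (fun y => (star (u y) * Du A u y v).im) z :=
    (Complex.imCLM.contDiff.contDiffAt).comp z (h2.mul h1)
  have h4 : ContDiffAt ℝ ∞ (fun y => 1 + ‖u y‖ ^ 2) z := contDiffAt_const.add (hu.norm_sq ℝ)
  refine (contDiffAt_const.mul h3).div h4 ?_
  positivity

theorem uu_ev (hX : Cut Xi s) (z : ℂ) (hz : s ^ 2 / 2 < ‖z‖ ^ 2) :
    uu c Xi l =ᶠ[𝓝 z] u0 c := by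
  have h1 : ∀ᶠ y : ℂ in 𝓝 z, s ^ 2 / 2 < ‖y‖ ^ 2 := by
    have : Continuous fun y : ℂ => ‖y‖ ^ 2 := by fun_prop
    exact (this.tendsto z).eventually (lt_mem_nhds hz)
  filter_upwards [h1] with y hy
  unfold uu
  rw [hX.zero _ hy.le]
  simp

theorem eta_out (hX : Cut Xi s) (z v : ℂ) (hz : s ^ 2 / 2 < ‖z‖ ^ 2) :
    eta c.A (uu c Xi l) z v - eta c.A (u0 c) z v = 0 := by
  have h1 := uu_ev (c := c) (l := l) hX z hz
  unfold eta Du
  rw [h1.fderiv_eq, h1.eq_of_nhds]
  ring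

/-- the difference of the two one-forms -/
def bet (c : Cf) (Xi : ℝ → ℝ) (s l : ℝ) (v z : ℂ) : ℝ :=
  if ‖z‖ < s then eta c.A (uu c Xi l) z v - eta c.A (u0 c) z v else 0

theorem bet_in (v z : ℂ) (hz : ‖z‖ < s) : bet c Xi s l v =ᶠ[𝓝 z]
    fun y => eta c.A (uu c Xi l) y v - eta c.A (u0 c) y v := by
  have h1 : ∀ᶠ y : ℂ in 𝓝 z, ‖y‖ < s := (continuous_norm.tendsto z).eventually (gt_mem_nhds hz)
  filter_upwards [h1] with y hy
  simp [bet, hy]

theorem bet_out (hX : Cut Xi s) (v z : ℂ) (hz : s ^ 2 / 2 < ‖z‖ ^ 2) :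
    bet c Xi s l v =ᶠ[𝓝 z] fun _ => 0 := by
  have h1 : ∀ᶠ y : ℂ in 𝓝 z, s ^ 2 / 2 < ‖y‖ ^ 2 := by
    have : Continuous fun y : ℂ => ‖y‖ ^ 2 := by fun_prop
    exact (this.tendsto z).eventually (lt_mem_nhds hz)
  filter_upwards [h1] with y hy
  unfold bet
  split_ifs
  · exact eta_out hX y v hy
  · rfl

theorem sq_of_le (hs : 0 < s) (z : ℂ) (hz : s ≤ ‖z‖) : s ^ 2 / 2 < ‖z‖ ^ 2 := by
  nlinarith [hs, hz, norm_nonneg z, mul_pos hs hs]

theorem bet_smooth (hc : c.Adm n) (hs : Near c s) (hX : Cut Xi s) (v z : ℂ) (h0 : z ≠ 0) :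
    ContDiffAt ℝ 1 (bet c Xi s l v) z := by
  rcases lt_or_ge ‖z‖ s with h | h
  · have h1 : ContDiffAt ℝ 1 (fun y => eta c.A (uu c Xi l) y v - eta c.A (u0 c) y v) z :=
      ((eta_smooth hc.sA z (uu_smooth hc hs hX z h.le h0) v).sub
        (eta_smooth hc.sA z (u0_smooth hc hs z h.le) v)).of_le (by exact_mod_cast le_top)
    exact h1.congr_of_eventuallyEq (bet_in v z h)
  · have h1 : ContDiffAt ℝ 1 (fun _ : ℂ => (0 : ℝ)) z := contDiffAt_const
    exact h1.congr_of_eventuallyEq (bet_out hX v z (sq_of_le hs.pos z h))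

theorem Dz_cont (hc : c.Adm n) (hs : Near c s) :
    ContinuousOn (Dz c.A (u0 c)) (Metric.closedBall (0 : ℂ) s) := by
  intro z hz
  have hz' : ‖z‖ ≤ s := by simpa using hz
  have hu := u0_smooth hc hs z hz'
  have h1 := (Du_smooth hc.sA z hu 1).continuousAt
  have h2 := (Du_smooth hc.sA z hu Complex.I).continuousAt
  unfold Dz
  exact (((h1.sub (continuousAt_const.mul h2)).div_const 2)).continuousWithinAt

theorem u0_cont (hc : c.Adm n) (hs : Near c s) :
    ContinuousOn (u0 c) (Metric.closedBall (0 : ℂ) s) := by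
  intro z hz
  have hz' : ‖z‖ ≤ s := by simpa using hz
  exact (u0_smooth hc hs z hz').continuousAt.continuousWithinAt

theorem F_cont (hc : c.Adm n) : Continuous c.F := by
  unfold Cf.F
  have h1 : Continuous fun z => fderiv ℝ c.A z 1 :=
    (hc.sA.continuous_fderiv (by simp)).clm_apply continuous_const
  have h2 : Continuous fun z => fderiv ℝ c.A z Complex.I :=
    (hc.sA.continuous_fderiv (by simp)).clm_apply continuous_const
  exact (Complex.continuous_im.comp h1).sub (Complex.continuous_re.comp h2)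

theorem kf_cont : Continuous kf := by
  unfold kf
  refine Continuous.div (by fun_prop) (by fun_prop) ?_
  intro x
  positivity

theorem gf_cont : Continuous gf := by
  unfold gf
  refine Continuous.div (by fun_prop) (by fun_prop) ?_
  intro x
  positivity

theorem DD_int (hc : c.Adm n) (hs : Near c s) (hX : Cut Xi s) (G : ℂ → ℝ)
    (hG : ContDiff ℝ ∞ G) :
    IntegrableOn (DD (Dz c.A (u0 c)) (u0 c) c.F G Xi l) (Metric.ball (0 : ℂ) s) := by
  have hdX : Continuous (deriv Xi) := hX.sm.continuous_deriv (by simp)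
  have hXc : Continuous Xi := hX.sm.continuous
  have hn2 : Continuous fun z : ℂ => ‖z‖ ^ 2 := by fun_prop
  have hk : Continuous fun z : ℂ => deriv Xi (‖z‖ ^ 2) - G z * Xi (‖z‖ ^ 2) / 2 :=
    (hdX.comp hn2).sub (((hG.continuous).mul (hXc.comp hn2)).div_const 2)
  set a := Dz c.A (u0 c) with ha
  have hac : ContinuousOn a (Metric.closedBall (0 : ℂ) s) := Dz_cont hc hs
  have huc := u0_cont hc hs
  have hFc := F_cont hc
  -- the bound
  have hB : IntegrableOn (fun z => 16 * ‖a z‖ ^ 2 +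
      16 * l ^ 2 * (deriv Xi (‖z‖ ^ 2) - G z * Xi (‖z‖ ^ 2) / 2) ^ 2 + 8 * ‖a z‖ ^ 2
        + 2 * |c.F z| + 2) (Metric.ball (0 : ℂ) s) := by
    have h1 : ContinuousOn (fun z => 16 * ‖a z‖ ^ 2 +
      16 * l ^ 2 * (deriv Xi (‖z‖ ^ 2) - G z * Xi (‖z‖ ^ 2) / 2) ^ 2 + 8 * ‖a z‖ ^ 2
        + 2 * |c.F z| + 2) (Metric.closedBall (0 : ℂ) s) := by
      have h2 : ContinuousOn (fun z => ‖a z‖ ^ 2) (Metric.closedBall (0 : ℂ) s) :=
        hac.norm.pow 2
      have h3 : ContinuousOn (fun z : ℂ => (deriv Xi (‖z‖ ^ 2) - G z * Xi (‖z‖ ^ 2) / 2) ^ 2)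
          (Metric.closedBall (0 : ℂ) s) := (hk.pow 2).continuousOn
      have h4 : ContinuousOn (fun z : ℂ => |c.F z|) (Metric.closedBall (0 : ℂ) s) :=
        hFc.abs.continuousOn
      exact ((((h2.const_smul (16 : ℝ)).add (h3.const_smul (16 * l ^ 2))).add
        (h2.const_smul (8 : ℝ))).add (h4.const_smul (2 : ℝ))).add continuousOn_const
    exact (h1.integrableOn_compact (isCompact_closedBall 0 s)).mono_set
      Metric.ball_subset_closedBall
  refine Integrable.mono' hB ?_ ?_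
  · have hset : (Metric.ball (0 : ℂ) s \ {0} : Set ℂ) =ᵐ[volume] Metric.ball (0 : ℂ) s :=
      sdiff_null_ae_eq_self (by simp)
    rw [← Measure.restrict_congr_set hset]
    refine ContinuousOn.aestronglyMeasurable ?_ (measurableSet_ball.diff (measurableSet_singleton 0))
    have hsub : (Metric.ball (0 : ℂ) s \ {0} : Set ℂ) ⊆ Metric.closedBall (0 : ℂ) s :=
      sdiff_subset.trans Metric.ball_subset_closedBall
    have ha1 := hac.mono hsub
    have hu1 := huc.mono hsub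
    have ht1 : ContinuousOn (fun z : ℂ => ((l * Xi (‖z‖ ^ 2) : ℝ) : ℂ) / star z)
        (Metric.ball (0 : ℂ) s \ {0} : Set ℂ) := by
      refine ContinuousOn.div ?_ ?_ ?_
      · exact (Complex.continuous_ofReal.comp (continuous_const.mul (hXc.comp hn2))).continuousOn
      · exact continuous_star.continuousOn
      · intro z hz
        simpa using hz.2
    have hg1 : ContinuousOn (fun z : ℂ => gf (u0 c z +
        ((l * Xi (‖z‖ ^ 2) : ℝ) : ℂ) / star z)) (Metric.ball (0 : ℂ) s \ {0} : Set ℂ) :=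
      gf_cont.comp_continuousOn (hu1.add ht1)
    have hg2 : ContinuousOn (fun z : ℂ => gf (u0 c z)) (Metric.ball (0 : ℂ) s \ {0} : Set ℂ) :=
      gf_cont.comp_continuousOn hu1
    have hk1 : ContinuousOn (fun z : ℂ => kf (u0 c z +
        ((l * Xi (‖z‖ ^ 2) : ℝ) : ℂ) / star z)) (Metric.ball (0 : ℂ) s \ {0} : Set ℂ) :=
      kf_cont.comp_continuousOn (hu1.add ht1)
    have hk2 : ContinuousOn (fun z : ℂ => kf (u0 c z)) (Metric.ball (0 : ℂ) s \ {0} : Set ℂ) :=
      kf_cont.comp_continuousOn hu1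
    have hkk : ContinuousOn (fun z : ℂ =>
        ((l * (deriv Xi (‖z‖ ^ 2) - G z * Xi (‖z‖ ^ 2) / 2) : ℝ) : ℂ))
        (Metric.ball (0 : ℂ) s \ {0} : Set ℂ) :=
      (Complex.continuous_ofReal.comp (continuous_const.mul hk)).continuousOn
    unfold DD dd
    exact (((((continuousOn_const.mul ((ha1.add hkk).norm.pow 2)).mul hg1).sub
      ((continuousOn_const.mul (ha1.norm.pow 2)).mul hg2)).sub
      ((continuousOn_const.mul hFc.continuousOn).mul (hk1.sub hk2))).add
      (continuousOn_const.mul ((hk1.pow 2).sub (hk2.pow 2))))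
  · refine ae_of_all _ fun z => ?_
    rw [Real.norm_eq_abs]
    exact dd_abs _ _ _ _ _ _

theorem dens_eq (c : Cf) (z : ℂ) :
    1 / 2 * c.dens z = (1 / 2 * c.grad z + 1 / 2 * (1 - c.h z) ^ 2) + 1 / 2 * c.F z ^ 2 := by
  unfold Cf.dens
  ring

theorem dif_pt (hc : c.Adm n) (hs : Near c s) (hX : Cut Xi s) (G : ℂ → ℝ)
    (hA : ∀ z, c.A z = Complex.I * z * (G z : ℂ)) (z : ℂ) (h0 : z ≠ 0) :
    1 / 2 * (ins c Xi s l).dens z - 1 / 2 * c.dens z =
      (Metric.ball (0 : ℂ) s).indicator (DD (Dz c.A (u0 c)) (u0 c) c.F G Xi l) z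
        - (fderiv ℝ (bet c Xi s l Complex.I) z 1 - fderiv ℝ (bet c Xi s l 1) z Complex.I) := by
  rcases lt_or_ge ‖z‖ s with h | h
  · have hin : z ∈ Metric.ball (0 : ℂ) s := by simpa using h
    rw [indicator_of_mem hin]
    have hu := uu_smooth (l := l) hc hs hX z h.le h0
    have hv := u0_smooth hc hs z h.le
    have hAd : DifferentiableAt ℝ c.A z := (hc.sA.differentiable (by simp)).differentiableAt
    have e1 := loc (ins c Xi s l) (uu c Xi l) z (hu.of_le (by norm_cast)) hAd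
      (ins_w_ev z h h0) (ins_h_ev z h h0)
    have e2 := loc c (u0 c) z (hv.of_le (by norm_cast)) hAd
      (c_w_ev hc hs z h) (c_h_ev hc hs z h)
    have e3 : (ins c Xi s l).F z = c.F z := rfl
    have e4 : (ins c Xi s l).A = c.A := rfl
    rw [e3, e4, Dz_uu hc hs hX G hA z h h0] at e1
    have hd1 : ∀ v, DifferentiableAt ℝ (fun y => eta c.A (uu c Xi l) y v) z := fun v =>
      (eta_smooth hc.sA z hu v).differentiableAt (by simp)
    have hd2 : ∀ v, DifferentiableAt ℝ (fun y => eta c.A (u0 c) y v) z := fun v =>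
      (eta_smooth hc.sA z hv v).differentiableAt (by simp)
    have e5 : ∀ v w : ℂ, fderiv ℝ (bet c Xi s l v) z w =
        fderiv ℝ (fun y => eta c.A (uu c Xi l) y v) z w
          - fderiv ℝ (fun y => eta c.A (u0 c) y v) z w := by
      intro v w
      rw [(bet_in v z h).fderiv_eq, fderiv_fun_sub (hd1 v) (hd2 v)]
      rfl
    rw [e5, e5, dens_eq, dens_eq, e1, e2, e3]
    unfold DD dd curl uu
    ring
  · have hz2 := sq_of_le hs.pos z h
    have hout : z ∉ Metric.ball (0 : ℂ) s := by simpa using h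
    rw [indicator_of_notMem hout, ins_dens_out hc hs hX z hz2,
      (bet_out hX Complex.I z hz2).fderiv_eq, (bet_out hX 1 z hz2).fderiv_eq]
    simp

theorem dif (hc : c.Adm n) (hs : Near c s) (hX : Cut Xi s) (hl : l ≠ 0) (G : ℂ → ℝ)
    (hG : ContDiff ℝ ∞ G) (hA : ∀ z, c.A z = Complex.I * z * (G z : ℂ)) :
    (ins c Xi s l).E = c.E + 4 * π +
      ∫ z in Metric.ball (0 : ℂ) s, DD (Dz c.A (u0 c)) (u0 c) c.F G Xi l z := by
  have hDD := DD_int (l := l) hc hs hX G hG
  have hDI : Integrable ((Metric.ball (0 : ℂ) s).indicator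
      (DD (Dz c.A (u0 c)) (u0 c) c.F G Xi l)) := hDD.integrable_indicator measurableSet_ball
  have hd' := (ins_adm hc hs hX hl).fin
  have hd := hc.fin
  have hae : ∀ᵐ z : ℂ, z ≠ 0 := by
    have : ({0} : Set ℂ)ᶜ ∈ ae (volume : Measure ℂ) := compl_mem_ae_iff.mpr (by simp)
    exact this
  have hcurl : (fun z : ℂ => fderiv ℝ (bet c Xi s l Complex.I) z 1
      - fderiv ℝ (bet c Xi s l 1) z Complex.I) =ᵐ[volume] fun z =>
      (Metric.ball (0 : ℂ) s).indicator (DD (Dz c.A (u0 c)) (u0 c) c.F G Xi l) z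
        - (1 / 2 * (ins c Xi s l).dens z - 1 / 2 * c.dens z) := by
    filter_upwards [hae] with z hz
    have := dif_pt (l := l) hc hs hX G hA z hz
    linarith
  have hsum : Integrable (fun z : ℂ =>
      (Metric.ball (0 : ℂ) s).indicator (DD (Dz c.A (u0 c)) (u0 c) c.F G Xi l) z
        - (1 / 2 * (ins c Xi s l).dens z - 1 / 2 * c.dens z)) :=
    hDI.sub ((hd'.const_mul _).sub (hd.const_mul _))
  have hint : Integrable (fun z : ℂ => fderiv ℝ (bet c Xi s l Complex.I) z 1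
      - fderiv ℝ (bet c Xi s l 1) z Complex.I) := hsum.congr hcurl.symm
  have hst := stokes (bet c Xi s l 1) (bet c Xi s l Complex.I) s 2
    (fun z hz => bet_smooth hc hs hX 1 z hz) (fun z hz => bet_smooth hc hs hX Complex.I z hz)
    (fun z hz => by simp [bet, not_lt.mpr hz]) (fun z hz => by simp [bet, not_lt.mpr hz]) ?_ hint
  · have hsub : Integrable (fun z : ℂ => 1 / 2 * (ins c Xi s l).dens z - 1 / 2 * c.dens z) :=
      (hd'.const_mul _).sub (hd.const_mul _)
    rw [integral_congr_ae hcurl, integral_sub hDI hsub,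
      integral_sub (hd'.const_mul _) (hd.const_mul _), integral_const_mul, integral_const_mul,
      integral_indicator measurableSet_ball] at hst
    unfold Cf.E
    linarith
  · have h1 := (lim_uu (l := l) hc hs hX hl).sub (lim_u0 hc hs)
    rw [sub_zero] at h1
    refine h1.congr' ?_
    have h2 : ∀ᶠ z : ℂ in 𝓝[≠] 0, ‖z‖ < s := by
      refine nhdsWithin_le_nhds ?_
      exact (continuous_norm.tendsto (0 : ℂ)).eventually (gt_mem_nhds (by simpa using hs.pos))
    filter_upwards [h2] with z hz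
    rw [← eta_lin, ← eta_lin]
    simp only [bet, if_pos hz]
    ring

end GO3.I
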