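import Pool.Agent.GO3.I.Ster

/-! # InsAdm: the configuration with the inserted anti-lump is admissible

PROOF. Smooth: on the open ball `‖z‖ < s` the defining formulas are smooth (`qq_smooth`, `qq_pos`); on the open set
`s²/2 < ‖z‖²` one has `ins = c` (`ins_out`); the two sets cover `ℂ`. Unit: `|2 q z|² + (|z|²-|q|²)² = (|z|²+|q|²)²`.
Symmetry: `u0 (ζ z) = ζ u0 z` and `star (ζ z) = star ζ · star z`, `|ζ| = 1`, so `q (ζ z) = q z`; `u0 (star z) = star (u0 z)`, so
`q (star z) = star (q z)`; `‖ζ z‖ = ‖star z‖ = ‖z‖`. Energy: `dens` of `ins` is continuous and equals `c.dens` on the open set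
`s²/2 < ‖z‖²`, so it is integrable. `h 0 = -1`: at `0`, `|q|² = l² > 0`. -/

open MeasureTheory Filter Topology Set
open scoped ContDiff Real

noncomputable section

namespace GO3.I

variable {n : ℕ} {c : Cf} {Xi : ℝ → ℝ} {s l : ℝ}

private lemma far99 (hs : 0 < s) {z : ℂ} (hz : ¬ ‖z‖ < s) : s ^ 2 / 2 < ‖z‖ ^ 2 := by
  push Not at hz
  have h1 : s ^ 2 ≤ ‖z‖ ^ 2 := by gcongr
  have h2 : 0 < s ^ 2 := by positivity
  linarith

private lemma far_open99 (s : ℝ) : IsOpen {y : ℂ | s ^ 2 / 2 < ‖y‖ ^ 2} :=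
  isOpen_lt continuous_const (continuous_norm.pow 2)

private lemma ins_ev99 (hc : c.Adm n) (hs : Near c s) (hX : Cut Xi s) {z : ℂ}
    (hz : s ^ 2 / 2 < ‖z‖ ^ 2) :
    (ins c Xi s l).w =ᶠ[𝓝 z] c.w ∧ (ins c Xi s l).h =ᶠ[𝓝 z] c.h := by
  constructor
  · filter_upwards [(far_open99 s).mem_nhds hz] with y hy
    exact (ins_out hc hs hX y (le_of_lt hy)).1
  · filter_upwards [(far_open99 s).mem_nhds hz] with y hy
    exact (ins_out hc hs hX y (le_of_lt hy)).2

private lemma dens_cont99 (d : Cf) (h1 : ContDiff ℝ ∞ d.w) (h2 : ContDiff ℝ ∞ d.h)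
    (h3 : ContDiff ℝ ∞ d.A) : Continuous d.dens := by
  have f1 : Continuous (fderiv ℝ d.w) := h1.continuous_fderiv (by simp)
  have f2 : Continuous (fderiv ℝ d.h) := h2.continuous_fderiv (by simp)
  have f3 : Continuous (fderiv ℝ d.A) := h3.continuous_fderiv (by simp)
  have g1 : ∀ v : ℂ, Continuous fun z => fderiv ℝ d.w z v := fun v => f1.clm_apply continuous_const
  have g2 : ∀ v : ℂ, Continuous fun z => fderiv ℝ d.h z v := fun v => f2.clm_apply continuous_const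
  have g3 : ∀ v : ℂ, Continuous fun z => fderiv ℝ d.A z v := fun v => f3.clm_apply continuous_const
  have hip : ∀ v : ℂ, Continuous fun z => ((ip (d.A z) v : ℝ) : ℂ) := by
    intro v
    unfold ip
    have := h3.continuous
    fun_prop
  have hD : ∀ v : ℂ, Continuous fun z => d.Dw z v := by
    intro v
    unfold Cf.Dw
    exact (g1 v).sub ((continuous_const.mul (hip v)).mul h1.continuous)
  have hn : ∀ v : ℂ, Continuous fun z => d.nsq z v := by
    intro v
    unfold Cf.nsq Cf.dh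
    exact ((hD v).norm.pow 2).add ((g2 v).pow 2)
  have hF : Continuous d.F := by
    unfold Cf.F
    exact (Complex.continuous_im.comp (g3 1)).sub (Complex.continuous_re.comp (g3 Complex.I))
  have hg : Continuous d.grad := (hn 1).add (hn Complex.I)
  exact (hg.add ((continuous_const.sub h2.continuous).pow 2)).add (hF.pow 2)

private lemma ze_norm99 (n : ℕ) : ‖ze n‖ = 1 := by
  unfold ze
  have e : (2 * (π : ℂ) * Complex.I / (n : ℂ) ^ 3) =
      ((2 * π / (n : ℝ) ^ 3 : ℝ) : ℂ) * Complex.I := by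
    push_cast
    ring
  rw [e]
  exact Complex.norm_exp_ofReal_mul_I _

private lemma ze_star99 (n : ℕ) : star (ze n) * ze n = 1 := by
  have h1 : star (ze n) * ze n = ((‖ze n‖ : ℝ) : ℂ) ^ 2 := Complex.conj_mul' (ze n)
  rw [h1, ze_norm99]
  simp

private lemma qq_rot99 (hc : c.Adm n) (z : ℂ) : qq c Xi l (ze n * z) = qq c Xi l z := by
  unfold qq u0
  rw [hc.rw, hc.rh, star_mul', norm_mul, ze_norm99, one_mul]
  have h1 := ze_star99 n
  have e : star (ze n) * star z * (ze n * c.w z / ((1 + c.h z : ℝ) : ℂ)) =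
      (star (ze n) * ze n) * (star z * (c.w z / ((1 + c.h z : ℝ) : ℂ))) := by ring
  rw [e, h1, one_mul]

private lemma qq_star99 (hc : c.Adm n) (z : ℂ) : qq c Xi l (star z) = star (qq c Xi l z) := by
  unfold qq u0
  rw [hc.cw, hc.ch, norm_star, star_add, star_mul', star_star, star_div₀]
  have h1 : ∀ r : ℝ, star ((r : ℝ) : ℂ) = ((r : ℝ) : ℂ) := fun r => Complex.conj_ofReal r
  rw [h1, h1]

theorem ins_sw (hc : c.Adm n) (hs : Near c s) (hX : Cut Xi s) (hl : l ≠ 0) :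
    ContDiff ℝ ∞ (ins c Xi s l).w := by
  rw [contDiff_iff_contDiffAt]
  intro z
  by_cases hz : ‖z‖ < s
  · have ho : IsOpen {y : ℂ | ‖y‖ < s} := isOpen_lt continuous_norm continuous_const
    have hev : (ins c Xi s l).w =ᶠ[𝓝 z] fun y => 2 * qq c Xi l y * y *
        (((‖y‖ ^ 2 + ‖qq c Xi l y‖ ^ 2 : ℝ) : ℂ))⁻¹ := by
      filter_upwards [ho.mem_nhds hz] with y hy
      have hy' : ‖y‖ < s := hy
      have h1 : (ins c Xi s l).w y =
          2 * qq c Xi l y * y / ((‖y‖ ^ 2 + ‖qq c Xi l y‖ ^ 2 : ℝ) : ℂ) := if_pos hy'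
      rw [h1, div_eq_mul_inv]
    refine ContDiffAt.congr_of_eventuallyEq ?_ hev
    have hq := qq_smooth (l := l) hc hs hX z hz.le
    have hd : ContDiffAt ℝ ∞ (fun y => (((‖y‖ ^ 2 + ‖qq c Xi l y‖ ^ 2 : ℝ) : ℂ))) z :=
      Complex.ofRealCLM.contDiff.contDiffAt.comp z
        ((contDiff_norm_sq ℝ).contDiffAt.add (hq.norm_sq ℝ))
    have hp := qq_pos (c := c) hX hl z
    exact ((contDiffAt_const.mul hq).mul contDiffAt_id).mul
      (hd.inv (by exact_mod_cast hp.ne'))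
  · exact hc.sw.contDiffAt.congr_of_eventuallyEq (ins_ev99 hc hs hX (far99 hs.pos hz)).1

theorem ins_sh (hc : c.Adm n) (hs : Near c s) (hX : Cut Xi s) (hl : l ≠ 0) :
    ContDiff ℝ ∞ (ins c Xi s l).h := by
  rw [contDiff_iff_contDiffAt]
  intro z
  by_cases hz : ‖z‖ < s
  · have ho : IsOpen {y : ℂ | ‖y‖ < s} := isOpen_lt continuous_norm continuous_const
    have hev : (ins c Xi s l).h =ᶠ[𝓝 z] fun y => (‖y‖ ^ 2 - ‖qq c Xi l y‖ ^ 2) /
        (‖y‖ ^ 2 + ‖qq c Xi l y‖ ^ 2) := by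
      filter_upwards [ho.mem_nhds hz] with y hy
      have hy' : ‖y‖ < s := hy
      exact if_pos hy'
    refine ContDiffAt.congr_of_eventuallyEq ?_ hev
    have hq := qq_smooth (l := l) hc hs hX z hz.le
    have hp := qq_pos (c := c) hX hl z
    exact ((contDiff_norm_sq ℝ).contDiffAt.sub (hq.norm_sq ℝ)).div
      ((contDiff_norm_sq ℝ).contDiffAt.add (hq.norm_sq ℝ)) hp.ne'
  · exact hc.sh.contDiffAt.congr_of_eventuallyEq (ins_ev99 hc hs hX (far99 hs.pos hz)).2

theorem ins_dens_out (hc : c.Adm n) (hs : Near c s) (hX : Cut Xi s) (z : ℂ)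
    (hz : s ^ 2 / 2 < ‖z‖ ^ 2) : (ins c Xi s l).dens z = c.dens z := by
  obtain ⟨h1, h2⟩ := ins_ev99 (l := l) hc hs hX hz
  have e1 := h1.fderiv_eq (𝕜 := ℝ)
  have e2 := h2.fderiv_eq (𝕜 := ℝ)
  have e3 := h1.eq_of_nhds
  have e4 := h2.eq_of_nhds
  have hA : (ins c Xi s l).A = c.A := rfl
  unfold Cf.dens Cf.grad Cf.nsq Cf.Dw Cf.dh Cf.F
  rw [e1, e2, e3, e4, hA]

theorem ins_dens_cont (hc : c.Adm n) (hs : Near c s) (hX : Cut Xi s) (hl : l ≠ 0) :
    Continuous (ins c Xi s l).dens :=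
  dens_cont99 _ (ins_sw hc hs hX hl) (ins_sh hc hs hX hl) hc.sA

theorem ins_adm (hc : c.Adm n) (hs : Near c s) (hX : Cut Xi s) (hl : l ≠ 0) :
    (ins c Xi s l).Adm n := by
  have hzn : ∀ z, ‖ze n * z‖ = ‖z‖ := fun z => by rw [norm_mul, ze_norm99, one_mul]
  have w_in : ∀ y, ‖y‖ < s → (ins c Xi s l).w y =
      2 * qq c Xi l y * y / ((‖y‖ ^ 2 + ‖qq c Xi l y‖ ^ 2 : ℝ) : ℂ) := fun y hy => if_pos hy
  have h_in : ∀ y, ‖y‖ < s → (ins c Xi s l).h y =
      (‖y‖ ^ 2 - ‖qq c Xi l y‖ ^ 2) / (‖y‖ ^ 2 + ‖qq c Xi l y‖ ^ 2) := fun y hy => if_pos hy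
  have w_out : ∀ y, ¬ ‖y‖ < s → (ins c Xi s l).w y = c.w y := fun y hy => if_neg hy
  have h_out : ∀ y, ¬ ‖y‖ < s → (ins c Xi s l).h y = c.h y := fun y hy => if_neg hy
  refine ⟨ins_sw hc hs hX hl, ins_sh hc hs hX hl, hc.sA, ?_, ?_, ?_, ?_, hc.rA, ?_, ?_, hc.cA⟩
  · intro z
    by_cases hz : ‖z‖ < s
    · rw [w_in z hz, h_in z hz]
      have hp := qq_pos (c := c) hX hl z
      rw [norm_div, norm_mul, norm_mul, Complex.norm_real, Real.norm_eq_abs, abs_of_pos hp,
        show ‖(2 : ℂ)‖ = 2 by norm_num]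
      field_simp
      ring
    · rw [w_out z hz, h_out z hz]
      exact hc.unit z
  · have hcont := ins_dens_cont (l := l) hc hs hX hl
    have hK : IsCompact {y : ℂ | ‖y‖ ≤ s} := by
      have : {y : ℂ | ‖y‖ ≤ s} = Metric.closedBall 0 s := by
        ext y
        simp
      rw [this]
      exact isCompact_closedBall 0 s
    rw [← integrableOn_univ, ← union_compl_self {y : ℂ | ‖y‖ ≤ s}]
    refine IntegrableOn.union (hcont.continuousOn.integrableOn_compact hK) ?_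
    refine (hc.fin.integrableOn (s := {y : ℂ | ‖y‖ ≤ s}ᶜ)).congr_fun ?_
      hK.isClosed.measurableSet.compl
    intro y hy
    have hy' : ¬ ‖y‖ < s := fun h => hy (le_of_lt h)
    exact (ins_dens_out hc hs hX y (far99 hs.pos hy')).symm
  · intro z
    by_cases hz : ‖z‖ < s
    · rw [w_in z hz, w_in _ (by rw [hzn]; exact hz), qq_rot99 hc, hzn]
      ring
    · rw [w_out z hz, w_out _ (by rw [hzn]; exact hz)]
      exact hc.rw z
  · intro z
    by_cases hz : ‖z‖ < s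
    · rw [h_in z hz, h_in _ (by rw [hzn]; exact hz), qq_rot99 hc, hzn]
    · rw [h_out z hz, h_out _ (by rw [hzn]; exact hz)]
      exact hc.rh z
  · intro z
    by_cases hz : ‖z‖ < s
    · rw [w_in z hz, w_in _ (by rw [norm_star]; exact hz), qq_star99 hc, norm_star, norm_star,
        star_div₀, star_mul', star_mul']
      have h1 : ∀ r : ℝ, star ((r : ℝ) : ℂ) = ((r : ℝ) : ℂ) := fun r => Complex.conj_ofReal r
      have h2 : star (2 : ℂ) = 2 := by
        have := h1 2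
        push_cast at this
        exact this
      rw [h1, h2]
    · rw [w_out z hz, w_out _ (by rw [norm_star]; exact hz)]
      exact hc.cw z
  · intro z
    by_cases hz : ‖z‖ < s
    · rw [h_in z hz, h_in _ (by rw [norm_star]; exact hz), qq_star99 hc, norm_star, norm_star]
    · rw [h_out z hz, h_out _ (by rw [norm_star]; exact hz)]
      exact hc.ch z

theorem ins_h0 (hs : Near c s) (hX : Cut Xi s) (hl : l ≠ 0) : (ins c Xi s l).h 0 = -1 := by
  have hp := qq_pos (c := c) hX hl 0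
  have h1 : (ins c Xi s l).h 0 = (‖(0 : ℂ)‖ ^ 2 - ‖qq c Xi l 0‖ ^ 2) /
      (‖(0 : ℂ)‖ ^ 2 + ‖qq c Xi l 0‖ ^ 2) := if_pos (by rw [norm_zero]; exact hs.pos)
  rw [h1]
  rw [norm_zero] at hp ⊢
  have h2 : 0 < ‖qq c Xi l 0‖ ^ 2 := by
    have : (0 : ℝ) ^ 2 = 0 := by norm_num
    linarith
  rw [div_eq_iff (by
    have : (0 : ℝ) ^ 2 = 0 := by norm_num
    rw [this]
    linarith)]
  ring

end GO3.I
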