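import Pool.Agent.GO3.I.Defs

/-! # Kal: inequalities for `k u = |u|²/(1+|u|²)` and `g u = 1/(1+|u|²)²`

PROOF. Write `P = 1 + |u|²`, `T = |t|²`, `b = 2 Re (conj u t)`, so `1 + |u ± t|² = P + T ± b`,
`|b| ≤ 2 |u| |t|`, `g = (1 - k)²`.
* `kf_lip`: `k u - k v = (|u|² - |v|²)/((1+|u|²)(1+|v|²))`, `||u|² - |v|²| ≤ |u - v| (|u| + |v|)` and
  `|u|/(1+|u|²) ≤ 1/2`, the same for `v`.
* `gf_lip`: `|(1-k)² - (1-k')²| ≤ 2 |k - k'|`.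
* `kf_sec`: `k(u+t) + k(u-t) - 2 k u = 2/P - 2(P+T)/((P+T)² - b²)
  = 2T/(P(P+T)) - 2b²/((P+T)((P+T)²-b²))`, `2 k t = 2T/(1+T)`,
  `1/(P(P+T)) - 1/(1+T) = -|u|²(1 + P + T)/(P(P+T)(1+T))`, of absolute value at most `2 |u|²`;
  `b² ≤ 4|u|²T`, `(P+T)² - b² = (1+|u+t|²)(1+|u-t|²) ≥ 1`, `P + T ≥ 1`. Total: `4 + 8 = 12`.
* `kf_sq`: `(k(u±t) - k u)² = (T ± b)²/((1+|u±t|²)² P²) ≤ 2 b² + 2 T²/(1+|u±t|²)²`, and
  `1 + |u±t|² ≥ (1+T)/4` because `|u| ≤ 1/2` (`|t| ≤ 1`: trivial; `|t| ≥ 1`: `|u±t| ≥ |t|/2`).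
* `kf_sqsec`: `k₊² + k₋² - 2 k₀² = Σ (k± - k₀)² + 2 k₀ (k₊ + k₋ - 2 k₀)`, `k₀ ≤ |u|²`, `k₀ ≤ 1`,
  `k t ≤ T`: at most `16|u|²T + 64 (k t)² + 4|u|²T + 24|u|²T`.
* `gf_sec`: `g₊ + g₋ - 2 g₀ = -2 (k₊ + k₋ - 2 k₀) + (k₊² + k₋² - 2 k₀²)`; `|k₊ + k₋ - 2k₀| ≤ 2T + 12|u|²T ≤ 5T`
  and `|k₊² + k₋² - 2 k₀²| ≤ 2 T + 2 k₀ · 5 T ≤ 5 T` (`|k± - k₀| ≤ |t|`, `k₀ ≤ 1/4`). -/

open MeasureTheory Filter Topology Set
open scoped ContDiff Real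

noncomputable section

namespace GO3.I

theorem kf_nonneg (u : ℂ) : 0 ≤ kf u := by
  unfold kf
  positivity

theorem kf_le_one (u : ℂ) : kf u ≤ 1 := by
  unfold kf
  rw [div_le_one (by positivity)]
  linarith

theorem kf_le_sq (u : ℂ) : kf u ≤ ‖u‖ ^ 2 := by
  unfold kf
  exact div_le_self (by positivity) (by nlinarith [sq_nonneg ‖u‖])

theorem gf_nonneg (u : ℂ) : 0 ≤ gf u := by
  unfold gf
  positivity

theorem gf_le_one (u : ℂ) : gf u ≤ 1 := by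
  unfold gf
  rw [div_le_one (by positivity)]
  nlinarith [sq_nonneg ‖u‖, sq_nonneg (‖u‖ ^ 2)]

theorem gf_eq (u : ℂ) : gf u = (1 - kf u) ^ 2 := by
  unfold gf kf
  have h : (1 + ‖u‖ ^ 2) ≠ 0 := by positivity
  field_simp
  ring

theorem gf_anti {u v : ℂ} (h : ‖u‖ ≤ ‖v‖) : gf v ≤ gf u := by
  unfold gf
  have h0 := norm_nonneg u
  have h1 : ‖u‖ ^ 2 ≤ ‖v‖ ^ 2 := pow_le_pow_left₀ h0 h 2
  exact one_div_le_one_div_of_le (by positivity) (pow_le_pow_left₀ (by positivity) (by linarith) 2)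

theorem gf_half {u : ℂ} (h : ‖u‖ ≤ 1 / 4) : 1 / 2 ≤ gf u := by
  unfold gf
  have h0 := norm_nonneg u
  have h1 : ‖u‖ ^ 2 ≤ (1 / 4) ^ 2 := pow_le_pow_left₀ h0 h 2
  have h2 : 0 ≤ ‖u‖ ^ 2 := by positivity
  refine one_div_le_one_div_of_le (by positivity) ?_
  nlinarith

theorem kf_lip (u v : ℂ) : |kf u - kf v| ≤ ‖u - v‖ := by
  have h0 := norm_nonneg u
  have h1 := norm_nonneg v
  have h2 := abs_norm_sub_norm_le u v
  have e : kf u - kf v = (‖u‖ - ‖v‖) * ((‖u‖ + ‖v‖) / ((1 + ‖u‖ ^ 2) * (1 + ‖v‖ ^ 2))) := by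
    unfold kf
    have ha : (1 + ‖u‖ ^ 2) ≠ 0 := by positivity
    have hb : (1 + ‖v‖ ^ 2) ≠ 0 := by positivity
    field_simp
    ring
  have h3 : 0 ≤ (‖u‖ + ‖v‖) / ((1 + ‖u‖ ^ 2) * (1 + ‖v‖ ^ 2)) := by positivity
  have h4 : (‖u‖ + ‖v‖) / ((1 + ‖u‖ ^ 2) * (1 + ‖v‖ ^ 2)) ≤ 1 := by
    rw [div_le_one (by positivity)]
    nlinarith [sq_nonneg (‖u‖ - 1), sq_nonneg (‖v‖ - 1), mul_nonneg (sq_nonneg ‖u‖) (sq_nonneg ‖v‖)]
  rw [e, abs_mul, abs_of_nonneg h3]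
  calc |‖u‖ - ‖v‖| * ((‖u‖ + ‖v‖) / ((1 + ‖u‖ ^ 2) * (1 + ‖v‖ ^ 2))) ≤ |‖u‖ - ‖v‖| * 1 :=
        mul_le_mul_of_nonneg_left h4 (abs_nonneg _)
    _ ≤ ‖u - v‖ := by rw [mul_one]; exact h2

theorem kf_sq_lip (u v : ℂ) : |kf u ^ 2 - kf v ^ 2| ≤ 2 * ‖u - v‖ := by
  have h := kf_lip u v
  have e : kf u ^ 2 - kf v ^ 2 = (kf u - kf v) * (kf u + kf v) := by ring
  rw [e, abs_mul]
  have h1 : |kf u + kf v| ≤ 2 := by
    rw [abs_of_nonneg (add_nonneg (kf_nonneg u) (kf_nonneg v))]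
    linarith [kf_le_one u, kf_le_one v]
  have h2 := mul_le_mul h h1 (abs_nonneg _) (norm_nonneg _)
  linarith

theorem gf_lip (u v : ℂ) : |gf u - gf v| ≤ 2 * ‖u - v‖ := by
  have h := kf_lip u v
  have e : gf u - gf v = (kf u - kf v) * (kf u + kf v - 2) := by
    rw [gf_eq, gf_eq]
    ring
  rw [e, abs_mul]
  have h1 : |kf u + kf v - 2| ≤ 2 := by
    rw [abs_le]
    constructor <;> linarith [kf_le_one u, kf_le_one v, kf_nonneg u, kf_nonneg v]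
  have h2 := mul_le_mul h h1 (abs_nonneg _) (norm_nonneg _)
  linarith

/-- `|u ± t|² = |u|² + |t|² ± b`, `b² ≤ 4 |u|² |t|²` -/
theorem ka_split (u t : ℂ) : ∃ b : ℝ, ‖u + t‖ ^ 2 = ‖u‖ ^ 2 + ‖t‖ ^ 2 + b ∧
    ‖u - t‖ ^ 2 = ‖u‖ ^ 2 + ‖t‖ ^ 2 - b ∧ b ^ 2 ≤ 4 * ‖u‖ ^ 2 * ‖t‖ ^ 2 := by
  refine ⟨2 * (u.re * t.re + u.im * t.im), ?_, ?_, ?_⟩
  · rw [← Complex.normSq_eq_norm_sq, ← Complex.normSq_eq_norm_sq, ← Complex.normSq_eq_norm_sq,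
      Complex.normSq_apply, Complex.normSq_apply, Complex.normSq_apply, Complex.add_re, Complex.add_im]
    ring
  · rw [← Complex.normSq_eq_norm_sq, ← Complex.normSq_eq_norm_sq, ← Complex.normSq_eq_norm_sq,
      Complex.normSq_apply, Complex.normSq_apply, Complex.normSq_apply, Complex.sub_re, Complex.sub_im]
    ring
  · rw [← Complex.normSq_eq_norm_sq, ← Complex.normSq_eq_norm_sq, Complex.normSq_apply, Complex.normSq_apply]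
    nlinarith [sq_nonneg (u.re * t.im - u.im * t.re)]

theorem kf_sec (u t : ℂ) :
    |kf (u + t) + kf (u - t) - 2 * kf u - 2 * kf t| ≤ 12 * ‖u‖ ^ 2 * ‖t‖ ^ 2 := by
  obtain ⟨b, h1, h2, h3⟩ := ka_split u t
  have hp : 0 ≤ ‖u + t‖ ^ 2 := by positivity
  have hm : 0 ≤ ‖u - t‖ ^ 2 := by positivity
  unfold kf
  rw [h1, h2] at *
  have hU : 0 ≤ ‖u‖ ^ 2 := by positivity
  have hT : 0 ≤ ‖t‖ ^ 2 := by positivity
  generalize ‖u‖ ^ 2 = U at *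
  generalize ‖t‖ ^ 2 = T at *
  have e : (U + T + b) / (1 + (U + T + b)) + (U + T - b) / (1 + (U + T - b)) - 2 * (U / (1 + U)) - 2 * (T / (1 + T))
      = -(2 * T * U * ((2 + U + T) / ((1 + U) * (1 + U + T) * (1 + T))))
        - 2 * b ^ 2 * (1 / ((1 + U + T) * ((1 + (U + T + b)) * (1 + (U + T - b))))) := by
    have a1 : (1 + (U + T + b)) ≠ 0 := by positivity
    have a2 : (1 + (U + T - b)) ≠ 0 := by positivity
    have a3 : (1 + U) ≠ 0 := by positivity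
    have a4 : (1 + T) ≠ 0 := by positivity
    have a5 : (1 + U + T) ≠ 0 := by positivity
    field_simp
    ring
  have c1 : 0 ≤ (2 + U + T) / ((1 + U) * (1 + U + T) * (1 + T)) := by positivity
  have c2 : (2 + U + T) / ((1 + U) * (1 + U + T) * (1 + T)) ≤ 2 := by
    rw [div_le_iff₀ (by positivity)]
    have : (1 + U + T) ≤ (1 + U) * (1 + U + T) * (1 + T) := by
      have h5 : 1 ≤ (1 + U) * (1 + T) := by nlinarith [mul_nonneg hU hT]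
      nlinarith
    nlinarith
  have c3 : 0 ≤ 1 / ((1 + U + T) * ((1 + (U + T + b)) * (1 + (U + T - b)))) := by positivity
  have c4 : 1 / ((1 + U + T) * ((1 + (U + T + b)) * (1 + (U + T - b)))) ≤ 1 := by
    rw [div_le_one (by positivity)]
    have h5 : 1 ≤ (1 + (U + T + b)) * (1 + (U + T - b)) := by nlinarith [mul_nonneg hp hm]
    nlinarith
  rw [e]
  have d1 := mul_le_mul_of_nonneg_left c2 (by positivity : 0 ≤ 2 * T * U)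
  have d2 := mul_le_mul_of_nonneg_left c4 (by positivity : 0 ≤ 2 * b ^ 2)
  have d3 := mul_nonneg (by positivity : 0 ≤ 2 * T * U) c1
  have d4 := mul_nonneg (by positivity : 0 ≤ 2 * b ^ 2) c3
  rw [abs_le]
  constructor <;> nlinarith

theorem ka_low (u t : ℂ) (hu : ‖u‖ ≤ 1 / 2) : (1 + ‖t‖ ^ 2) / 4 ≤ 1 + ‖u + t‖ ^ 2 := by
  have h0 := norm_nonneg t
  have h1 := norm_nonneg (u + t)
  have h2 : ‖t‖ ≤ ‖u + t‖ + ‖u‖ := by
    have := norm_sub_le (u + t) u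
    have e : u + t - u = t := by ring
    rwa [e] at this
  rcases le_or_gt ‖t‖ 1 with h | h
  · nlinarith
  · nlinarith

theorem kf_sq (u t : ℂ) (hu : ‖u‖ ≤ 1 / 2) :
    (kf (u + t) - kf u) ^ 2 ≤ 8 * ‖u‖ ^ 2 * ‖t‖ ^ 2 + 32 * kf t ^ 2 := by
  obtain ⟨b, h1, _, h3⟩ := ka_split u t
  have hl := ka_low u t hu
  have hp : 0 ≤ ‖u + t‖ ^ 2 := by positivity
  unfold kf
  rw [h1] at *
  have hU : 0 ≤ ‖u‖ ^ 2 := by positivity
  have hT : 0 ≤ ‖t‖ ^ 2 := by positivity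
  generalize ‖u‖ ^ 2 = U at *
  generalize ‖t‖ ^ 2 = T at *
  have e : (U + T + b) / (1 + (U + T + b)) - U / (1 + U) =
      b * (1 / ((1 + (U + T + b)) * (1 + U))) + T * (1 / ((1 + (U + T + b)) * (1 + U))) := by
    have a1 : (1 + (U + T + b)) ≠ 0 := by positivity
    have a3 : (1 + U) ≠ 0 := by positivity
    field_simp
    ring
  have c0 : 0 ≤ 1 / ((1 + (U + T + b)) * (1 + U)) := by positivity
  have c1 : 1 / ((1 + (U + T + b)) * (1 + U)) ≤ 1 := by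
    rw [div_le_one (by positivity)]
    nlinarith [mul_nonneg hp hU]
  have c2 : 1 / ((1 + (U + T + b)) * (1 + U)) ≤ 4 / (1 + T) := by
    rw [div_le_div_iff₀ (by positivity) (by positivity)]
    nlinarith [mul_nonneg hp hU]
  have c3 : T * (1 / ((1 + (U + T + b)) * (1 + U))) ≤ 4 * (T / (1 + T)) := by
    have := mul_le_mul_of_nonneg_left c2 hT
    have e2 : T * (4 / (1 + T)) = 4 * (T / (1 + T)) := by ring
    rwa [e2] at this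
  rw [e]
  generalize 1 / ((1 + (U + T + b)) * (1 + U)) = q at *
  have c4 : (T * q) ^ 2 ≤ (4 * (T / (1 + T))) ^ 2 := pow_le_pow_left₀ (by positivity) c3 2
  have c5 : (b * q) ^ 2 ≤ b ^ 2 := by
    have : q ^ 2 ≤ 1 := by nlinarith
    rw [mul_pow]
    nlinarith [sq_nonneg b]
  nlinarith [sq_nonneg (b * q - T * q)]

theorem kf_sqsec (u t : ℂ) (hu : ‖u‖ ≤ 1 / 2) :
    kf (u + t) ^ 2 + kf (u - t) ^ 2 - 2 * kf u ^ 2 ≤ 44 * ‖u‖ ^ 2 * ‖t‖ ^ 2 + 64 * kf t ^ 2 := by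
  have h1 := kf_sq u t hu
  have h2 := kf_sq u (-t) hu
  have e1 : kf (-t) = kf t := by
    unfold kf
    rw [norm_neg]
  rw [norm_neg, e1, ← sub_eq_add_neg] at h2
  have h3 := (abs_le.1 (kf_sec u t)).2
  have k0 := kf_nonneg u
  have k1 := kf_le_one u
  have k2 := kf_le_sq u
  have t0 := kf_nonneg t
  have t2 := kf_le_sq t
  have hU : 0 ≤ ‖u‖ ^ 2 := by positivity
  have hT : 0 ≤ ‖t‖ ^ 2 := by positivity
  have h4 : kf u * kf t ≤ ‖u‖ ^ 2 * ‖t‖ ^ 2 := mul_le_mul k2 t2 t0 hU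
  have h5 := mul_le_mul_of_nonneg_left h3 k0
  have h6 : kf u * (12 * ‖u‖ ^ 2 * ‖t‖ ^ 2) ≤ 12 * ‖u‖ ^ 2 * ‖t‖ ^ 2 := by
    have : 0 ≤ 12 * ‖u‖ ^ 2 * ‖t‖ ^ 2 := by positivity
    nlinarith
  nlinarith

theorem gf_sec (u t : ℂ) (hu : ‖u‖ ≤ 1 / 2) :
    |gf (u + t) + gf (u - t) - 2 * gf u| ≤ 15 * ‖t‖ ^ 2 := by
  have h3 := abs_le.1 (kf_sec u t)
  have k0 := kf_nonneg u
  have k2 := kf_le_sq u
  have t0 := kf_nonneg t
  have t2 := kf_le_sq t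
  have hU : ‖u‖ ^ 2 ≤ 1 / 4 := by nlinarith [norm_nonneg u]
  have hT : 0 ≤ ‖t‖ ^ 2 := by positivity
  have l1 : (kf (u + t) - kf u) ^ 2 ≤ ‖t‖ ^ 2 := by
    have := kf_lip (u + t) u
    have e : u + t - u = t := by ring
    rw [e] at this
    rw [← sq_abs]
    exact pow_le_pow_left₀ (abs_nonneg _) this 2
  have l2 : (kf (u - t) - kf u) ^ 2 ≤ ‖t‖ ^ 2 := by
    have := kf_lip (u - t) u
    have e : u - t - u = -t := by ring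
    rw [e, norm_neg] at this
    rw [← sq_abs]
    exact pow_le_pow_left₀ (abs_nonneg _) this 2
  have hUT : ‖u‖ ^ 2 * ‖t‖ ^ 2 ≤ 1 / 4 * ‖t‖ ^ 2 := mul_le_mul_of_nonneg_right hU hT
  have s1 : kf (u + t) + kf (u - t) - 2 * kf u ≤ 5 * ‖t‖ ^ 2 := by nlinarith
  have s2 : -(5 * ‖t‖ ^ 2) ≤ kf (u + t) + kf (u - t) - 2 * kf u := by nlinarith
  have k4 : kf u ≤ 1 / 4 := le_trans k2 hU
  have s3 : kf u * (kf (u + t) + kf (u - t) - 2 * kf u) ≤ 5 / 4 * ‖t‖ ^ 2 := by nlinarith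
  have s4 : -(5 / 4 * ‖t‖ ^ 2) ≤ kf u * (kf (u + t) + kf (u - t) - 2 * kf u) := by nlinarith
  have m1 := sq_nonneg (kf (u + t) - kf u)
  have m2 := sq_nonneg (kf (u - t) - kf u)
  rw [gf_eq, gf_eq, gf_eq, abs_le]
  constructor <;> nlinarith

end GO3.I
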