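import Pool.Agent.GO3.I.Tay
import Pool.Agent.GO3.I.Dif
import Pool.Agent.GO3.I.Ca1
import Pool.Agent.GO3.I.Ca2

/-! # Part I, main result: inserting an anti-lump costs strictly less than `4 π`

PROOF (`insertion`). `tay` gives `al, s0, C`; replace `s0` by `min s0 r0`. `case1` (`al ≠ 0`) or `case2` (`al = 0`, `F0 = F(0)`) with
`a = Dz c.A (u0 c)`, `u = u0 c` gives `s`; `cut_ex` gives `Xi`; `Near c s` holds as `s ≤ s0`; `DD_int` gives the integrability and hence
`l ≠ 0` with negative integral; `c' = ins c Xi s l`, `ins_adm`, `ins_h0`, `dif`.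
(`ins_class`): `A z = i z G z` gives `b(r,χ) = r² G`, so `|β(r)| ≤ M r²` for `r ≤ 1`; for `r ≤ r0` small `aa n r ≤ 0`, `psi (aa n r) = 0` and
`Z = 1` for `c` and `c'` (same `A`); for `r ≥ r0` all data of `c` and `c'` on the circle agree, so `Z` is the same for all `r ≥ 0`. -/

open MeasureTheory Filter Topology Set
open scoped ContDiff Real

noncomputable section

namespace GO3.I

theorem insertion (n : ℕ) (hn : 2 ≤ n) (c : Cf) (hc : c.Adm n) (hR : c.Rad) (h0 : c.h 0 = 1)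
    (hF : 0 < c.F 0) (r0 : ℝ) (hr0 : 0 < r0) :
    ∃ c' : Cf, c'.Adm n ∧ c'.A = c.A ∧ c'.h 0 = -1 ∧
      (∀ z : ℂ, r0 ≤ ‖z‖ → c'.w z = c.w z ∧ c'.h z = c.h z) ∧ c'.E < c.E + 4 * π := by
  obtain ⟨G, hG, hA⟩ := hR
  obtain ⟨al, s0, C, hs0, hs01, hC, hh, hu, ha, hFC, hGC, hFF⟩ := tay n hn c hc h0 hF G hG hA
  have hr : 0 < min s0 r0 := lt_min hs0 hr0
  have hr1 : min s0 r0 ≤ 1 := (min_le_left _ _).trans hs01
  have key : ∃ s, 0 < s ∧ s ≤ min s0 r0 ∧ ∀ Xi : ℝ → ℝ, Cut Xi s →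
      (∀ l, IntegrableOn (DD (Dz c.A (u0 c)) (u0 c) c.F G Xi l) (Metric.ball (0 : ℂ) s)) →
      ∃ l, l ≠ 0 ∧ ∫ z in Metric.ball (0 : ℂ) s, DD (Dz c.A (u0 c)) (u0 c) c.F G Xi l z < 0 := by
    by_cases hal : al = 0
    · subst hal
      refine case2 _ _ _ _ (min s0 r0) C (c.F 0) hF hr hr1 hC ?_ ?_ ?_ ?_ ?_
      · intro z hz
        simpa using hu z (hz.trans (min_le_left _ _))
      · intro z hz
        simpa using ha z (hz.trans (min_le_left _ _))
      · exact fun z hz => hFC z (hz.trans (min_le_left _ _))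
      · exact fun z hz => hGC z (hz.trans (min_le_left _ _))
      · exact fun z hz => hFF z (hz.trans (min_le_left _ _))
    · exact case1 _ _ _ _ al (min s0 r0) C hal hr hr1 hC
        (fun z hz => hu z (hz.trans (min_le_left _ _)))
        (fun z hz => ha z (hz.trans (min_le_left _ _)))
        (fun z hz => hFC z (hz.trans (min_le_left _ _)))
        (fun z hz => hGC z (hz.trans (min_le_left _ _)))
  obtain ⟨s, hs, hss, hkey⟩ := key
  obtain ⟨Xi, hX⟩ := cut_ex s hs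
  have hN : Near c s := ⟨hs, fun z hz => hh z (hz.trans (hss.trans (min_le_left _ _)))⟩
  obtain ⟨l, hl, hneg⟩ := hkey Xi hX (fun l => DD_int hc hN hX G hG)
  refine ⟨ins c Xi s l, ins_adm hc hN hX hl, rfl, ins_h0 hN hX hl, ?_, ?_⟩
  · intro z hz
    have h1 : ¬ ‖z‖ < s := not_lt.mpr ((hss.trans (min_le_right _ _)).trans hz)
    constructor
    · simp only [ins, if_neg h1]
    · simp only [ins, if_neg h1]
  · rw [dif hc hN hX hl G hG hA]
    linarith

end GO3.I
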