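import Pool.Agent.GO3.I.CutEx

/-! # Ster: the configurations in the stereographic coordinate

PROOF. `|w|² + h² = 1` and `1 + h > 0` give `|u0|² = (1-h)/(1+h)`, `1 + |u0|² = 2/(1+h)`, so `w = sw u0`, `h = sh u0`.
For `z ≠ 0`: `uu = q / conj z` (`q = qq`), `|uu|² = |q|²/|z|²`, hence
`sw uu = 2 (q/conj z) |z|²/(|z|²+|q|²) = 2 q z/(|z|²+|q|²)` and `sh uu = (|z|²-|q|²)/(|z|²+|q|²)`.
`ins_out`: for `s²/2 ≤ ‖z‖²` the cut-off is `0`, so `uu = u0` and `ins = c` (`z ≠ 0`).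
The `=ᶠ` versions follow because the sets `{‖z‖ < s}`, `{z ≠ 0}` are open. -/

open MeasureTheory Filter Topology Set
open scoped ContDiff Real

noncomputable section

namespace GO3.I

variable {n : ℕ} {c : Cf} {Xi : ℝ → ℝ} {s l : ℝ}

private lemma u0_sq99 (hc : c.Adm n) (z : ℂ) (hz : 0 < c.h z) :
    ‖u0 c z‖ ^ 2 = (1 - c.h z) / (1 + c.h z) := by
  have h1 : 0 < 1 + c.h z := by linarith
  have hu := hc.unit z
  unfold u0
  rw [norm_div, Complex.norm_real, Real.norm_eq_abs, abs_of_pos h1, div_pow,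
    show ‖c.w z‖ ^ 2 = (1 - c.h z) * (1 + c.h z) by linarith]
  field_simp

private lemma one_add99 (hc : c.Adm n) (z : ℂ) (hz : 0 < c.h z) :
    1 + ‖u0 c z‖ ^ 2 = 2 / (1 + c.h z) := by
  have h1 : 0 < 1 + c.h z := by linarith
  rw [u0_sq99 hc z hz]
  field_simp
  ring

theorem c_w (hc : c.Adm n) (z : ℂ) (hz : 0 < c.h z) : c.w z = sw (u0 c z) := by
  have h1 : 0 < 1 + c.h z := by linarith
  unfold sw
  rw [one_add99 hc z hz]
  unfold u0
  have h2 : ((1 + c.h z : ℝ) : ℂ) ≠ 0 := by exact_mod_cast h1.ne'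
  push_cast at h2 ⊢
  field_simp

theorem c_h (hc : c.Adm n) (z : ℂ) (hz : 0 < c.h z) : c.h z = sh (u0 c z) := by
  have h1 : 0 < 1 + c.h z := by linarith
  unfold sh
  rw [one_add99 hc z hz, u0_sq99 hc z hz]
  field_simp
  ring

theorem u0_le (hc : c.Adm n) (z : ℂ) (hz : 0 < c.h z) : ‖u0 c z‖ ≤ 1 := by
  have h1 : 0 < 1 + c.h z := by linarith
  have h2 : ‖u0 c z‖ ^ 2 ≤ 1 := by
    rw [u0_sq99 hc z hz, div_le_one h1]
    linarith
  have h3 := norm_nonneg (u0 c z)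
  nlinarith

theorem c_w_ev (hc : c.Adm n) (hs : Near c s) (z : ℂ) (hz : ‖z‖ < s) :
    c.w =ᶠ[𝓝 z] fun y => sw (u0 c y) := by
  have ho : IsOpen {y : ℂ | ‖y‖ < s} := isOpen_lt continuous_norm continuous_const
  filter_upwards [ho.mem_nhds hz] with y hy
  exact c_w hc y (hs.hpos y (le_of_lt hy))

theorem c_h_ev (hc : c.Adm n) (hs : Near c s) (z : ℂ) (hz : ‖z‖ < s) :
    c.h =ᶠ[𝓝 z] fun y => sh (u0 c y) := by
  have ho : IsOpen {y : ℂ | ‖y‖ < s} := isOpen_lt continuous_norm continuous_const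
  filter_upwards [ho.mem_nhds hz] with y hy
  exact c_h hc y (hs.hpos y (le_of_lt hy))

theorem u0_smooth (hc : c.Adm n) (hs : Near c s) (z : ℂ) (hz : ‖z‖ ≤ s) :
    ContDiffAt ℝ ∞ (u0 c) z := by
  have h1 : 0 < 1 + c.h z := by
    have := hs.hpos z hz
    linarith
  have e : u0 c = fun z => c.w z * (((1 + c.h z : ℝ) : ℂ))⁻¹ := by
    funext z
    unfold u0
    rw [div_eq_mul_inv]
  rw [e]
  refine hc.sw.contDiffAt.mul (ContDiffAt.inv ?_ ?_)
  · exact (Complex.ofRealCLM.contDiff.comp (contDiff_const.add hc.sh)).contDiffAt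
  · exact_mod_cast h1.ne'

theorem qq_smooth (hc : c.Adm n) (hs : Near c s) (hX : Cut Xi s) (z : ℂ) (hz : ‖z‖ ≤ s) :
    ContDiffAt ℝ ∞ (qq c Xi l) z := by
  have e : qq c Xi l = fun z => star z * u0 c z + ((l * Xi (‖z‖ ^ 2) : ℝ) : ℂ) := rfl
  rw [e]
  have h1 : ContDiff ℝ ∞ (fun z : ℂ => star z) := Complex.conjCLE.contDiff
  have h2 : ContDiff ℝ ∞ (fun z : ℂ => ((l * Xi (‖z‖ ^ 2) : ℝ) : ℂ)) :=
    Complex.ofRealCLM.contDiff.comp (contDiff_const.mul (hX.sm.comp (contDiff_norm_sq ℝ)))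
  exact (h1.contDiffAt.mul (u0_smooth hc hs z hz)).add h2.contDiffAt

theorem uu_smooth (hc : c.Adm n) (hs : Near c s) (hX : Cut Xi s) (z : ℂ) (hz : ‖z‖ ≤ s)
    (h0 : z ≠ 0) : ContDiffAt ℝ ∞ (uu c Xi l) z := by
  have e : uu c Xi l = fun z => u0 c z + ((l * Xi (‖z‖ ^ 2) : ℝ) : ℂ) * (star z)⁻¹ := by
    funext z
    unfold uu
    rw [div_eq_mul_inv]
  rw [e]
  have h1 : ContDiff ℝ ∞ (fun z : ℂ => star z) := Complex.conjCLE.contDiff
  have h2 : ContDiff ℝ ∞ (fun z : ℂ => ((l * Xi (‖z‖ ^ 2) : ℝ) : ℂ)) :=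
    Complex.ofRealCLM.contDiff.comp (contDiff_const.mul (hX.sm.comp (contDiff_norm_sq ℝ)))
  exact (u0_smooth hc hs z hz).add (h2.contDiffAt.mul (h1.contDiffAt.inv (star_ne_zero.2 h0)))

theorem uu_eq (z : ℂ) (h0 : z ≠ 0) : uu c Xi l z = qq c Xi l z / star z := by
  have h1 : star z ≠ 0 := star_ne_zero.2 h0
  unfold uu qq
  field_simp

/-- the denominator of `ins` is positive -/
theorem qq_pos (hX : Cut Xi s) (hl : l ≠ 0) (z : ℂ) :
    0 < ‖z‖ ^ 2 + ‖qq c Xi l z‖ ^ 2 := by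
  by_cases h0 : z = 0
  · have h1 : qq c Xi l z = ((l : ℝ) : ℂ) := by
      unfold qq
      rw [h0, star_zero, zero_mul, zero_add, norm_zero, hX.one _ (by
        have := sq_nonneg s
        simp only [ne_eq, OfNat.ofNat_ne_zero, not_false_eq_true, zero_pow]
        positivity), mul_one]
    rw [h1, Complex.norm_real]
    have : 0 < ‖l‖ := norm_pos_iff.2 hl
    positivity
  · have : 0 < ‖z‖ := norm_pos_iff.2 h0
    positivity

theorem ins_w_ev (z : ℂ) (hz : ‖z‖ < s) (h0 : z ≠ 0) :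
    (ins c Xi s l).w =ᶠ[𝓝 z] fun y => sw (uu c Xi l y) := by
  have ho : IsOpen {y : ℂ | ‖y‖ < s} := isOpen_lt continuous_norm continuous_const
  filter_upwards [ho.mem_nhds hz, isOpen_ne.mem_nhds h0] with y hy hy0
  have hy' : ‖y‖ < s := hy
  have h1 : (ins c Xi s l).w y =
      2 * qq c Xi l y * y / ((‖y‖ ^ 2 + ‖qq c Xi l y‖ ^ 2 : ℝ) : ℂ) := if_pos hy'
  rw [h1, uu_eq y hy0]
  unfold sw
  have hn : 0 < ‖y‖ := norm_pos_iff.2 hy0
  have hst : star y ≠ 0 := star_ne_zero.2 hy0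
  have h2 : (1 + ‖qq c Xi l y / star y‖ ^ 2 : ℝ) = (‖y‖ ^ 2 + ‖qq c Xi l y‖ ^ 2) / ‖y‖ ^ 2 := by
    rw [norm_div, norm_star, div_pow]
    field_simp
  have h3 : ((‖y‖ ^ 2 : ℝ) : ℂ) = star y * y := by
    push_cast
    exact (Complex.conj_mul' y).symm
  have hD : ((‖y‖ ^ 2 + ‖qq c Xi l y‖ ^ 2 : ℝ) : ℂ) ≠ 0 := by
    have : (‖y‖ ^ 2 + ‖qq c Xi l y‖ ^ 2 : ℝ) ≠ 0 := by positivity
    exact_mod_cast this
  rw [h2, Complex.ofReal_div, h3]
  field_simp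

theorem ins_h_ev (z : ℂ) (hz : ‖z‖ < s) (h0 : z ≠ 0) :
    (ins c Xi s l).h =ᶠ[𝓝 z] fun y => sh (uu c Xi l y) := by
  have ho : IsOpen {y : ℂ | ‖y‖ < s} := isOpen_lt continuous_norm continuous_const
  filter_upwards [ho.mem_nhds hz, isOpen_ne.mem_nhds h0] with y hy hy0
  have hy' : ‖y‖ < s := hy
  have h1 : (ins c Xi s l).h y =
      (‖y‖ ^ 2 - ‖qq c Xi l y‖ ^ 2) / (‖y‖ ^ 2 + ‖qq c Xi l y‖ ^ 2) := if_pos hy'
  rw [h1, uu_eq y hy0]
  unfold sh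
  have hn : 0 < ‖y‖ := norm_pos_iff.2 hy0
  have hD : (‖y‖ ^ 2 + ‖qq c Xi l y‖ ^ 2 : ℝ) ≠ 0 := by positivity
  rw [norm_div, norm_star, div_pow]
  field_simp

/-- outside the support of the cut-off nothing changes -/
theorem ins_out (hc : c.Adm n) (hs : Near c s) (hX : Cut Xi s) (z : ℂ) (hz : s ^ 2 / 2 ≤ ‖z‖ ^ 2) :
    (ins c Xi s l).w z = c.w z ∧ (ins c Xi s l).h z = c.h z := by
  by_cases h1 : ‖z‖ < s
  · have hp := hs.pos
    have hn : 0 < ‖z‖ := by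
      by_contra hc'
      have h0 : ‖z‖ = 0 := le_antisymm (not_lt.1 hc') (norm_nonneg z)
      rw [h0] at hz
      have : 0 < s ^ 2 / 2 := by positivity
      linarith
    have hz0 : z ≠ 0 := norm_pos_iff.1 hn
    have hh := hs.hpos z h1.le
    have hq : qq c Xi l z = star z * u0 c z := by
      unfold qq
      rw [hX.zero _ hz, mul_zero, Complex.ofReal_zero, add_zero]
    have hu : uu c Xi l z = u0 c z := by
      rw [uu_eq z hz0, hq]
      have : star z ≠ 0 := star_ne_zero.2 hz0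
      field_simp
    constructor
    · rw [(ins_w_ev z h1 hz0).eq_of_nhds, hu]
      exact (c_w hc z hh).symm
    · rw [(ins_h_ev z h1 hz0).eq_of_nhds, hu]
      exact (c_h hc z hh).symm
  · exact ⟨if_neg h1, if_neg h1⟩

end GO3.I
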