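import Pool.Agent.GO3.I.Defs

/-! # Tay: the local data at the origin

PROOF. `lin`: differentiate `w (ζ z) = ζ w z` and `w (conj z) = conj (w z)` at `0`: the real linear map `L = fderiv w 0`
satisfies `L (ζ v) = ζ L v` and `L (conj v) = conj (L v)`. Write `L v = p v + q conj v` with complex `p, q`
(`p = (L 1 - i L i)/2`, `q = (L 1 + i L i)/2`). The first identity for `v = 1` and `v = i` gives
`q conj ζ = q ζ`, so `q = 0` as `ζ² ≠ 1` (`n³ ≥ 8`); the second gives `p` real. `w0`: `w 0 = ζ w 0`, `ζ ≠ 1`.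
`tay`: `h > 0` near `0` by continuity; there `u0 c` is smooth, `u0 c 0 = 0`,
`fderiv (u0 c) 0 v = fderiv w 0 v / 2 = al v` with `al = p / 2` (product rule, `w 0 = 0`), so Taylor's theorem for a `C²`
function on a closed ball (or: `fderiv (u0 c)` is Lipschitz on the ball and the mean value inequality) gives `‖u0 z - al z‖ ≤ C ‖z‖²`;
`Dz c.A (u0 c)` is `C¹` near `0` with value `(al - i (i al)) / 2 = al` at `0` (`A 0 = 0`), hence the second bound;
`F` and `G` are continuous. Finally `C ≥ 1`, `s₀ ≤ 1` may be assumed. -/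

open MeasureTheory Filter Topology Set
open scoped ContDiff Real

noncomputable section

namespace GO3.I

theorem ta_exp (n : ℕ) (hn : 2 ≤ n) (k : ℕ) (hk : 0 < k) (hk2 : k < 8)
    (h : Complex.exp ((k : ℂ) * (2 * π * Complex.I / (n : ℂ) ^ 3)) = 1) : False := by
  obtain ⟨m, hm⟩ := Complex.exp_eq_one_iff.1 h
  have hn0 : ((n : ℂ) ^ 3) ≠ 0 := by
    have : (n : ℂ) ≠ 0 := by
      have : n ≠ 0 := by omega
      exact_mod_cast this
    exact pow_ne_zero 3 this
  have hpi : (2 * (π : ℂ) * Complex.I) ≠ 0 := Complex.two_pi_I_ne_zero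
  have h1 : (k : ℂ) = (m : ℂ) * (n : ℂ) ^ 3 := by
    have h2 : (k : ℂ) * (2 * (π : ℂ) * Complex.I) = ((m : ℂ) * (n : ℂ) ^ 3) * (2 * (π : ℂ) * Complex.I) := by
      rw [mul_div_assoc'] at hm
      rw [div_eq_iff hn0] at hm
      linear_combination hm
    exact mul_right_cancel₀ hpi h2
  have h3 : (k : ℤ) = m * (n : ℤ) ^ 3 := by exact_mod_cast h1
  have h4 : (8 : ℤ) ≤ (n : ℤ) ^ 3 := by
    have : (2 : ℤ) ≤ (n : ℤ) := by exact_mod_cast hn
    calc (8 : ℤ) = 2 ^ 3 := by norm_num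
      _ ≤ (n : ℤ) ^ 3 := pow_le_pow_left₀ (by norm_num) this 3
  have h5 : 0 < m := by
    by_contra hc
    push Not at hc
    have : (0 : ℤ) < k := by exact_mod_cast hk
    nlinarith
  have h6 : (k : ℤ) < 8 := by exact_mod_cast hk2
  nlinarith

theorem ze_ne_one (n : ℕ) (hn : 2 ≤ n) : ze n ≠ 1 := by
  intro h
  refine ta_exp n hn 1 (by norm_num) (by norm_num) ?_
  rw [Nat.cast_one, one_mul]
  exact h

theorem ze_sq_ne_one (n : ℕ) (hn : 2 ≤ n) : ze n ^ 2 ≠ 1 := by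
  intro h
  refine ta_exp n hn 2 (by norm_num) (by norm_num) ?_
  rw [Complex.exp_nat_mul]
  exact h

theorem norm_ze (n : ℕ) : ‖ze n‖ = 1 := by
  unfold ze
  have e : 2 * (π : ℂ) * Complex.I / (n : ℂ) ^ 3 = ((2 * π / (n : ℝ) ^ 3 : ℝ) : ℂ) * Complex.I := by
    push_cast
    ring
  rw [e, Complex.norm_exp_ofReal_mul_I]

theorem w0 (n : ℕ) (hn : 2 ≤ n) (c : Cf) (hc : c.Adm n) : c.w 0 = 0 := by
  have h := hc.rw 0
  rw [mul_zero] at h
  have h1 : (1 - ze n) * c.w 0 = 0 := by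
    linear_combination h
  rcases mul_eq_zero.1 h1 with h2 | h2
  · exact absurd (sub_eq_zero.1 h2).symm (ze_ne_one n hn)
  · exact h2

theorem ta_dw (c : Cf) {n : ℕ} (hc : c.Adm n) (z : ℂ) : DifferentiableAt ℝ c.w z :=
  (hc.sw.differentiable (by simp)).differentiableAt

theorem lin (n : ℕ) (hn : 2 ≤ n) (c : Cf) (hc : c.Adm n) :
    ∃ p : ℝ, ∀ v, fderiv ℝ c.w 0 v = (p : ℂ) * v := by
  set L := fderiv ℝ c.w 0 with hL
  have hd := ta_dw c hc
  -- rotation
  have h1 : ∀ v, L (ze n * v) = ze n * L v := by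
    intro v
    have e : (fun z => c.w (ze n * z)) = fun z => ze n * c.w z := by
      funext z
      exact hc.rw z
    have a1 : HasFDerivAt (fun z : ℂ => ze n * z) ((ze n) • (ContinuousLinearMap.id ℝ ℂ)) 0 :=
      (hasFDerivAt_id (𝕜 := ℝ) (0 : ℂ)).const_mul (ze n)
    have a2 : HasFDerivAt c.w L ((fun z : ℂ => ze n * z) 0) := by
      simpa [hL] using (hd 0).hasFDerivAt
    have a3 := (a2.comp (0 : ℂ) a1)
    have a4 : HasFDerivAt (fun z => ze n * c.w z) ((ze n) • L) 0 := (hd 0).hasFDerivAt.const_mul (ze n)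
    have a5 : HasFDerivAt (fun z => ze n * c.w z) (L ∘SL ((ze n) • (ContinuousLinearMap.id ℝ ℂ))) 0 := by
      rw [← e]
      exact a3
    have a6 := a5.unique a4
    have a7 := congrArg (fun T : ℂ →L[ℝ] ℂ => T v) a6
    simpa using a7
  -- conjugation
  have h2 : ∀ v, L (star v) = star (L v) := by
    intro v
    have e : (fun z => c.w (star z)) = fun z => star (c.w z) := by
      funext z
      exact hc.cw z
    have a1 : HasFDerivAt (fun z : ℂ => Complex.conjCLE z) (Complex.conjCLE : ℂ →L[ℝ] ℂ) 0 :=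
      Complex.conjCLE.hasFDerivAt
    have a2 : HasFDerivAt c.w L ((fun z : ℂ => Complex.conjCLE z) 0) := by
      simpa [hL] using (hd 0).hasFDerivAt
    have a3 := (a2.comp (0 : ℂ) a1)
    have a4 : HasFDerivAt (fun z => Complex.conjCLE (c.w z)) ((Complex.conjCLE : ℂ →L[ℝ] ℂ) ∘SL L) 0 :=
      (Complex.conjCLE.hasFDerivAt (x := c.w 0)).comp 0 (hd 0).hasFDerivAt
    have a5 : HasFDerivAt (fun z => Complex.conjCLE (c.w z)) (L ∘SL (Complex.conjCLE : ℂ →L[ℝ] ℂ)) 0 := by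
      have e2 : (fun z => Complex.conjCLE (c.w z)) = c.w ∘ fun z : ℂ => Complex.conjCLE z := by
        funext z
        have := congrFun e z
        simpa using this.symm
      rw [e2]
      exact a3
    have a6 := a5.unique a4
    have a7 := congrArg (fun T : ℂ →L[ℝ] ℂ => T v) a6
    simpa using a7
  -- decomposition
  have h3 : ∀ v : ℂ, L v = (v.re : ℂ) * L 1 + (v.im : ℂ) * L Complex.I := by
    intro v
    have e : v = v.re • (1 : ℂ) + v.im • Complex.I := by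
      apply Complex.ext <;> simp
    conv_lhs => rw [e]
    rw [map_add, map_smul, map_smul]
    simp
  have h4 : (L 1).im = 0 := by
    have := h2 1
    rw [star_one] at this
    have h5 := congrArg Complex.im this
    simp only [Complex.star_def, Complex.conj_im] at h5
    linarith
  have h6 : (ze n).im ≠ 0 := by
    intro h0
    apply ze_sq_ne_one n hn
    have h7 := norm_ze n
    have h8 : (ze n).re ^ 2 + (ze n).im ^ 2 = 1 := by
      have : ‖ze n‖ ^ 2 = (ze n).re ^ 2 + (ze n).im ^ 2 := by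
        rw [← Complex.normSq_eq_norm_sq, Complex.normSq_apply]
        ring
      rw [← this, h7]
      norm_num
    rw [h0] at h8
    apply Complex.ext
    · rw [sq, Complex.mul_re, h0, Complex.one_re]
      linarith
    · rw [sq, Complex.mul_im, h0, Complex.one_im]
      ring
  have h9 : L Complex.I = Complex.I * L 1 := by
    have h10 := h1 1
    rw [mul_one, h3] at h10
    have h11 : ze n = ((ze n).re : ℂ) + ((ze n).im : ℂ) * Complex.I := (Complex.re_add_im _).symm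
    have h12 : ((ze n).im : ℂ) * L Complex.I = ((ze n).im : ℂ) * (Complex.I * L 1) := by
      have : ze n * L 1 = ((ze n).re : ℂ) * L 1 + ((ze n).im : ℂ) * Complex.I * L 1 := by
        conv_lhs => rw [h11]
        ring
      rw [this] at h10
      linear_combination h10
    have h13 : ((ze n).im : ℂ) ≠ 0 := by exact_mod_cast h6
    exact mul_left_cancel₀ h13 h12
  refine ⟨(L 1).re, fun v => ?_⟩
  rw [h3 v, h9]
  have h14 : L 1 = ((L 1).re : ℂ) := by
    apply Complex.ext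
    · simp
    · rw [h4]
      simp
  have h15 : v = (v.re : ℂ) + (v.im : ℂ) * Complex.I := (Complex.re_add_im _).symm
  conv_rhs => rw [h15]
  rw [← h14]
  ring

/-- a `C¹` map is Lipschitz at a point -/
theorem ta_lip {V : Type*} [NormedAddCommGroup V] [NormedSpace ℝ V] {f : ℂ → V} (hf : ContDiffAt ℝ 1 f 0) :
    ∃ K : ℝ, 0 ≤ K ∧ ∀ᶠ z in 𝓝 (0 : ℂ), ‖f z - f 0‖ ≤ K * ‖z‖ := by
  obtain ⟨K, t, ht, hK⟩ := hf.exists_lipschitzOnWith
  refine ⟨K, K.2, ?_⟩
  filter_upwards [ht] with z hz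
  have := hK.dist_le_mul z hz 0 (mem_of_mem_nhds ht)
  rw [dist_eq_norm, dist_zero_right] at this
  exact this

/-- Taylor -/
theorem ta_taylor {f : ℂ → ℂ} (hf : ContDiffAt ℝ 2 f 0) (h0 : f 0 = 0) {a : ℂ}
    (ha : ∀ v, fderiv ℝ f 0 v = a * v) :
    ∃ K : ℝ, 0 ≤ K ∧ ∀ᶠ z in 𝓝 (0 : ℂ), ‖f z - a * z‖ ≤ K * ‖z‖ ^ 2 := by
  obtain ⟨K, hK0, hK⟩ := ta_lip (hf.fderiv_right (m := 1) (by norm_num))
  have hev : ∀ᶠ z in 𝓝 (0 : ℂ), DifferentiableAt ℝ f z := by
    have h1 := hf.eventually (by simp)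
    filter_upwards [h1] with z hz
    exact hz.differentiableAt (by norm_num)
  obtain ⟨ε, hε, hb⟩ := Metric.eventually_nhds_iff.1 (hK.and hev)
  refine ⟨K, hK0, ?_⟩
  rw [Metric.eventually_nhds_iff]
  refine ⟨ε, hε, fun z hz => ?_⟩
  rw [dist_zero_right] at hz
  have hmem : ∀ x ∈ Metric.closedBall (0 : ℂ) ‖z‖, dist x 0 < ε := fun x hx =>
    lt_of_le_of_lt (Metric.mem_closedBall.1 hx) hz
  have h1 := Convex.norm_image_sub_le_of_norm_hasFDerivWithin_le
    (f := fun y => f y - a * y) (f' := fun y => fderiv ℝ f y - fderiv ℝ f 0) (C := K * ‖z‖)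
    (s := Metric.closedBall (0 : ℂ) ‖z‖) (x := 0) (y := z) (𝕜 := ℝ) (fun y hy => ?_) (fun y hy => ?_)
    (convex_closedBall _ _) (Metric.mem_closedBall_self (norm_nonneg _))
    (by rw [Metric.mem_closedBall, dist_zero_right])
  · simp only [h0, mul_zero, sub_zero] at h1
    calc ‖f z - a * z‖ ≤ K * ‖z‖ * ‖z‖ := h1
      _ = K * ‖z‖ ^ 2 := by ring
  · have h2 := (hb (hmem y hy)).2.hasFDerivAt
    have h3 : HasFDerivAt (fun y : ℂ => a * y) (fderiv ℝ f 0) y := by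
      have h4 : fderiv ℝ f 0 = a • (ContinuousLinearMap.id ℝ ℂ) := by
        refine ContinuousLinearMap.ext fun v => ?_
        rw [ha]
        simp
      rw [h4]
      exact (hasFDerivAt_id (𝕜 := ℝ) y).const_mul a
    exact (h2.sub h3).hasFDerivWithinAt
  · have h2 := (hb (hmem y hy)).1
    refine le_trans h2 (mul_le_mul_of_nonneg_left ?_ hK0)
    have := Metric.mem_closedBall.1 hy
    rwa [dist_zero_right] at this

theorem tay (n : ℕ) (hn : 2 ≤ n) (c : Cf) (hc : c.Adm n) (h0 : c.h 0 = 1) (hF : 0 < c.F 0)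
    (G : ℂ → ℝ) (hG : ContDiff ℝ ∞ G) (hA : ∀ z, c.A z = Complex.I * z * (G z : ℂ)) :
    ∃ al s0 C : ℝ, 0 < s0 ∧ s0 ≤ 1 ∧ 1 ≤ C ∧ (∀ z : ℂ, ‖z‖ ≤ s0 → 0 < c.h z) ∧
      (∀ z : ℂ, ‖z‖ ≤ s0 → ‖u0 c z - (al : ℂ) * z‖ ≤ C * ‖z‖ ^ 2) ∧
      (∀ z : ℂ, ‖z‖ ≤ s0 → ‖Dz c.A (u0 c) z - (al : ℂ)‖ ≤ C * ‖z‖) ∧
      (∀ z : ℂ, ‖z‖ ≤ s0 → |c.F z| ≤ C) ∧ (∀ z : ℂ, ‖z‖ ≤ s0 → |G z| ≤ C) ∧
      (∀ z : ℂ, ‖z‖ ≤ s0 → c.F 0 / 2 ≤ c.F z) := by
  obtain ⟨p, hp⟩ := lin n hn c hc
  have hw0 := w0 n hn c hc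
  -- the map u0
  have hden : ((1 + c.h 0 : ℝ) : ℂ) ≠ 0 := by
    rw [h0]
    norm_num
  have hhC : ContDiff ℝ ∞ (fun z => ((1 + c.h z : ℝ) : ℂ)) :=
    Complex.ofRealCLM.contDiff.comp (contDiff_const.add hc.sh)
  have hinv : ContDiffAt ℝ ∞ (fun z => (((1 + c.h z : ℝ) : ℂ))⁻¹) 0 := hhC.contDiffAt.inv hden
  have hu : ContDiffAt ℝ ∞ (u0 c) 0 := by
    have h1 := hc.sw.contDiffAt (x := (0 : ℂ)).mul hinv
    refine h1.congr_of_eventuallyEq (Eventually.of_forall fun z => ?_)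
    unfold u0
    rw [div_eq_mul_inv]
  have hu2 : ContDiffAt ℝ 2 (u0 c) 0 := hu.of_le (WithTop.coe_le_coe.2 le_top)
  have hu0 : u0 c 0 = 0 := by
    unfold u0
    rw [hw0, zero_div]
  have hfd : ∀ v, fderiv ℝ (u0 c) 0 v = ((p / 2 : ℝ) : ℂ) * v := by
    intro v
    have e : u0 c = fun z => c.w z * (((1 + c.h z : ℝ) : ℂ))⁻¹ := by
      funext z
      unfold u0
      rw [div_eq_mul_inv]
    have h1 : HasFDerivAt (fun z => c.w z * (((1 + c.h z : ℝ) : ℂ))⁻¹) _ 0 :=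
      (ta_dw c hc 0).hasFDerivAt.mul (hinv.differentiableAt (by simp)).hasFDerivAt
    rw [e, h1.fderiv]
    simp only [hw0, h0, add_apply, smul_apply, hp, zero_smul,
      smul_eq_mul, zero_mul, zero_add]
    push_cast
    ring
  obtain ⟨K1, hK1, ht⟩ := ta_taylor hu2 hu0 hfd
  -- the map Dz
  have hA0 : c.A 0 = 0 := by
    rw [hA]
    ring
  have hd1 : ContDiffAt ℝ 1 (fderiv ℝ (u0 c)) 0 := hu2.fderiv_right (m := 1) (by norm_num)
  have hDu : ∀ v : ℂ, ContDiffAt ℝ 1 (fun z => Du c.A (u0 c) z v) 0 := by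
    intro v
    unfold Du ip
    have a1 : ContDiffAt ℝ 1 (fun z => fderiv ℝ (u0 c) z v) 0 := hd1.clm_apply contDiffAt_const
    have a2 : ContDiffAt ℝ 1 (fun z => (c.A z).re) 0 :=
      (Complex.reCLM.contDiff.comp (hc.sA.of_le (by exact_mod_cast le_top))).contDiffAt
    have a3 : ContDiffAt ℝ 1 (fun z => (c.A z).im) 0 :=
      (Complex.imCLM.contDiff.comp (hc.sA.of_le (by exact_mod_cast le_top))).contDiffAt
    have a4 : ContDiffAt ℝ 1 (fun z => (((c.A z).re * v.re + (c.A z).im * v.im : ℝ) : ℂ)) 0 :=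
      (Complex.ofRealCLM.contDiff.contDiffAt (x := (c.A 0).re * v.re + (c.A 0).im * v.im)).comp 0
        ((a2.mul contDiffAt_const).add (a3.mul contDiffAt_const))
    exact a1.sub ((contDiffAt_const.mul a4).mul (hu2.of_le (by norm_num)))
  have hDz : ContDiffAt ℝ 1 (fun z => Dz c.A (u0 c) z) 0 := by
    unfold Dz
    have cI : ContDiffAt ℝ 1 (fun _ : ℂ => Complex.I) 0 := contDiffAt_const
    have c2 : ContDiffAt ℝ 1 (fun _ : ℂ => ((2 : ℂ))⁻¹) 0 := contDiffAt_const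
    have h1 := ((hDu 1).sub (cI.mul (hDu Complex.I))).mul c2
    refine h1.congr_of_eventuallyEq (Eventually.of_forall fun z => ?_)
    simp only [Pi.mul_apply, Pi.sub_apply]
    rw [div_eq_mul_inv]
  obtain ⟨K2, hK2, hl⟩ := ta_lip hDz
  have hDz0 : Dz c.A (u0 c) 0 = ((p / 2 : ℝ) : ℂ) := by
    unfold Dz Du ip
    rw [hu0, hfd, hfd, mul_zero, mul_zero, sub_zero, sub_zero, mul_one]
    linear_combination (-(((p / 2 : ℝ) : ℂ)) / 2) * Complex.I_sq
  rw [hDz0] at hl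
  -- continuity
  have hFc : Continuous c.F := by
    unfold Cf.F
    have h1 : Continuous (fderiv ℝ c.A) := hc.sA.continuous_fderiv (by simp)
    exact (Complex.continuous_im.comp (h1.clm_apply continuous_const)).sub
      (Complex.continuous_re.comp (h1.clm_apply continuous_const))
  have e1 : ∀ᶠ z in 𝓝 (0 : ℂ), 0 < c.h z :=
    hc.sh.continuous.continuousAt.eventually_const_lt (by rw [h0]; norm_num)
  have e2 : ∀ᶠ z in 𝓝 (0 : ℂ), |c.F z| < |c.F 0| + 1 :=
    (continuous_abs.comp hFc).continuousAt.eventually_lt_const (by simp)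
  have e3 : ∀ᶠ z in 𝓝 (0 : ℂ), |G z| < |G 0| + 1 :=
    (continuous_abs.comp hG.continuous).continuousAt.eventually_lt_const (by simp)
  have e4 : ∀ᶠ z in 𝓝 (0 : ℂ), c.F 0 / 2 < c.F z :=
    hFc.continuousAt.eventually_const_lt (by linarith)
  obtain ⟨ε, hε, hb⟩ := Metric.eventually_nhds_iff.1 (((((e1.and e2).and e3).and e4).and ht).and hl)
  have hs : ∀ z : ℂ, ‖z‖ ≤ min 1 (ε / 2) → dist z 0 < ε := fun z hz => by
    rw [dist_zero_right]
    have := le_trans hz (min_le_right 1 (ε / 2))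
    linarith
  have m1 := le_max_left K1 K2
  have m2 := le_max_right K1 K2
  have a1 := abs_nonneg (c.F 0)
  have a2 := abs_nonneg (G 0)
  refine ⟨p / 2, min 1 (ε / 2), 1 + |c.F 0| + |G 0| + max K1 K2, lt_min one_pos (by linarith), min_le_left _ _,
    by linarith, fun z hz => (hb (hs z hz)).1.1.1.1.1, fun z hz => ?_, fun z hz => ?_, fun z hz => ?_,
    fun z hz => ?_, fun z hz => (hb (hs z hz)).1.1.2.le⟩
  · refine le_trans (hb (hs z hz)).1.2 (mul_le_mul_of_nonneg_right (by linarith) (by positivity))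
  · refine le_trans (hb (hs z hz)).2 (mul_le_mul_of_nonneg_right (by linarith) (norm_nonneg _))
  · have := (hb (hs z hz)).1.1.1.1.2
    linarith
  · have := (hb (hs z hz)).1.1.1.2
    linarith

end GO3.I
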